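import Mathlib
set_option autoImplicit false

/-!
# Definitions for MP_151819_an (negation S03894)

A sigma-closed tree `T` (`GTree`), an almost disjoint family `B` along it (`Fam`), a scattered
compact space `K = N ∪ T ∪ {∞}` (`Sp`), equivalent norms `EN` on `C(K)`.
-/

namespace Pool.Agent.Helper50.GS

/-- A countably closed tree with infinitely many labelled successors at each node. -/
class GTree (T : Type) extends SemilatticeInf T where
  /-- the nodes below a node form a chain -/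
  chain : ∀ t a b : T, a ≤ t → b ≤ t → a ≤ b ∨ b ≤ a
  /-- the set of nodes below a node is countable -/
  cble : ∀ t : T, (Set.Iic t).Countable
  wf : WellFounded ((· < ·) : T → T → Prop)
  /-- increasing sequences have upper bounds -/
  ub : ∀ u : ℕ → T, Monotone u → ∃ a, ∀ n, u n ≤ a
  /-- label of the step from `s` towards `t` (meaningful for `s < t`) -/
  lab : T → T → ℕ
  lab_coh : ∀ s t t' : T, s < t → t ≤ t' → lab s t = lab s t'
  lab_sep : ∀ t t' : T, ¬ t ≤ t' → ¬ t' ≤ t → lab (t ⊓ t') t ≠ lab (t ⊓ t') t'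
  /-- successors -/
  suc : T → ℕ → T
  lt_suc : ∀ w i, w < suc w i
  lab_suc : ∀ w i, lab w (suc w i) = i

/-- The almost disjoint family. -/
structure Fam (T : Type) [GTree T] where
  B : T → Set ℕ
  sub : ∀ s t, s ≤ t → (B s \ B t).Finite
  grow : ∀ s t, s < t → (B t \ B s).Infinite
  inf : ∀ t, (B t).Infinite
  meet : ∀ s t, ¬ s ≤ t → ¬ t ≤ s → ((B s ∩ B t) \ B (s ⊓ t)).Finite

/-- The space `K = N ∪ T ∪ {∞}`. -/
structure Sp (T : Type) [GTree T] (K : Type) [TopologicalSpace K] where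
  N : ℕ → K
  P : T → K
  o : K
  W : T → Set K
  clopen : ∀ t, IsClopen (W t)
  isoN : ∀ n, IsOpen ({N n} : Set K)
  N_inj : Function.Injective N
  cover : ∀ k, (∃ n, k = N n) ∨ (∃ t, k = P t) ∨ k = o
  P_mem : ∀ s t, P s ∈ W t ↔ s ≤ t
  o_mem : ∀ t, o ∉ W t
  N_ne_P : ∀ n t, N n ≠ P t
  N_ne_o : ∀ n, N n ≠ o
  dense : Dense (Set.range N)

/-- `p` is an equivalent norm on the normed space `E`, with constants `c`, `C`. -/
structure EN {E : Type*} [NormedAddCommGroup E] [NormedSpace ℝ E] (p : E → ℝ) (c C : ℝ) : Prop where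
  add : ∀ f g : E, p (f + g) ≤ p f + p g
  smul : ∀ (a : ℝ) (f : E), p (a • f) = |a| * p f
  cpos : 0 < c
  Cpos : 0 < C
  lower : ∀ f : E, c * ‖f‖ ≤ p f
  upper : ∀ f : E, p f ≤ C * ‖f‖

variable {T : Type} [GTree T] {K : Type} [TopologicalSpace K] [CompactSpace K]

/-- `x` vanishes at `∞` and its part on the tree is supported on `[root, w]`. -/
def Y (S : Sp T K) (w : T) (x : C(K, ℝ)) : Prop :=
  x S.o = 0 ∧ ∀ t, ¬ t ≤ w → x (S.P t) = 0

/-- rational step function on the nodes below a node -/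
noncomputable def stepQ (a : T →₀ ℚ) (t : T) : ℝ := by
  classical
  exact a.sum fun r q => if t ≤ r then (q : ℝ) else 0

/-- The transfer property of the chain `u`, its upper bound `v` and the top node `w`. -/
structure Good (S : Sp T K) (p : C(K, ℝ) → ℝ) (u : ℕ → T) (v w : T) : Prop where
  mono : StrictMono u
  lt_v : ∀ n, u n < v
  v_lt : v < w
  tr : ∀ (k : ℕ) (F : Finset ℕ) (ξ : C(K, ℝ)) (s : ℚ), Y S w ξ →
    (∀ n ∈ F, ∃ q : ℚ, ξ (S.N n) = q) →
    (∃ a : T →₀ ℚ, (∀ r ∈ a.support, r ≤ u k) ∧ ∀ t, t ≤ u k → ξ (S.P t) = stepQ a t) →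
    ((∀ t, v < t → t ≤ w → ξ (S.P t) = s) ∨ (∀ t, u (k + 1) < t → t ≤ v → ξ (S.P t) = s)) →
    ∀ (i : ℕ) (ε : ℝ), 0 < ε → ∃ (x : C(K, ℝ)) (w' : T), GTree.suc w i ≤ w' ∧ Y S w' x ∧
      (∀ n ∈ F, x (S.N n) = ξ (S.N n)) ∧ (∀ t, t ≤ u k → x (S.P t) = ξ (S.P t)) ∧
      (∀ t, u (k + 1) < t → t ≤ GTree.suc w i → x (S.P t) = s) ∧ p x ≤ p ξ + ε

/-- indicator function of a clopen set (zero if the set is not clopen) -/
noncomputable def ind (A : Set K) : C(K, ℝ) := by
  classical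
  exact if h : IsClopen A then ⟨A.indicator 1, (continuous_one).indicator (by
    intro x hx; rw [h.frontier_eq] at hx; exact absurd hx (Set.notMem_empty x))⟩ else 0

theorem ind_mem {A : Set K} (h : IsClopen A) {k : K} (hk : k ∈ A) : ind A k = 1 := by
  simp [ind, h, hk]

theorem ind_notMem {A : Set K} (h : IsClopen A) {k : K} (hk : k ∉ A) : ind A k = 0 := by
  simp [ind, h, hk]

/-- finite rational combination of a sequence of vectors -/
noncomputable def comb {E : Type*} [AddCommGroup E] [Module ℝ E] (f : ℕ → E) (a : ℕ →₀ ℚ) : E :=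
  a.sum fun n q => (q : ℝ) • f n

/-- `a` is a rational probability vector supported in `[i, ∞)` -/
def Pr (i : ℕ) (a : ℕ →₀ ℚ) : Prop :=
  (∀ n, 0 ≤ a n) ∧ (a.sum fun _ q => q) = 1 ∧ ∀ n ∈ a.support, i ≤ n

end Pool.Agent.Helper50.GS
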