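import Mathlib
set_option autoImplicit false
namespace Pool.Agent.Helper50.GS

/-- GS-B1. Partition of a set of natural numbers into countably many pieces
(all infinite if `R` is). -/
theorem exists_parts : ∃ part : Set ℕ → ℕ → Set ℕ, ∀ R : Set ℕ, R.Infinite →
    (∀ i, part R i ⊆ R) ∧ (∀ i, (part R i).Infinite) ∧
    (∀ i j, i ≠ j → Disjoint (part R i) (part R j)) := by
  refine ⟨fun R i => Set.range (fun j : ℕ => Nat.nth (· ∈ R) (Nat.pair i j)), ?_⟩
  intro R hR
  have hinj : Function.Injective (Nat.nth (· ∈ R)) := Nat.nth_injective hR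
  refine ⟨?_, ?_, ?_⟩
  · rintro i x ⟨j, rfl⟩
    exact Nat.nth_mem_of_infinite hR _
  · intro i
    apply Set.infinite_range_of_injective
    intro a b hab
    have h1 := hinj hab
    exact (Nat.pair_eq_pair.mp h1).2
  · intro i j hij
    rw [Set.disjoint_left]
    rintro x ⟨a, ha⟩ ⟨b, hb⟩
    apply hij
    have h1 : Nat.pair i a = Nat.pair j b := hinj (ha.trans hb.symm)
    exact (Nat.pair_eq_pair.mp h1).1

/-- GS-B1. Countable gaps can be filled, with room to spare. `J` is countable and linearly preordered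
by `r`; `B j` increases and `C j` decreases modulo finite sets, `B j ⊆* B i ∪ C i`. -/
theorem exists_fill {J : Type} [Countable J] (r : J → J → Prop) (hr : ∀ i j, r i j ∨ r j i)
    (htrans : ∀ i j k, r i j → r j k → r i k)
    (B C : J → Set ℕ) (hC : ∀ j, (C j).Infinite) (hBC : ∀ j, Disjoint (B j) (C j))
    (hB : ∀ i j, r i j → (B i \ B j).Finite) (hC' : ∀ i j, r i j → (C j \ C i).Finite)
    (hB' : ∀ i j, r i j → (B j \ (B i ∪ C i)).Finite) :
    ∃ B' R : Set ℕ, Disjoint B' R ∧ R.Infinite ∧ B'.Infinite ∧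
      (∀ j, (B j \ B').Finite) ∧ (∀ j, (B' \ B j).Infinite) ∧ (∀ j, (B' \ (B j ∪ C j)).Finite) ∧
      (∀ j, (R \ C j).Finite) := by
  rcases isEmpty_or_nonempty J with hJ | hJ
  · refine ⟨Set.range (fun n : ℕ => 2 * n), Set.range (fun n : ℕ => 2 * n + 1), ?_, ?_, ?_,
      fun j => (hJ.false j).elim, fun j => (hJ.false j).elim, fun j => (hJ.false j).elim,
      fun j => (hJ.false j).elim⟩
    · rw [Set.disjoint_left]
      rintro x ⟨a, ha⟩ ⟨b, hb⟩
      simp only at ha hb
      omega
    · apply Set.infinite_range_of_injective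
      intro a b hab
      simp only at hab
      omega
    · apply Set.infinite_range_of_injective
      intro a b hab
      simp only at hab
      omega
  · obtain ⟨e, he⟩ := exists_surjective_nat J
    -- tops
    have htop : ∀ n : ℕ, ∃ t : J, ∀ i ≤ n, r (e i) t := by
      intro n
      induction n with
      | zero =>
        refine ⟨e 0, ?_⟩
        intro i hi
        have : i = 0 := by omega
        subst this
        rcases hr (e 0) (e 0) with h | h <;> exact h
      | succ n ih =>
        obtain ⟨t, ht⟩ := ih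
        rcases hr t (e (n + 1)) with h | h
        · refine ⟨e (n + 1), ?_⟩
          intro i hi
          rcases Nat.lt_or_ge n i with h1 | h1
          · have : i = n + 1 := by omega
            subst this
            rcases hr (e (n + 1)) (e (n + 1)) with h | h <;> exact h
          · exact htrans _ _ _ (ht i h1) h
        · refine ⟨t, ?_⟩
          intro i hi
          rcases Nat.lt_or_ge n i with h1 | h1
          · have : i = n + 1 := by omega
            subst this
            exact h
          · exact ht i h1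
    -- the sets D n are infinite
    have hD : ∀ n : ℕ, {x : ℕ | ∀ i ≤ n, x ∈ C (e i) ∧ x ∉ B (e i)}.Infinite := by
      intro n
      obtain ⟨t, ht⟩ := htop n
      have hfin : (⋃ i ∈ Set.Iic n, ((C t \ C (e i)) ∪ (B (e i) \ B t))).Finite := by
        apply Set.Finite.biUnion (Set.finite_Iic n)
        intro i hi
        exact (hC' _ _ (ht i hi)).union (hB _ _ (ht i hi))
      have hinf := (hC t).sdiff hfin
      refine hinf.mono ?_
      rintro x ⟨hx1, hx2⟩ i hi
      have hxB : x ∉ B t := fun h => Set.disjoint_left.mp (hBC t) h hx1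
      constructor
      · by_contra hcon
        apply hx2
        rw [Set.mem_iUnion₂]
        exact ⟨i, hi, Or.inl ⟨hx1, hcon⟩⟩
      · intro hcon
        apply hx2
        rw [Set.mem_iUnion₂]
        exact ⟨i, hi, Or.inr ⟨hcon, hxB⟩⟩
    have hsel : ∀ n m : ℕ, ∃ x, x ∈ {x : ℕ | ∀ i ≤ n, x ∈ C (e i) ∧ x ∉ B (e i)} ∧ m < x := by
      intro n m
      obtain ⟨x, hx1, hx2⟩ := (hD n).exists_gt m
      exact ⟨x, hx1, hx2⟩
    choose f hf1 hf2 using hsel
    obtain ⟨u, hu0, hu1⟩ : ∃ u : ℕ → ℕ, u 0 = f 0 0 ∧ ∀ n, u (n + 1) = f (n + 1) (u n) :=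
      ⟨fun n => Nat.rec (f 0 0) (fun n x => f (n + 1) x) n, rfl, fun n => rfl⟩
    have humono : StrictMono u := by
      apply strictMono_nat_of_lt_succ
      intro n
      rw [hu1]
      exact hf2 _ _
    have huD : ∀ n, ∀ i ≤ n, u n ∈ C (e i) ∧ u n ∉ B (e i) := by
      intro n
      cases n with
      | zero => rw [hu0]; exact hf1 0 0
      | succ n => rw [hu1]; exact hf1 _ _
    have hUC : ∀ j, (Set.range u \ C j).Finite := by
      intro j
      obtain ⟨i, rfl⟩ := he j
      refine ((Set.finite_Iio i).image u).subset ?_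
      rintro x ⟨⟨n, rfl⟩, hx⟩
      refine ⟨n, ?_, rfl⟩
      by_contra hcon
      exact hx (huD n i (by simpa using hcon)).1
    have hUB : ∀ j, (Set.range u ∩ B j).Finite := by
      intro j
      obtain ⟨i, rfl⟩ := he j
      refine ((Set.finite_Iio i).image u).subset ?_
      rintro x ⟨⟨n, rfl⟩, hx⟩
      refine ⟨n, ?_, rfl⟩
      by_contra hcon
      exact (huD n i (by simpa using hcon)).2 hx
    -- thresholds
    have hk : ∀ n : ℕ, ∃ k : ℕ, ∀ x, k ≤ x → x ∈ B (e n) → ∀ i ≤ n, x ∈ B (e i) ∪ C (e i) := by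
      intro n
      have hfin : (⋃ i ∈ Set.Iic n, (B (e n) \ (B (e i) ∪ C (e i)))).Finite := by
        apply Set.Finite.biUnion (Set.finite_Iic n)
        intro i hi
        rcases hr (e i) (e n) with h | h
        · exact hB' _ _ h
        · refine (hB _ _ h).subset ?_
          rintro x ⟨hx1, hx2⟩
          exact ⟨hx1, fun h => hx2 (Or.inl h)⟩
      obtain ⟨k, hk⟩ := hfin.bddAbove
      refine ⟨k + 1, ?_⟩
      intro x hx hxB i hi
      by_contra hcon
      have : x ≤ k := hk (by
        rw [Set.mem_iUnion₂]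
        exact ⟨i, hi, hxB, hcon⟩)
      omega
    choose k hk using hk
    have hB0a : ∀ j, (B j \ {x | ∃ n, x ∈ B (e n) ∧ k n ≤ x}).Finite := by
      intro j
      obtain ⟨i, rfl⟩ := he j
      refine (Set.finite_Iio (k i)).subset ?_
      rintro x ⟨hx1, hx2⟩
      by_contra hcon
      exact hx2 ⟨i, hx1, by simpa using hcon⟩
    have hB0b : ∀ j, ({x | ∃ n, x ∈ B (e n) ∧ k n ≤ x} \ (B j ∪ C j)).Finite := by
      intro j
      obtain ⟨i, rfl⟩ := he j
      have hfin : (⋃ n ∈ Set.Iio i, (B (e n) \ (B (e i) ∪ C (e i)))).Finite := by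
        apply Set.Finite.biUnion (Set.finite_Iio i)
        intro n hn
        rcases hr (e i) (e n) with h | h
        · exact hB' _ _ h
        · refine (hB _ _ h).subset ?_
          rintro x ⟨hx1, hx2⟩
          exact ⟨hx1, fun h => hx2 (Or.inl h)⟩
      refine hfin.subset ?_
      rintro x ⟨⟨n, hx1, hx2⟩, hx3⟩
      rw [Set.mem_iUnion₂]
      refine ⟨n, ?_, hx1, hx3⟩
      by_contra hcon
      exact hx3 (hk n x hx2 hx1 i (by simpa using hcon))
    have hPsub : Set.range (fun n => u (2 * n)) ⊆ Set.range u := by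
      rintro x ⟨n, rfl⟩
      exact ⟨_, rfl⟩
    have hRsub : Set.range (fun n => u (2 * n + 1)) ⊆ Set.range u := by
      rintro x ⟨n, rfl⟩
      exact ⟨_, rfl⟩
    have hPinf : (Set.range (fun n => u (2 * n))).Infinite := by
      apply Set.infinite_range_of_injective
      intro a b hab
      have := humono.injective hab
      omega
    have hRinf : (Set.range (fun n => u (2 * n + 1))).Infinite := by
      apply Set.infinite_range_of_injective
      intro a b hab
      have := humono.injective hab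
      omega
    refine ⟨({x | ∃ n, x ∈ B (e n) ∧ k n ≤ x} \ Set.range (fun n => u (2 * n + 1))) ∪
      Set.range (fun n => u (2 * n)), Set.range (fun n => u (2 * n + 1)), ?_, hRinf, ?_, ?_, ?_, ?_, ?_⟩
    · rw [Set.disjoint_left]
      rintro x (⟨_, hx⟩ | ⟨a, ha⟩) ⟨b, hb⟩
      · exact hx ⟨b, hb⟩
      · have := humono.injective (ha.trans hb.symm)
        omega
    · exact hPinf.mono Set.subset_union_right
    · intro j
      refine ((hB0a j).union (hUB j)).subset ?_
      rintro x ⟨hx1, hx2⟩
      by_cases h1 : x ∈ Set.range (fun n => u (2 * n + 1))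
      · exact Or.inr ⟨hRsub h1, hx1⟩
      · refine Or.inl ⟨hx1, fun h => hx2 (Or.inl ⟨h, h1⟩)⟩
    · intro j
      refine (hPinf.sdiff (hUB j)).mono ?_
      rintro x ⟨hx1, hx2⟩
      exact ⟨Or.inr hx1, fun h => hx2 ⟨hPsub hx1, h⟩⟩
    · intro j
      refine ((hB0b j).union (hUC j)).subset ?_
      rintro x ⟨hx1 | hx1, hx2⟩
      · exact Or.inl ⟨hx1.1, hx2⟩
      · exact Or.inr ⟨hPsub hx1, fun h => hx2 (Or.inr h)⟩
    · intro j
      refine (hUC j).subset ?_
      rintro x ⟨hx1, hx2⟩
      exact ⟨hRsub hx1, hx2⟩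

end Pool.Agent.Helper50.GS
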