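import Pool.Agent.Helper50.GS.Defs
import Pool.Agent.Helper50.GS.Gap
set_option autoImplicit false
namespace Pool.Agent.Helper50.GS

/-- the properties required from the pair `x = (B_t, R_t)`, given the pairs `f s` for `s < t` -/
private def FamQ {T : Type} [GTree T] (part : Set ℕ → ℕ → Set ℕ) (t : T)
    (f : ∀ s : T, s < t → Set ℕ × Set ℕ) (x : Set ℕ × Set ℕ) : Prop :=
  Disjoint x.1 x.2 ∧ x.2.Infinite ∧ x.1.Infinite ∧ ∀ (s : T) (h : s < t),
    ((f s h).1 \ x.1).Finite ∧ (x.1 \ (f s h).1).Infinite ∧
    (x.1 \ ((f s h).1 ∪ part (f s h).2 (GTree.lab s t))).Finite ∧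
    (x.2 \ part (f s h).2 (GTree.lab s t)).Finite

open Classical in
/-- the recursively chosen pairs -/
private noncomputable def famSt {T : Type} [GTree T] (part : Set ℕ → ℕ → Set ℕ) :
    T → Set ℕ × Set ℕ :=
  (GTree.wf (T := T)).fix fun t f => if h : ∃ x, FamQ part t f x then h.choose else (∅, ∅)

open Classical in
private lemma famSt_spec {T : Type} [GTree T] (part : Set ℕ → ℕ → Set ℕ) (t : T)
    (h : ∃ x, FamQ part t (fun s _ => famSt part s) x) :
    FamQ part t (fun s _ => famSt part s) (famSt part t) := by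
  have h0 : famSt part t = if h : ∃ x, FamQ part t (fun s _ => famSt part s) x then h.choose
      else (∅, ∅) := (GTree.wf (T := T)).fix_eq _ t
  have h1 : famSt part t = h.choose := by
    rw [h0, dif_pos h]
  rw [h1]
  exact h.choose_spec

/-- GS-B2. The almost disjoint family along the tree, by well-founded recursion from
`exists_parts` and `exists_fill`. -/
theorem exists_fam (T : Type) [GTree T] : Nonempty (Fam T) := by
  obtain ⟨part, hpart⟩ := exists_parts
  have key : ∀ t : T, FamQ part t (fun s _ => famSt part s) (famSt part t) := by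
    intro t
    induction t using (GTree.wf (T := T)).induction with
    | _ t ih =>
    apply famSt_spec
    have : Countable {s : T // s < t} :=
      ((GTree.cble t).mono (fun s (hs : s < t) => (le_of_lt hs : s ≤ t))).to_subtype
    obtain ⟨B', R, h1, h2, h3, h4, h5, h6, h7⟩ := exists_fill (J := {s : T // s < t})
      (fun s s' => s.1 ≤ s'.1)
      (fun s s' => GTree.chain t s.1 s'.1 s.2.le s'.2.le)
      (fun a b c => le_trans)
      (fun s => (famSt part s.1).1) (fun s => part (famSt part s.1).2 (GTree.lab s.1 t))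
      (fun s => (hpart _ (ih s.1 s.2).2.1).2.1 _)
      (fun s => (ih s.1 s.2).1.mono_right ((hpart _ (ih s.1 s.2).2.1).1 _))
      (fun s s' hss => by
        rcases eq_or_lt_of_le hss with h | h
        · have : s = s' := Subtype.ext h
          subst this
          simp
        · exact ((ih s'.1 s'.2).2.2.2 s.1 h).1)
      (fun s s' hss => by
        rcases eq_or_lt_of_le hss with h | h
        · have : s = s' := Subtype.ext h
          subst this
          simp
        · have := ((ih s'.1 s'.2).2.2.2 s.1 h).2.2.2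
          rw [GTree.lab_coh s.1 s'.1 t h s'.2.le] at this
          exact this.subset (Set.sdiff_subset_sdiff_left ((hpart _ (ih s'.1 s'.2).2.1).1 _)))
      (fun s s' hss => by
        rcases eq_or_lt_of_le hss with h | h
        · have : s = s' := Subtype.ext h
          subst this
          have : (famSt part s.1).1 \ ((famSt part s.1).1 ∪
              part (famSt part s.1).2 (GTree.lab s.1 t)) = ∅ :=
            Set.sdiff_eq_empty.2 Set.subset_union_left
          rw [this]
          exact Set.finite_empty
        · have := ((ih s'.1 s'.2).2.2.2 s.1 h).2.2.1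
          rwa [GTree.lab_coh s.1 s'.1 t h s'.2.le] at this)
    exact ⟨(B', R), h1, h2, h3, fun s h => ⟨h4 ⟨s, h⟩, h5 ⟨s, h⟩, h6 ⟨s, h⟩, h7 ⟨s, h⟩⟩⟩
  refine ⟨⟨fun t => (famSt part t).1, fun s t hst => ?_, fun s t hst => ?_, fun t => (key t).2.2.1,
    fun s t h1 h2 => ?_⟩⟩
  · rcases eq_or_lt_of_le hst with h | h
    · subst h
      simp
    · exact ((key t).2.2.2 s h).1
  · exact ((key t).2.2.2 s hst).2.1
  · have hs : s ⊓ t < s := lt_of_le_of_ne inf_le_left fun h => h1 (inf_eq_left.1 h)
    have ht : s ⊓ t < t := lt_of_le_of_ne inf_le_right fun h => h2 (inf_eq_right.1 h)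
    refine (((key s).2.2.2 _ hs).2.2.1.union ((key t).2.2.2 _ ht).2.2.1).subset ?_
    rintro x ⟨⟨hxs, hxt⟩, hxr⟩
    by_contra hx
    simp only [Set.mem_union, Set.mem_sdiff, not_or, not_and, not_not] at hx
    have hx1 := hx.1 hxs
    have hx2 := hx.2 hxt
    exact Set.disjoint_left.1 ((hpart _ (key (s ⊓ t)).2.1).2.2 _ _ (GTree.lab_sep s t h1 h2))
      (hx1 hxr) (hx2 hxr)

end Pool.Agent.Helper50.GS
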