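import Pool.Agent.Helper50.GS.FinalA
set_option autoImplicit false
namespace Pool.Agent.Helper50.GS

variable {T : Type} [GTree T] {K : Type} [TopologicalSpace K] [CompactSpace K] [T2Space K]

open Finset

/-- the sets `U n` -/
def Us (S : Sp T K) (u : ℕ → T) (w : T) (n : ℕ) : Set K :=
  (S.W w \ S.W (u n)) \ (S.N '' {m | m < n})

theorem clopen_Us (S : Sp T K) (u : ℕ → T) (w : T) (n : ℕ) : IsClopen (Us S u w n) :=
  ((S.clopen w).diff (S.clopen (u n))).diff (clopen_fin S _ (Set.finite_lt_nat n))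

theorem Us_P (S : Sp T K) (u : ℕ → T) (w : T) (n : ℕ) (t : T) :
    S.P t ∈ Us S u w n ↔ t ≤ w ∧ ¬ t ≤ u n := by
  unfold Us
  simp only [Set.mem_diff, S.P_mem, Set.mem_image, Set.mem_setOf_eq, not_exists, not_and]
  constructor
  · rintro ⟨h, _⟩; exact h
  · intro h
    exact ⟨h, fun m _ hm => S.N_ne_P m t hm⟩

theorem Us_o (S : Sp T K) (u : ℕ → T) (w : T) (n : ℕ) : S.o ∉ Us S u w n :=
  fun h => S.o_mem w h.1.1

theorem Us_N (S : Sp T K) (u : ℕ → T) (w : T) (n m : ℕ) (h : m < n) : S.N m ∉ Us S u w n :=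
  fun h' => h'.2 ⟨m, h, rfl⟩

/-- the functions `f n` -/
noncomputable def ff (S : Sp T K) (u : ℕ → T) (w : T) (n : ℕ) : C(K, ℝ) := ind (Us S u w n)

theorem ff_P_one (S : Sp T K) (u : ℕ → T) (w : T) (n : ℕ) (t : T) (h1 : t ≤ w)
    (h2 : ¬ t ≤ u n) : ff S u w n (S.P t) = 1 :=
  ind_mem (clopen_Us S u w n) ((Us_P S u w n t).2 ⟨h1, h2⟩)

theorem ff_P_zero (S : Sp T K) (u : ℕ → T) (w : T) (n : ℕ) (t : T) (h : ¬ t ≤ w ∨ t ≤ u n) :
    ff S u w n (S.P t) = 0 :=
  ind_notMem (clopen_Us S u w n) (fun h' => by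
    have := (Us_P S u w n t).1 h'
    tauto)

theorem ff_o (S : Sp T K) (u : ℕ → T) (w : T) (n : ℕ) : ff S u w n S.o = 0 :=
  ind_notMem (clopen_Us S u w n) (Us_o S u w n)

theorem ff_N (S : Sp T K) (u : ℕ → T) (w : T) (n m : ℕ) (h : m < n) :
    ff S u w n (S.N m) = 0 :=
  ind_notMem (clopen_Us S u w n) (Us_N S u w n m h)

theorem ff_rat (S : Sp T K) (u : ℕ → T) (w : T) (n : ℕ) (k : K) :
    ∃ q : ℚ, ff S u w n k = q := by
  by_cases h : k ∈ Us S u w n
  · exact ⟨1, by rw [ff, ind_mem (clopen_Us S u w n) h]; simp⟩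
  · exact ⟨0, by rw [ff, ind_notMem (clopen_Us S u w n) h]; simp⟩

theorem comb_rat (S : Sp T K) (u : ℕ → T) (w : T) (γ : ℕ →₀ ℚ) (k : K) :
    ∃ q : ℚ, comb (ff S u w) γ k = q := by
  choose q hq using ff_rat S u w
  refine ⟨γ.sum fun n r => r * q n k, ?_⟩
  rw [comb_apply]
  unfold Finsupp.sum
  push_cast
  exact Finset.sum_congr rfl fun n _ => by rw [hq]

theorem comb_o (S : Sp T K) (u : ℕ → T) (w : T) (γ : ℕ →₀ ℚ) :
    comb (ff S u w) γ S.o = 0 := by
  rw [comb_apply]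
  exact Finset.sum_eq_zero fun n _ => by beta_reduce; rw [ff_o, mul_zero]

theorem comb_Y (S : Sp T K) (u : ℕ → T) (w : T) (γ : ℕ →₀ ℚ) : Y S w (comb (ff S u w) γ) := by
  refine ⟨comb_o S u w γ, fun t ht => ?_⟩
  rw [comb_apply]
  exact Finset.sum_eq_zero fun n _ => by beta_reduce; rw [ff_P_zero S u w n t (Or.inl ht), mul_zero]

theorem comb_one (S : Sp T K) (u : ℕ → T) (hu : StrictMono u) (w : T) (γ : ℕ →₀ ℚ) (k : ℕ)
    (hγ : ∀ n ∈ γ.support, n ≤ k + 1) (t : T) (h1 : u (k + 1) < t) (h2 : t ≤ w) :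
    comb (ff S u w) γ (S.P t) = ((γ.sum fun _ q => q : ℚ) : ℝ) := by
  rw [comb_apply]
  unfold Finsupp.sum
  push_cast
  refine Finset.sum_congr rfl fun n hn => ?_
  rw [ff_P_one S u w n t h2, mul_one]
  intro h3
  exact absurd (h1.trans_le (h3.trans (hu.monotone (hγ n hn)))) (lt_irrefl _)

theorem stepQ_add (a b : T →₀ ℚ) (t : T) : stepQ (a + b) t = stepQ a t + stepQ b t := by
  classical
  unfold stepQ
  rw [Finsupp.sum_add_index']
  · intro r; simp
  · intro r q q'; by_cases h : t ≤ r <;> simp [h]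

theorem stepQ_zero (t : T) : stepQ (0 : T →₀ ℚ) t = 0 := by
  unfold stepQ; simp

theorem stepQ_single (r : T) (q : ℚ) (t : T) [Decidable (t ≤ r)] :
    stepQ (Finsupp.single r q) t = if t ≤ r then (q : ℝ) else 0 := by
  classical
  unfold stepQ
  rw [Finsupp.sum_single_index]
  · by_cases h : t ≤ r <;> simp [h]
  · simp

theorem stepQ_sum {ι : Type*} (s : Finset ι) (g : ι → T →₀ ℚ) (t : T) :
    stepQ (∑ i ∈ s, g i) t = ∑ i ∈ s, stepQ (g i) t := by
  classical
  induction s using Finset.induction_on with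
  | empty => simp [stepQ_zero]
  | insert i s hi ih => rw [Finset.sum_insert hi, Finset.sum_insert hi, stepQ_add, ih]

theorem comb_step (S : Sp T K) (u : ℕ → T) (hu : StrictMono u) (w : T) (hw : ∀ n, u n ≤ w)
    (γ : ℕ →₀ ℚ) (k : ℕ) :
    ∃ a : T →₀ ℚ, (∀ r ∈ a.support, r ≤ u k) ∧
      ∀ t, t ≤ u k → comb (ff S u w) γ (S.P t) = stepQ a t := by
  classical
  refine ⟨∑ n ∈ γ.support, if n < k then Finsupp.single (u k) (γ n) - Finsupp.single (u n) (γ n)
    else 0, ?_, ?_⟩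
  · intro r hr
    have := Finsupp.support_finsetSum hr
    rw [Finset.mem_biUnion] at this
    obtain ⟨n, _, hn⟩ := this
    by_cases h : n < k
    · rw [if_pos h] at hn
      have h2 := Finsupp.support_sub hn
      rw [Finset.mem_union] at h2
      rcases h2 with h2 | h2
      · have := Finsupp.support_single_subset h2
        rw [Finset.mem_singleton] at this
        exact this.le
      · have := Finsupp.support_single_subset h2
        rw [Finset.mem_singleton] at this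
        exact this.le.trans (hu.monotone h.le)
    · rw [if_neg h] at hn; simp at hn
  · intro t ht
    rw [comb_apply, stepQ_sum]
    unfold Finsupp.sum
    refine Finset.sum_congr rfl fun n _ => ?_
    beta_reduce
    by_cases h : n < k
    · rw [if_pos h, sub_eq_add_neg, ← Finsupp.single_neg, stepQ_add, stepQ_single, stepQ_single,
        if_pos ht]
      by_cases h2 : t ≤ u n
      · rw [ff_P_zero S u w n t (Or.inr h2), if_pos h2]; push_cast; ring
      · rw [ff_P_one S u w n t (ht.trans (hw k)) h2, if_neg h2]; ring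
    · rw [if_neg h, stepQ_zero,
        ff_P_zero S u w n t (Or.inr (ht.trans (hu.monotone (not_lt.1 h)))), mul_zero]

end Pool.Agent.Helper50.GS
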