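import Pool.Agent.Helper50.GS.Defs
set_option autoImplicit false
open Finset
namespace Pool.Agent.Helper50.GS

section James

variable {E : Type*} [NormedAddCommGroup E] [NormedSpace ℝ E]

theorem james_comb_add (f : ℕ → E) (a b : ℕ →₀ ℚ) : comb f (a + b) = comb f a + comb f b := by
  unfold comb
  exact Finsupp.sum_add_index' (fun n => by simp) (fun n p q => by push_cast; rw [add_smul])

theorem james_comb_smul (f : ℕ → E) (q : ℚ) (a : ℕ →₀ ℚ) :
    comb f (q • a) = (q : ℝ) • comb f a := by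
  unfold comb
  rw [Finsupp.sum_smul_index (fun n => by simp)]
  rw [Finsupp.smul_sum]
  apply Finsupp.sum_congr
  intro n _
  push_cast
  rw [smul_smul]

theorem james_sum_cast {i : ℕ} {a : ℕ →₀ ℚ} (ha : Pr i a) :
    (∑ n ∈ a.support, (a n : ℝ)) = 1 := by
  have h := ha.2.1
  unfold Finsupp.sum at h
  exact_mod_cast h

theorem james_pr_mono {i j : ℕ} (hij : i ≤ j) {a : ℕ →₀ ℚ} (ha : Pr j a) : Pr i a :=
  ⟨ha.1, ha.2.1, fun n hn => hij.trans (ha.2.2 n hn)⟩

theorem james_pr_half {i : ℕ} {a b : ℕ →₀ ℚ} (ha : Pr i a) (hb : Pr i b) :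
    Pr i ((1 / 2 : ℚ) • (a + b)) := by
  refine ⟨fun n => ?_, ?_, fun n hn => ?_⟩
  · have h1 := ha.1 n
    have h2 := hb.1 n
    simp only [Finsupp.smul_apply, Finsupp.add_apply, smul_eq_mul]
    positivity
  · rw [Finsupp.sum_smul_index (fun n => rfl), ← Finsupp.mul_sum,
      Finsupp.sum_add_index' (fun n => rfl) (fun n p q => rfl), ha.2.1, hb.2.1]
    norm_num
  · have h1 : n ∈ (a + b).support := Finsupp.support_smul hn
    have h2 := Finsupp.support_add h1
    rcases Finset.mem_union.1 h2 with h3 | h3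
    · exact ha.2.2 n h3
    · exact hb.2.2 n h3

theorem james_pr_single (i : ℕ) : Pr i (Finsupp.single i 1) := by
  refine ⟨fun n => ?_, ?_, fun n hn => ?_⟩
  · by_cases h : i = n
    · subst h; simp
    · simp [h]
  · simp [Finsupp.sum_single_index]
  · have h1 := Finsupp.support_single_subset hn
    simp only [Finset.mem_singleton] at h1
    omega

theorem james_norm_comb {f : ℕ → E} {R : ℝ} (hR : ∀ n, ‖f n‖ ≤ R) {i : ℕ} {a : ℕ →₀ ℚ}
    (ha : Pr i a) : ‖comb f a‖ ≤ R := by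
  unfold comb Finsupp.sum
  calc ‖∑ n ∈ a.support, (a n : ℝ) • f n‖ ≤ ∑ n ∈ a.support, ‖(a n : ℝ) • f n‖ := norm_sum_le _ _
    _ ≤ ∑ n ∈ a.support, (a n : ℝ) * R := by
        apply Finset.sum_le_sum
        intro n _
        have h0 : (0 : ℝ) ≤ (a n : ℝ) := by exact_mod_cast ha.1 n
        rw [norm_smul, Real.norm_of_nonneg h0]
        exact mul_le_mul_of_nonneg_left (hR n) h0
    _ = R := by rw [← Finset.sum_mul, james_sum_cast ha, one_mul]

theorem james_D_comb {f : ℕ → E} {D : E →ₗ[ℝ] ℝ} {s : ℝ} {i : ℕ}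
    (hD : ∀ n, i ≤ n → D (f n) ≤ s) {a : ℕ →₀ ℚ} (ha : Pr i a) : D (comb f a) ≤ s := by
  unfold comb Finsupp.sum
  rw [map_sum]
  calc ∑ n ∈ a.support, D ((a n : ℝ) • f n) ≤ ∑ n ∈ a.support, (a n : ℝ) * s := by
        apply Finset.sum_le_sum
        intro n hn
        have h0 : (0 : ℝ) ≤ (a n : ℝ) := by exact_mod_cast ha.1 n
        rw [map_smul, smul_eq_mul]
        exact mul_le_mul_of_nonneg_left (hD n (ha.2.2 n hn)) h0
    _ = s := by rw [← Finset.sum_mul, james_sum_cast ha, one_mul]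

theorem james_p_zero {p : E → ℝ} {c C : ℝ} (hp : EN p c C) : p 0 = 0 := by
  have := hp.smul 0 0
  simpa using this

theorem james_p_nonneg {p : E → ℝ} {c C : ℝ} (hp : EN p c C) (z : E) : 0 ≤ p z :=
  (mul_nonneg hp.cpos.le (norm_nonneg z)).trans (hp.lower z)

/-- the set of values -/
def jamesSet (p : E → ℝ) (f : ℕ → E) (I : ℕ) (y : E) : Set ℝ :=
  {t | ∃ a, Pr I a ∧ t = p (y + (1 / 2 : ℝ) ^ I • comb f a)}

theorem jamesSet_bdd {p : E → ℝ} {c C : ℝ} (hp : EN p c C) (f : ℕ → E) (I : ℕ) (y : E) :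
    BddBelow (jamesSet p f I y) := by
  refine ⟨0, ?_⟩
  rintro t ⟨a, _, rfl⟩
  exact james_p_nonneg hp _

theorem jamesSet_nonempty (p : E → ℝ) (f : ℕ → E) (I : ℕ) (y : E) :
    (jamesSet p f I y).Nonempty := ⟨_, _, james_pr_single I, rfl⟩

theorem james_exists_pick (p : E → ℝ) (f : ℕ → E) (I : ℕ) (y : E) (δ : ℝ) (hδ : 0 < δ) :
    ∃ a, Pr I a ∧ p (y + (1 / 2 : ℝ) ^ I • comb f a) ≤ sInf (jamesSet p f I y) + δ := by
  obtain ⟨t, ⟨a, ha, rfl⟩, ht⟩ :=
    exists_lt_of_csInf_lt (jamesSet_nonempty p f I y)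
      (show sInf (jamesSet p f I y) < sInf (jamesSet p f I y) + δ by linarith)
  exact ⟨a, ha, ht.le⟩

/-- GS-F. The James / Simons lemma. -/
theorem james [CompleteSpace E]
    {p : E → ℝ} {c C : ℝ} (hp : EN p c C) (f : ℕ → E) (R : ℝ) (hR : ∀ n, ‖f n‖ ≤ R)
    (κ : ℝ) (hκ : 0 < κ) (h : ∀ a, Pr 0 a → κ ≤ p (comb f a)) :
    ∃ (g : ℕ → ℕ →₀ ℚ) (x : E), (∀ i, Pr i (g i)) ∧ κ ≤ p x ∧
      (∀ I : ℕ, ‖x - ∑ i ∈ range I, (1 / 2 : ℝ) ^ (i + 1) • comb f (g i)‖ ≤ R * (1 / 2) ^ I) ∧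
      ∀ D : E →ₗ[ℝ] ℝ, (∀ z, D z ≤ p z) → D x = p x → ∀ n, ∃ m, n ≤ m ∧ κ / 2 < D (f m) := by
  have hδ : ∀ I : ℕ, 0 < κ / 16 * (1 / 4 : ℝ) ^ I := fun I => by positivity
  choose pick hpick1 hpick2 using
    fun (I : ℕ) (y : E) => james_exists_pick p f I y (κ / 16 * (1 / 4 : ℝ) ^ I) (hδ I)
  let y : ℕ → E := fun n => Nat.rec (motive := fun _ => E) 0
    (fun I z => z + (1 / 2 : ℝ) ^ (I + 1) • comb f (pick I z)) n
  have y0 : y 0 = 0 := rfl
  have yS : ∀ I, y (I + 1) = y I + (1 / 2 : ℝ) ^ (I + 1) • comb f (pick I (y I)) := fun I => rfl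
  let g : ℕ → ℕ →₀ ℚ := fun I => pick I (y I)
  have hg : ∀ I, Pr I (g I) := fun I => hpick1 I (y I)
  have ysum : ∀ I, y I = ∑ i ∈ range I, (1 / 2 : ℝ) ^ (i + 1) • comb f (g i) := by
    intro I
    induction I with
    | zero => simp [y0]
    | succ I ih => rw [Finset.sum_range_succ, ← ih, yS]
  let α : ℕ → ℝ := fun I => sInf (jamesSet p f I (y I))
  have hα2 : ∀ I, p (y I + (1 / 2 : ℝ) ^ I • comb f (g I)) ≤ α I + κ / 16 * (1 / 4 : ℝ) ^ I :=
    fun I => hpick2 I (y I)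
  have hα1 : ∀ I a, Pr I a → α I ≤ p (y I + (1 / 2 : ℝ) ^ I • comb f a) :=
    fun I a ha => csInf_le (jamesSet_bdd hp f I (y I)) ⟨a, ha, rfl⟩
  have hα0 : κ ≤ α 0 := by
    apply le_csInf (jamesSet_nonempty p f 0 (y 0))
    rintro t ⟨a, ha, rfl⟩
    have := h a ha
    simpa [y0] using this
  have hαmono1 : ∀ I, α I ≤ α (I + 1) := by
    intro I
    apply le_csInf (jamesSet_nonempty p f (I + 1) (y (I + 1)))
    rintro t ⟨a, ha, rfl⟩
    have h1 := hα1 I _ (james_pr_half (hg I) (james_pr_mono (Nat.le_succ I) ha))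
    refine h1.trans (le_of_eq ?_)
    congr 1
    rw [yS, james_comb_smul, james_comb_add, smul_smul, add_assoc, ← smul_add]
    congr 2
    push_cast
    rw [pow_succ]
  have hαmono : Monotone α := monotone_nat_of_le_succ hαmono1
  -- the limit
  have hR0 : 0 ≤ R := (norm_nonneg _).trans (hR 0)
  have hstep : ∀ n, dist (y n) (y (n + 1)) ≤ R / 2 / 2 ^ n := by
    intro n
    rw [dist_eq_norm, yS]
    have : y n - (y n + (1 / 2 : ℝ) ^ (n + 1) • comb f (pick n (y n))) =
        -((1 / 2 : ℝ) ^ (n + 1) • comb f (g n)) := by simp [g]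
    rw [this, norm_neg, norm_smul, Real.norm_of_nonneg (by positivity)]
    calc (1 / 2 : ℝ) ^ (n + 1) * ‖comb f (g n)‖ ≤ (1 / 2 : ℝ) ^ (n + 1) * R := by
          apply mul_le_mul_of_nonneg_left (james_norm_comb hR (hg n)) (by positivity)
      _ = R / 2 / 2 ^ n := by
          rw [pow_succ, one_div, inv_pow]; ring
  have hcau : CauchySeq y := cauchySeq_of_le_geometric_two (C := R) hstep
  obtain ⟨x, hx⟩ := cauchySeq_tendsto_of_complete hcau
  have hdist : ∀ n, ‖x - y n‖ ≤ R * (1 / 2) ^ n := by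
    intro n
    have := dist_le_of_le_geometric_two_of_tendsto (C := R) hstep hx n
    rw [dist_comm, dist_eq_norm] at this
    refine this.trans (le_of_eq ?_)
    rw [one_div, inv_pow]; ring
  -- continuity of p
  have hpc : ∀ u v : E, p u ≤ p v + C * ‖u - v‖ := by
    intro u v
    have h1 := hp.add v (u - v)
    have h2 := hp.upper (u - v)
    rw [add_sub_cancel] at h1
    linarith
  have hαx : ∀ I, α I ≤ p x := by
    intro I
    have hb : ∀ J, I ≤ J → α I ≤ p x + 2 * C * R * (1 / 2) ^ J := by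
      intro J hJ
      have h1 := hαmono hJ
      have h2 := hα1 J (g J) (hg J)
      have h3 := hpc (y J + (1 / 2 : ℝ) ^ J • comb f (g J)) x
      have h4 : ‖y J + (1 / 2 : ℝ) ^ J • comb f (g J) - x‖ ≤ 2 * R * (1 / 2) ^ J := by
        have e : y J + (1 / 2 : ℝ) ^ J • comb f (g J) - x =
          (1 / 2 : ℝ) ^ J • comb f (g J) - (x - y J) := by abel
        rw [e]
        refine (norm_sub_le _ _).trans ?_
        rw [norm_smul, Real.norm_of_nonneg (by positivity)]
        have h5 := mul_le_mul_of_nonneg_left (james_norm_comb hR (hg J))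
          (show (0 : ℝ) ≤ (1 / 2) ^ J by positivity)
        have h6 := hdist J
        nlinarith
      have h7 := mul_le_mul_of_nonneg_left h4 hp.Cpos.le
      linarith
    have hl : Filter.Tendsto (fun J : ℕ => p x + 2 * C * R * (1 / 2 : ℝ) ^ J) Filter.atTop
        (nhds (p x + 2 * C * R * 0)) :=
      ((tendsto_pow_atTop_nhds_zero_of_lt_one (by norm_num) (by norm_num)).const_mul _).const_add _
    have := ge_of_tendsto hl (Filter.eventually_atTop.2 ⟨I, fun J hJ => hb J hJ⟩)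
    simpa using this
  have hκx : κ ≤ p x := hα0.trans (hαx 0)
  refine ⟨g, x, hg, hκx, fun I => ?_, ?_⟩
  · rw [← ysum]; exact hdist I
  intro D hD hDx n
  by_contra hcon
  push Not at hcon
  -- lower bound
  have hlow : ∀ I, p x - κ / 8 + κ / 8 * (1 / 2) ^ I ≤ 2 ^ I * (p x - p (y I)) := by
    intro I
    induction I with
    | zero =>
      rw [y0, james_p_zero hp]; simp
    | succ I ih =>
      have e : y (I + 1) = (1 / 2 : ℝ) • (y I + (1 / 2 : ℝ) ^ I • comb f (g I)) +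
          (1 / 2 : ℝ) • y I := by
        rw [yS]
        simp only [g]
        rw [smul_add, smul_smul, pow_succ, mul_comm ((1 / 2 : ℝ) ^ I) (1 / 2)]
        have : y I = (1 / 2 : ℝ) • y I + (1 / 2 : ℝ) • y I := by
          rw [← add_smul]; norm_num
        nth_rw 1 [this]
        abel
      have h1 : p (y (I + 1)) ≤ 1 / 2 * (p x + κ / 16 * (1 / 4 : ℝ) ^ I) + 1 / 2 * p (y I) := by
        rw [e]
        refine (hp.add _ _).trans ?_
        rw [hp.smul, hp.smul, abs_of_pos (by norm_num : (0 : ℝ) < 1 / 2)]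
        have := hα2 I
        have := hαx I
        linarith
      have h2 : (2 : ℝ) ^ (I + 1) * (p x - p (y (I + 1))) ≥
          2 ^ I * (p x - p (y I)) - κ / 16 * (1 / 2) ^ I := by
        have h3 : (2 : ℝ) ^ (I + 1) * (p x - p (y (I + 1))) ≥
          2 ^ (I + 1) * (p x - (1 / 2 * (p x + κ / 16 * (1 / 4 : ℝ) ^ I) + 1 / 2 * p (y I))) := by
          apply mul_le_mul_of_nonneg_left _ (by positivity)
          linarith
        refine ge_trans h3 (ge_of_eq ?_)
        have h4 : (2 : ℝ) ^ I * (1 / 4) ^ I = (1 / 2) ^ I := by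
          rw [← mul_pow]; norm_num
        rw [pow_succ]
        linear_combination (-κ / 16) * h4
      have h5 : (1 / 2 : ℝ) ^ (I + 1) = (1 / 2) ^ I * (1 / 2) := pow_succ _ _
      rw [h5]
      linarith
  have hDabs : ∀ z, D z ≤ C * ‖z‖ := fun z => (hD z).trans (hp.upper z)
  -- upper bound
  have hDy : ∀ J, D (y (n + J) - y n) ≤ κ / 2 * ((1 / 2) ^ n - (1 / 2) ^ (n + J)) := by
    intro J
    induction J with
    | zero => simp
    | succ J ih =>
      have e : y (n + (J + 1)) - y n = (y (n + J) - y n) +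
          (1 / 2 : ℝ) ^ (n + J + 1) • comb f (g (n + J)) := by
        rw [← add_assoc, yS]
        simp only [g]
        abel
      rw [e, map_add, map_smul, smul_eq_mul]
      have h1 : D (comb f (g (n + J))) ≤ κ / 2 :=
        james_D_comb (i := n + J) (fun m hm => hcon m (by omega)) (hg (n + J))
      have h2 := mul_le_mul_of_nonneg_left h1 (show (0 : ℝ) ≤ (1 / 2) ^ (n + J + 1) by positivity)
      have h3 : (1 / 2 : ℝ) ^ (n + (J + 1)) = (1 / 2) ^ (n + J) * (1 / 2) := by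
        rw [← add_assoc, pow_succ]
      have h4 : (1 / 2 : ℝ) ^ (n + J + 1) = (1 / 2) ^ (n + J) * (1 / 2) := pow_succ _ _
      rw [h3]
      rw [h4] at h2 ⊢
      linarith
  have hup : D (x - y n) ≤ κ / 2 * (1 / 2) ^ n := by
    have hb : ∀ J : ℕ, D (x - y n) ≤ κ / 2 * (1 / 2) ^ n + C * R * (1 / 2) ^ J := by
      intro J
      have e : x - y n = (x - y (n + J)) + (y (n + J) - y n) := by abel
      rw [e, map_add]
      have h1 := hDabs (x - y (n + J))
      have h2 := hdist (n + J)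
      have h3 := hDy J
      have h4 : (1 / 2 : ℝ) ^ (n + J) ≤ (1 / 2) ^ J := by
        apply pow_le_pow_of_le_one (by norm_num) (by norm_num); omega
      have h5 : C * ‖x - y (n + J)‖ ≤ C * (R * (1 / 2) ^ J) := by
        apply mul_le_mul_of_nonneg_left _ hp.Cpos.le
        exact h2.trans (mul_le_mul_of_nonneg_left h4 hR0)
      have h6 : 0 ≤ κ / 2 * (1 / 2) ^ (n + J) := by positivity
      nlinarith
    have hl : Filter.Tendsto (fun J : ℕ => κ / 2 * (1 / 2) ^ n + C * R * (1 / 2 : ℝ) ^ J)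
        Filter.atTop (nhds (κ / 2 * (1 / 2) ^ n + C * R * 0)) :=
      ((tendsto_pow_atTop_nhds_zero_of_lt_one (by norm_num) (by norm_num)).const_mul _).const_add _
    have := ge_of_tendsto hl (Filter.Eventually.of_forall hb)
    simpa using this
  have h1 : D (x - y n) = p x - D (y n) := by rw [map_sub, hDx]
  have h2 := hD (y n)
  have h3 := hlow n
  have h4 : (2 : ℝ) ^ n * (1 / 2) ^ n = 1 := by rw [← mul_pow]; norm_num
  have h5 : (2 : ℝ) ^ n * (p x - p (y n)) ≤ κ / 2 := by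
    have h6 : p x - p (y n) ≤ κ / 2 * (1 / 2) ^ n := by linarith
    have h7 := mul_le_mul_of_nonneg_left h6 (show (0 : ℝ) ≤ 2 ^ n by positivity)
    calc (2 : ℝ) ^ n * (p x - p (y n)) ≤ 2 ^ n * (κ / 2 * (1 / 2) ^ n) := h7
      _ = κ / 2 * (2 ^ n * (1 / 2) ^ n) := by ring
      _ = κ / 2 := by rw [h4, mul_one]
  have h8 : 0 ≤ κ / 8 * (1 / 2 : ℝ) ^ n := by positivity
  linarith

end James

end Pool.Agent.Helper50.GS
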