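import Pool.Agent.Helper50.GS.Defs
set_option autoImplicit false
namespace Pool.Agent.Helper50.GS

/-- GS-F2. Hahn-Banach for `p`. -/
theorem exists_norming {E : Type*} [NormedAddCommGroup E] [NormedSpace ℝ E]
    {p : E → ℝ} {c C : ℝ} (hp : EN p c C) (x : E) :
    ∃ D : E →ₗ[ℝ] ℝ, (∀ z, D z ≤ p z) ∧ D x = p x := by
  have hp0 : ∀ z, 0 ≤ p z := fun z =>
    (mul_nonneg hp.cpos.le (norm_nonneg z)).trans (hp.lower z)
  by_cases hx : x = 0
  · refine ⟨0, fun z => by simpa using hp0 z, ?_⟩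
    have h := hp.smul 0 x
    simp only [zero_smul, abs_zero, zero_mul] at h
    subst hx
    simpa using h.symm
  obtain ⟨g, hg, hgp⟩ := exists_extension_of_le_sublinear
    (LinearPMap.mkSpanSingleton (σ := RingHom.id ℝ) x (p x) hx) p
    (fun a ha z => by rw [hp.smul, abs_of_pos ha]) hp.add (by
      rintro ⟨z, hz⟩
      obtain ⟨a, rfl⟩ := Submodule.mem_span_singleton.1 hz
      have h := LinearPMap.mkSpanSingleton'_apply (σ := RingHom.id ℝ) x (p x)
        (fun c hc => (smul_eq_zero.1 hc).elim (fun h => by simp [h]) fun h => absurd h hx) a hz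
      refine le_of_eq_of_le h ?_
      change a * p x ≤ p (a • x)
      rw [hp.smul]
      exact mul_le_mul_of_nonneg_right (le_abs_self a) (hp0 x))
  refine ⟨g, hgp, ?_⟩
  have hxm : x ∈ (LinearPMap.mkSpanSingleton (σ := RingHom.id ℝ) x (p x) hx).domain :=
    Submodule.mem_span_singleton_self x
  have h1 := hg ⟨x, hxm⟩
  have h2 := LinearPMap.mkSpanSingleton_apply ℝ ℝ (σ := RingHom.id ℝ) hx (p x)
  exact h1.trans h2

end Pool.Agent.Helper50.GS
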