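import Pool.Agent.Helper50.GS.Defs
set_option autoImplicit false
namespace Pool.Agent.Helper50.GS

variable {T : Type} [GTree T] {K : Type} [TopologicalSpace K] [CompactSpace K]

theorem Small_ind_zero_of_notMem {A : Set K} {k : K} (hk : k ∉ A) : ind A k = 0 := by
  by_cases h : IsClopen A
  · exact ind_notMem h hk
  · simp [ind, h]

theorem Small_abs_ind_le (A : Set K) (k : K) : |ind A k| ≤ 1 := by
  by_cases h : IsClopen A
  · by_cases hk : k ∈ A
    · rw [ind_mem h hk]; simp
    · rw [ind_notMem h hk]; simp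
  · simp [ind, h]

theorem Small_C_nonneg (S : Sp T K) (D : C(K, ℝ) →ₗ[ℝ] ℝ) (C : ℝ)
    (hD : ∀ z, |D z| ≤ C * ‖z‖) : 0 ≤ C := by
  by_contra hC
  push Not at hC
  have h1 := hD 1
  have h2 : (0 : ℝ) < ‖(1 : C(K, ℝ))‖ := by
    have : |(1 : C(K, ℝ)) S.o| ≤ ‖(1 : C(K, ℝ))‖ := by
      have := (1 : C(K, ℝ)).norm_coe_le_norm S.o
      simpa [Real.norm_eq_abs] using this
    have h3 : |(1 : C(K, ℝ)) S.o| = 1 := by simp
    linarith
  have h3 : 0 ≤ |D 1| := abs_nonneg _
  nlinarith

/-- finite combinations of indicators of isolated points -/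
theorem Small_norm_comb_le (S : Sp T K) (G : Finset ℕ) (c : ℕ → ℝ) (M : ℝ) (hM : 0 ≤ M)
    (hc : ∀ n ∈ G, |c n| ≤ M) : ‖∑ n ∈ G, c n • (ind {S.N n} : C(K, ℝ))‖ ≤ M := by
  classical
  rw [ContinuousMap.norm_le _ hM]
  intro k
  rw [Real.norm_eq_abs, ContinuousMap.sum_apply]
  by_cases hk : ∃ m ∈ G, k = S.N m
  · obtain ⟨m, hm, rfl⟩ := hk
    rw [Finset.sum_eq_single_of_mem m hm]
    · rw [ContinuousMap.smul_apply, smul_eq_mul, abs_mul]
      have h1 := Small_abs_ind_le ({S.N m} : Set K) (S.N m)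
      have h2 := hc m hm
      have h3 := abs_nonneg (c m)
      have h4 := abs_nonneg ((ind {S.N m} : C(K, ℝ)) (S.N m))
      nlinarith
    · intro b _ hb
      rw [ContinuousMap.smul_apply, Small_ind_zero_of_notMem, smul_zero]
      intro h
      exact hb (S.N_inj (Set.mem_singleton_iff.mp h)).symm
  · push Not at hk
    rw [Finset.sum_eq_zero]
    · simpa using hM
    · intro n hn
      rw [ContinuousMap.smul_apply, Small_ind_zero_of_notMem, smul_zero]
      intro h
      exact hk n hn (Set.mem_singleton_iff.mp h)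

theorem Small_sum_le (S : Sp T K) (D : C(K, ℝ) →ₗ[ℝ] ℝ) (C : ℝ) (hD : ∀ z, |D z| ≤ C * ‖z‖)
    (G : Finset ℕ) : ∑ n ∈ G, |D (ind {S.N n})| ≤ C := by
  have hC := Small_C_nonneg S D C hD
  have h1 := Small_norm_comb_le S G (fun n => (SignType.sign (D (ind {S.N n})) : ℝ)) 1
    zero_le_one (by
      intro n _
      rcases lt_trichotomy (D (ind {S.N n})) 0 with h | h | h
      · simp [sign_neg h]
      · simp [h]
      · simp [sign_pos h])
  have h2 := hD (∑ n ∈ G, (SignType.sign (D (ind {S.N n})) : ℝ) • (ind {S.N n} : C(K, ℝ)))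
  have h3 : D (∑ n ∈ G, (SignType.sign (D (ind {S.N n})) : ℝ) • (ind {S.N n} : C(K, ℝ)))
      = ∑ n ∈ G, |D (ind {S.N n})| := by
    rw [map_sum]
    refine Finset.sum_congr rfl fun n _ => ?_
    rw [map_smul, smul_eq_mul, sign_mul_self]
  rw [h3] at h2
  have h4 := le_abs_self (∑ n ∈ G, |D (ind {S.N n})|)
  nlinarith

/-- GS-G1. A functional is small on functions supported far out on the isolated points `N`. -/
theorem smallE (S : Sp T K) (D : C(K, ℝ) →ₗ[ℝ] ℝ) (C : ℝ) (hD : ∀ z, |D z| ≤ C * ‖z‖)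
    (ε : ℝ) (hε : 0 < ε) :
    ∃ F₀ : Finset ℕ, ∀ z : C(K, ℝ), (∀ n ∈ F₀, z (S.N n) = 0) → (∀ t, z (S.P t) = 0) →
      z S.o = 0 → |D z| ≤ ε * ‖z‖ := by
  classical
  have hC := Small_C_nonneg S D C hD
  have hsum : Summable fun n => |D (ind {S.N n})| := by
    refine summable_of_sum_le (fun n => abs_nonneg _) (c := C) ?_
    intro G
    exact Small_sum_le S D C hD G
  obtain ⟨F₀, hF₀⟩ := summable_iff_vanishing_norm.mp hsum ε hε
  refine ⟨F₀, fun z hzF hzP hzo => ?_⟩
  refine le_of_forall_pos_le_add fun η hη => ?_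
  obtain ⟨δ, hδ, hδη⟩ : ∃ δ : ℝ, 0 < δ ∧ C * δ ≤ η := by
    refine ⟨η / (C + 1), by positivity, ?_⟩
    have : C * (η / (C + 1)) = C / (C + 1) * η := by ring
    rw [this]
    have h1 : C / (C + 1) ≤ 1 := by
      rw [div_le_one (by linarith)]
      linarith
    nlinarith
  -- the finite set of indices where z is large
  have hcl : IsClosed {k : K | δ ≤ |z k|} := isClosed_le continuous_const (by fun_prop)
  have hcov : {k : K | δ ≤ |z k|} ⊆ ⋃ n, ({S.N n} : Set K) := by
    intro k hk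
    rcases S.cover k with ⟨n, rfl⟩ | ⟨t, rfl⟩ | rfl
    · exact Set.mem_iUnion.mpr ⟨n, rfl⟩
    · simp only [Set.mem_ofPred_eq, hzP, abs_zero] at hk
      linarith
    · simp only [Set.mem_ofPred_eq, hzo, abs_zero] at hk
      linarith
  obtain ⟨G0, hG0⟩ := hcl.isCompact.elim_finite_subcover _ (fun n => S.isoN n) hcov
  set G := G0.filter (fun n => δ ≤ |z (S.N n)|) with hG
  have hGmem : ∀ n, n ∈ G ↔ δ ≤ |z (S.N n)| := by
    intro n
    rw [hG, Finset.mem_filter]
    constructor
    · exact fun h => h.2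
    · intro h
      refine ⟨?_, h⟩
      have := hG0 (show S.N n ∈ {k : K | δ ≤ |z k|} from h)
      simp only [Set.mem_iUnion, Set.mem_singleton_iff, exists_prop] at this
      obtain ⟨m, hm, hm2⟩ := this
      rw [S.N_inj hm2]
      exact hm
  have hclop : ∀ n ∈ G, IsClopen ({S.N n} : Set K) := by
    intro n hn
    have hzn : z (S.N n) ≠ 0 := by
      intro h
      rw [hGmem, h, abs_zero] at hn
      linarith
    refine ⟨?_, S.isoN n⟩
    refine isClosed_of_closure_subset ?_
    intro k hk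
    have hzk : z k = z (S.N n) := by
      have : closure ({S.N n} : Set K) ⊆ {k | z k = z (S.N n)} := by
        refine closure_minimal ?_ (isClosed_eq z.continuous continuous_const)
        intro x hx
        rw [Set.mem_singleton_iff.mp hx]
        rfl
      exact this hk
    rcases S.cover k with ⟨m, rfl⟩ | ⟨t, rfl⟩ | rfl
    · rw [mem_closure_iff] at hk
      obtain ⟨y, hy1, hy2⟩ := hk _ (S.isoN m) (Set.mem_singleton _)
      rw [Set.mem_singleton_iff] at hy1 hy2
      rw [← hy1, hy2]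
      rfl
    · exact absurd (hzk.symm.trans (hzP t)) hzn
    · exact absurd (hzk.symm.trans hzo) hzn
  have hdisj : Disjoint G F₀ := by
    rw [Finset.disjoint_left]
    intro n hn hn2
    rw [hGmem, hzF n hn2, abs_zero] at hn
    linarith
  have hGs := hF₀ G hdisj
  rw [Real.norm_eq_abs, abs_of_nonneg (Finset.sum_nonneg fun _ _ => abs_nonneg _)] at hGs
  set z' : C(K, ℝ) := ∑ n ∈ G, z (S.N n) • (ind {S.N n} : C(K, ℝ)) with hz'
  have hz'k : ∀ k, k ∉ Set.range S.N → z' k = 0 := by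
    intro k hk
    rw [hz', ContinuousMap.sum_apply]
    refine Finset.sum_eq_zero fun n _ => ?_
    rw [ContinuousMap.smul_apply, Small_ind_zero_of_notMem, smul_zero]
    intro h
    exact hk ⟨n, (Set.mem_singleton_iff.mp h).symm⟩
  have hz'N : ∀ m, z' (S.N m) = if m ∈ G then z (S.N m) else 0 := by
    intro m
    rw [hz', ContinuousMap.sum_apply]
    by_cases hm : m ∈ G
    · rw [if_pos hm, Finset.sum_eq_single_of_mem m hm]
      · rw [ContinuousMap.smul_apply, ind_mem (hclop m hm) (Set.mem_singleton _), smul_eq_mul,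
          mul_one]
      · intro b _ hb
        rw [ContinuousMap.smul_apply, Small_ind_zero_of_notMem, smul_zero]
        intro h
        exact hb (S.N_inj (Set.mem_singleton_iff.mp h)).symm
    · rw [if_neg hm]
      refine Finset.sum_eq_zero fun n hn => ?_
      rw [ContinuousMap.smul_apply, Small_ind_zero_of_notMem, smul_zero]
      intro h
      have := S.N_inj (Set.mem_singleton_iff.mp h)
      rw [this] at hm
      exact hm hn
  have hdiff : ‖z - z'‖ ≤ δ := by
    rw [ContinuousMap.norm_le _ hδ.le]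
    intro k
    rw [Real.norm_eq_abs, ContinuousMap.sub_apply]
    rcases S.cover k with ⟨m, rfl⟩ | ⟨t, rfl⟩ | rfl
    · rw [hz'N]
      by_cases hm : m ∈ G
      · rw [if_pos hm, sub_self, abs_zero]
        exact hδ.le
      · rw [if_neg hm, sub_zero]
        rw [hGmem] at hm
        exact (not_le.mp hm).le
    · rw [hz'k, hzP, sub_zero, abs_zero]
      · exact hδ.le
      · rintro ⟨n, hn⟩
        exact S.N_ne_P n t hn
    · rw [hz'k, hzo, sub_zero, abs_zero]
      · exact hδ.le
      · rintro ⟨n, hn⟩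
        exact S.N_ne_o n hn
  have hDz' : |D z'| ≤ ε * ‖z‖ := by
    rw [hz', map_sum]
    calc |∑ n ∈ G, D (z (S.N n) • (ind {S.N n} : C(K, ℝ)))|
        ≤ ∑ n ∈ G, |D (z (S.N n) • (ind {S.N n} : C(K, ℝ)))| := Finset.abs_sum_le_sum_abs _ _
      _ ≤ ∑ n ∈ G, ‖z‖ * |D (ind {S.N n})| := by
          refine Finset.sum_le_sum fun n _ => ?_
          rw [map_smul, smul_eq_mul, abs_mul]
          refine mul_le_mul_of_nonneg_right ?_ (abs_nonneg _)
          have := z.norm_coe_le_norm (S.N n)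
          simpa [Real.norm_eq_abs] using this
      _ = ‖z‖ * ∑ n ∈ G, |D (ind {S.N n})| := by rw [Finset.mul_sum]
      _ ≤ ε * ‖z‖ := by
          have := norm_nonneg z
          nlinarith
  have hsplit : D z = D z' + D (z - z') := by
    rw [← map_add]
    congr 1
    abel
  calc |D z| = |D z' + D (z - z')| := by rw [hsplit]
    _ ≤ |D z'| + |D (z - z')| := abs_add_le _ _
    _ ≤ ε * ‖z‖ + C * ‖z - z'‖ := add_le_add hDz' (hD _)
    _ ≤ ε * ‖z‖ + C * δ := by
        have := mul_le_mul_of_nonneg_left hdiff hC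
        linarith
    _ ≤ ε * ‖z‖ + η := by linarith

/-- GS-G2. ... and on all but finitely many members of a sequence of clopen sets disjoint on `T`. -/
theorem smallS (S : Sp T K) (D : C(K, ℝ) →ₗ[ℝ] ℝ) (C : ℝ) (hD : ∀ z, |D z| ≤ C * ‖z‖)
    (ε : ℝ) (hε : 0 < ε) :
    ∃ F₀ : Finset ℕ,
      (∀ z : C(K, ℝ), (∀ n ∈ F₀, z (S.N n) = 0) → (∀ t, z (S.P t) = 0) →
        z S.o = 0 → |D z| ≤ ε * ‖z‖) ∧
      ∀ Z : ℕ → Set K, (∀ i, IsClopen (Z i)) → (∀ i, S.o ∉ Z i) →
        (∀ i j t, i ≠ j → S.P t ∈ Z i → S.P t ∉ Z j) →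
        ∃ i₀, ∀ i, i₀ ≤ i → ∀ z : C(K, ℝ), (∀ n ∈ F₀, z (S.N n) = 0) →
          (∀ k, k ∉ Z i → z k = 0) → |D z| ≤ ε * ‖z‖ := by
  classical
  have hC := Small_C_nonneg S D C hD
  obtain ⟨F₀, hF₀⟩ := smallE S D C hD (ε / 2) (by positivity)
  refine ⟨F₀, fun z h1 h2 h3 => ?_, fun Z hZ hZo hZP => ?_⟩
  · have := hF₀ z h1 h2 h3
    have := norm_nonneg z
    nlinarith
  by_contra hcon
  push Not at hcon
  -- the set of bad indices is infinite
  have hinf : {i : ℕ | ∃ z : C(K, ℝ), (∀ n ∈ F₀, z (S.N n) = 0) ∧ (∀ k, k ∉ Z i → z k = 0) ∧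
      ε * ‖z‖ < |D z|}.Infinite := by
    rw [Set.infinite_iff_exists_gt]
    intro a
    obtain ⟨i, hi, z, h1, h2, h3⟩ := hcon (a + 1)
    exact ⟨i, ⟨z, h1, h2, h3⟩, by omega⟩
  obtain ⟨m, hm⟩ := exists_nat_gt (C / (ε / 2))
  obtain ⟨J, hJ, hJc⟩ := hinf.exists_subset_card_eq m
  have hJw : ∀ i ∈ J, ∃ w : C(K, ℝ), (∀ n ∈ F₀, w (S.N n) = 0) ∧ (∀ k, k ∉ Z i → w k = 0) ∧
      ‖w‖ ≤ 1 ∧ ε < D w := by
    intro i hi
    obtain ⟨z, h1, h2, h3⟩ := hJ hi
    have hz0 : 0 < ‖z‖ := by
      rcases (norm_nonneg z).eq_or_lt with h | h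
      · rw [← h] at h3
        have := hD z
        rw [← h] at this
        linarith
      · exact h
    refine ⟨((SignType.sign (D z) : ℝ) * ‖z‖⁻¹) • z, ?_, ?_, ?_, ?_⟩
    · intro n hn
      rw [ContinuousMap.smul_apply, h1 n hn, smul_zero]
    · intro k hk
      rw [ContinuousMap.smul_apply, h2 k hk, smul_zero]
    · rw [norm_smul, norm_mul, norm_inv, norm_norm, mul_assoc, inv_mul_cancel₀ hz0.ne', mul_one,
        Real.norm_eq_abs]
      rcases lt_trichotomy (D z) 0 with h | h | h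
      · simp [sign_neg h]
      · simp [h]
      · simp [sign_pos h]
    · rw [map_smul, smul_eq_mul]
      have : (SignType.sign (D z) : ℝ) * ‖z‖⁻¹ * D z = |D z| / ‖z‖ := by
        rw [← sign_mul_self (D z)]
        field_simp
      rw [this, lt_div_iff₀ hz0]
      exact h3
  choose! w hw1 hw2 hw3 hw4 using hJw
  set O : Set K := ⋃ p ∈ J.offDiag, (Z p.1 ∩ Z p.2) with hO
  have hOcl : IsClopen O := by
    rw [hO]
    exact isClopen_biUnion_finset fun p _ => (hZ p.1).inter (hZ p.2)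
  have hOP : ∀ t, S.P t ∉ O := by
    intro t ht
    rw [hO] at ht
    simp only [Set.mem_iUnion, Set.mem_inter_iff, exists_prop, Finset.mem_offDiag] at ht
    obtain ⟨p, ⟨_, _, h3⟩, h4, h5⟩ := ht
    exact hZP p.1 p.2 t h3 h4 h5
  have hOo : S.o ∉ O := by
    intro ht
    rw [hO] at ht
    simp only [Set.mem_iUnion, Set.mem_inter_iff, exists_prop, Finset.mem_offDiag] at ht
    obtain ⟨p, _, h4, _⟩ := ht
    exact hZo p.1 h4
  have hsmall : ∀ i ∈ J, |D (w i * ind O)| ≤ ε / 2 := by
    intro i hi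
    have h1 := hF₀ (w i * ind O) ?_ ?_ ?_
    · have h2 : ‖w i * ind O‖ ≤ 1 := by
        rw [ContinuousMap.norm_le _ zero_le_one]
        intro k
        rw [ContinuousMap.mul_apply, norm_mul, Real.norm_eq_abs (ind O k)]
        have h3 := (w i).norm_coe_le_norm k
        have h4 := Small_abs_ind_le O k
        have h5 := hw3 i hi
        have h6 := norm_nonneg (w i k)
        have h7 := abs_nonneg (ind O k)
        nlinarith
      have h3 := norm_nonneg (w i * ind O)
      nlinarith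
    · intro n hn
      rw [ContinuousMap.mul_apply, hw1 i hi n hn, zero_mul]
    · intro t
      rw [ContinuousMap.mul_apply, ind_notMem hOcl (hOP t), mul_zero]
    · rw [ContinuousMap.mul_apply, ind_notMem hOcl hOo, mul_zero]
  have hnorm : ‖∑ i ∈ J, (w i - w i * ind O)‖ ≤ 1 := by
    rw [ContinuousMap.norm_le _ zero_le_one]
    intro k
    rw [ContinuousMap.sum_apply]
    by_cases hkO : k ∈ O
    · rw [Finset.sum_eq_zero]
      · simp
      · intro i _
        rw [ContinuousMap.sub_apply, ContinuousMap.mul_apply, ind_mem hOcl hkO, mul_one, sub_self]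
    · by_cases hk : ∃ i ∈ J, k ∈ Z i
      · obtain ⟨i, hi, hki⟩ := hk
        rw [Finset.sum_eq_single_of_mem i hi]
        · rw [ContinuousMap.sub_apply, ContinuousMap.mul_apply, ind_notMem hOcl hkO, mul_zero,
            sub_zero]
          exact ((w i).norm_coe_le_norm k).trans (hw3 i hi)
        · intro j hj hji
          have hkj : k ∉ Z j := by
            intro hkj
            apply hkO
            rw [hO]
            simp only [Set.mem_iUnion, Set.mem_inter_iff, exists_prop, Finset.mem_offDiag]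
            exact ⟨(j, i), ⟨hj, hi, hji⟩, hkj, hki⟩
          rw [ContinuousMap.sub_apply, ContinuousMap.mul_apply, hw2 j hj k hkj, zero_mul, sub_zero]
      · push Not at hk
        rw [Finset.sum_eq_zero]
        · simp
        · intro i hi
          rw [ContinuousMap.sub_apply, ContinuousMap.mul_apply, hw2 i hi k (hk i hi), zero_mul,
            sub_zero]
  have hlow : (m : ℝ) * (ε / 2) ≤ D (∑ i ∈ J, (w i - w i * ind O)) := by
    rw [map_sum, ← hJc, ← nsmul_eq_mul]
    refine Finset.card_nsmul_le_sum _ _ _ fun i hi => ?_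
    rw [map_sub]
    have h1 := hsmall i hi
    have h2 := hw4 i hi
    have h3 := le_abs_self (D (w i * ind O))
    linarith
  have h1 := hD (∑ i ∈ J, (w i - w i * ind O))
  have h2 := le_abs_self (D (∑ i ∈ J, (w i - w i * ind O)))
  have h3 : C < m * (ε / 2) := by
    rwa [div_lt_iff₀ (by positivity)] at hm
  have h4 := norm_nonneg (∑ i ∈ J, (w i - w i * ind O))
  nlinarith

end Pool.Agent.Helper50.GS
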