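import Pool.Agent.Helper50.GS.Stab
import Pool.Agent.Helper50.GS.James
import Pool.Agent.Helper50.GS.Small
import Pool.Agent.Helper50.GS.FinalB
import Pool.Agent.Helper50.GS.Norming
set_option autoImplicit false
namespace Pool.Agent.Helper50.GS

variable {T : Type} [GTree T] {K : Type} [TopologicalSpace K] [CompactSpace K] [T2Space K]

open Finset

theorem suc_sep (w : T) (i j : ℕ) (hij : i ≠ j) (a b r : T) (ha : GTree.suc w i ≤ a)
    (hb : GTree.suc w j ≤ b) (h1 : r ≤ a) (h2 : r ≤ b) : r ≤ w := by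
  by_contra h
  have hw : w ≤ a := (GTree.lt_suc w i).le.trans ha
  rcases GTree.chain a r w h1 hw with h3 | h3
  · exact h h3
  · have hlt : w < r := lt_of_le_of_ne h3 (fun e => h e.ge)
    have e1 := GTree.lab_coh w r a hlt h1
    have e2 := GTree.lab_coh w r b hlt h2
    have e3 := GTree.lab_coh w _ a (GTree.lt_suc w i) ha
    have e4 := GTree.lab_coh w _ b (GTree.lt_suc w j) hb
    rw [GTree.lab_suc] at e3 e4
    exact hij (by rw [e3, ← e1, e2, ← e4])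

/-- part common to (A) and (B): an almost norm-optimal transfer of `ξ` is controlled by `D`. -/
theorem transfer (S : Sp T K) {p : C(K, ℝ) → ℝ} {c C : ℝ} (hp : EN p c C) {u : ℕ → T} {v w : T}
    (G : Good S p u v w) (D : C(K, ℝ) →ₗ[ℝ] ℝ) (hD : ∀ z, D z ≤ p z)
    (F : Finset ℕ) (ε : ℝ) (hε : 0 < ε) (hε1 : ε ≤ 1)
    (hE : ∀ z : C(K, ℝ), (∀ n ∈ F, z (S.N n) = 0) → (∀ t, z (S.P t) = 0) →
        z S.o = 0 → |D z| ≤ ε * ‖z‖)
    (hS : ∀ Z : ℕ → Set K, (∀ i, IsClopen (Z i)) → (∀ i, S.o ∉ Z i) →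
        (∀ i j t, i ≠ j → S.P t ∈ Z i → S.P t ∉ Z j) →
        ∃ i₀, ∀ i, i₀ ≤ i → ∀ z : C(K, ℝ), (∀ n ∈ F, z (S.N n) = 0) →
          (∀ k, k ∉ Z i → z k = 0) → |D z| ≤ ε * ‖z‖)
    (k : ℕ) (hk : ∀ z : C(K, ℝ), (∀ n ∈ F, z (S.N n) = 0) →
          (∀ y, y ∉ S.W (u (k + 1)) \ S.W (u k) → z y = 0) → |D z| ≤ ε * ‖z‖)
    (ξ : C(K, ℝ)) (s : ℚ) (hY : Y S w ξ) (hrat : ∀ n ∈ F, ∃ q : ℚ, ξ (S.N n) = q)
    (hstep : ∃ a : T →₀ ℚ, (∀ r ∈ a.support, r ≤ u k) ∧ ∀ t, t ≤ u k → ξ (S.P t) = stepQ a t)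
    (hs : (∀ t, v < t → t ≤ w → ξ (S.P t) = s) ∨ (∀ t, u (k + 1) < t → t ≤ v → ξ (S.P t) = s))
    (hξ : ‖ξ‖ ≤ 2)
    (η : C(K, ℝ)) (hη : ‖η‖ ≤ 3) (hηY : Y S w η) (hηF : ∀ n ∈ F, η (S.N n) = ξ (S.N n))
    (hη1 : ∀ t, t ≤ u k → η (S.P t) = ξ (S.P t))
    (hη2 : ∀ t, u (k + 1) < t → t ≤ w → η (S.P t) = s) :
    D η ≤ p ξ + ε * (1 + 3 * ((2 * C + 1) / c + 3)) := by
  have hc := hp.cpos
  have hC := hp.Cpos
  choose xs ws h1 h2 h3 h4 h5 h6 using fun i => G.tr k F ξ s hY hrat hstep hs i ε hε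
  obtain ⟨i₀, hi₀⟩ := hS (fun i => S.W (ws i) \ S.W w) (fun i => (S.clopen _).diff (S.clopen _))
    (fun i h => S.o_mem _ h.1) (fun i j t hij hi hj => by
      simp only [Set.mem_diff, S.P_mem] at hi hj
      exact hi.2 (suc_sep w i j hij _ _ t (h1 i) (h1 j) hi.1 hj.1))
  have hV := hi₀ i₀ le_rfl
  have hwle : w ≤ ws i₀ := (GTree.lt_suc w i₀).le.trans (h1 i₀)
  set z := xs i₀ - η with hz
  have hmain : |D z| ≤ 3 * ε * ‖z‖ := by
    refine piece S D F ε hε.le hE _ _ ((S.clopen (u (k + 1))).diff (S.clopen (u k)))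
      ((S.clopen (ws i₀)).diff (S.clopen w)) hk hV z ?_ ?_ ?_
    · intro n hn
      rw [hz, ContinuousMap.sub_apply, h3 i₀ n hn, hηF n hn, sub_self]
    · rw [hz, ContinuousMap.sub_apply, (h2 i₀).1, hηY.1, sub_self]
    · intro t ht1 ht2
      simp only [Set.mem_diff, S.P_mem, not_and, not_not] at ht1 ht2
      rw [hz, ContinuousMap.sub_apply]
      by_cases hle : t ≤ ws i₀
      · have htw := ht2 hle
        by_cases htk : t ≤ u k
        · rw [h4 i₀ t htk, hη1 t htk, sub_self]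
        · have htk1 : ¬ t ≤ u (k + 1) := fun h => htk (ht1 h)
          have hukw : u (k + 1) ≤ w := ((G.lt_v _).trans G.v_lt).le
          have hlt : u (k + 1) < t := by
            rcases GTree.chain w t (u (k + 1)) htw hukw with h | h
            · exact absurd h htk1
            · exact lt_of_le_of_ne h (fun e => htk1 e.ge)
          rw [h5 i₀ t hlt (htw.trans (GTree.lt_suc w i₀).le), hη2 t hlt htw, sub_self]
      · rw [(h2 i₀).2 t hle, hηY.2 t (fun h => hle (h.trans hwle)), sub_self]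
  have hxs : ‖xs i₀‖ ≤ (2 * C + 1) / c := by
    rw [le_div_iff₀ hc]
    have a1 := hp.lower (xs i₀)
    have a2 := h6 i₀
    have a3 := hp.upper ξ
    have a4 : C * ‖ξ‖ ≤ C * 2 := by gcongr
    linarith
  have hzn : ‖z‖ ≤ (2 * C + 1) / c + 3 := by
    calc ‖z‖ ≤ ‖xs i₀‖ + ‖η‖ := norm_sub_le _ _
      _ ≤ _ := by linarith
  have hDz : D z = D (xs i₀) - D η := by rw [hz, map_sub]
  have e1 := (abs_le.1 hmain).1
  have e2 := hD (xs i₀)
  have e3 := h6 i₀
  have e4 : 3 * ε * ‖z‖ ≤ 3 * ε * ((2 * C + 1) / c + 3) := by gcongr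
  nlinarith

theorem EN.neg_le {E : Type*} [NormedAddCommGroup E] [NormedSpace ℝ E] {p : E → ℝ} {c C : ℝ}
    (hp : EN p c C) (D : E →ₗ[ℝ] ℝ) (hD : ∀ z, D z ≤ p z) (z : E) : |D z| ≤ C * ‖z‖ := by
  rw [abs_le]
  constructor
  · have h1 := hD (-z)
    have h2 := hp.upper (-z)
    rw [norm_neg] at h2
    rw [map_neg] at h1
    linarith
  · exact (hD z).trans (hp.upper z)

/-- GS-H. Every equivalent norm has a corner. -/
theorem corner [Nonempty T] (S : Sp T K) {p : C(K, ℝ) → ℝ} {c C : ℝ} (hp : EN p c C) :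
    ∃ x e : C(K, ℝ), x ≠ 0 ∧ ∃ θ : ℝ, 0 < θ ∧ ∀ τ : ℚ, 0 < τ → τ ≤ 1 →
      2 * p x + τ * θ ≤ p (x + (τ : ℝ) • e) + p (x - (τ : ℝ) • e) := by
  classical
  have hc := hp.cpos
  have hC := hp.Cpos
  obtain ⟨u, v, w, G⟩ := exists_good S hp
  have hu := G.mono
  have huv : ∀ n, u n < v := G.lt_v
  have hvw : v < w := G.v_lt
  have huw : ∀ n, u n ≤ w := fun n => ((huv n).trans hvw).le
  set f := ff S u w with hf
  have hf1 : ∀ n, ‖f n‖ ≤ 1 := fun n => ind_norm_le _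
  have hfw : ∀ n, f n (S.P w) = 1 := fun n => ff_P_one S u w n w le_rfl
    (fun h => absurd ((h.trans_lt (huv n)).trans hvw) (lt_irrefl _))
  have hκ : ∀ a, Pr 0 a → c ≤ p (comb f a) := by
    intro a ha
    have h1 : comb f a (S.P w) = 1 := by
      rw [comb_apply]
      have h2 := ha.2.1
      unfold Finsupp.sum at h2 ⊢
      have h3 : ((∑ n ∈ a.support, a n : ℚ) : ℝ) = 1 := by rw [h2]; simp
      push_cast at h3
      rw [← h3]
      exact Finset.sum_congr rfl fun n _ => by beta_reduce; rw [hfw, mul_one]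
    have h2 : 1 ≤ ‖comb f a‖ := by
      have := (comb f a).norm_coe_le_norm (S.P w)
      rwa [h1, norm_one] at this
    have h3 := hp.lower (comb f a)
    nlinarith
  obtain ⟨g, x, hg, hxp, hx, hJ⟩ := james hp f 1 hf1 c hc hκ
  set e : C(K, ℝ) := ind (S.W w \ S.W v) with he
  have hecl : IsClopen (S.W w \ S.W v) := (S.clopen w).diff (S.clopen v)
  obtain ⟨D, hD, hDx⟩ := exists_norming hp x
  have hDC := hp.neg_le D hD
  have hx0 : x ≠ 0 := by
    rintro rfl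
    have := hp.smul 0 0
    rw [zero_smul, abs_zero, zero_mul] at this
    linarith
  refine ⟨x, e, hx0, c / 2, by positivity, ?_⟩
  intro τ hτ0 hτ1
  have hτ0' : (0 : ℝ) < τ := by exact_mod_cast hτ0
  have hτ1' : (τ : ℝ) ≤ 1 := by exact_mod_cast hτ1
  set M : ℝ := 2 * (4 * C + (1 + 3 * ((2 * C + 1) / c + 3))) with hM
  have hMpos : 0 < M := by positivity
  suffices H : ∀ ε : ℝ, 0 < ε → ε ≤ 1 →
      2 * p x + τ * (c / 2) ≤ p (x + (τ : ℝ) • e) + p (x - (τ : ℝ) • e) + M * ε by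
    by_contra hcon
    push Not at hcon
    set gap := 2 * p x + τ * (c / 2) - (p (x + (τ : ℝ) • e) + p (x - (τ : ℝ) • e)) with hgap
    have hgpos : 0 < gap := by linarith
    have := H (min 1 (gap / (2 * M))) (by positivity) (min_le_left _ _)
    have h2 : M * min 1 (gap / (2 * M)) ≤ M * (gap / (2 * M)) := by
      gcongr; exact min_le_right _ _
    have h3 : M * (gap / (2 * M)) = gap / 2 := by field_simp
    linarith
  intro ε hε hε1
  obtain ⟨F, hE, hS⟩ := smallS S D C hDC ε hε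
  obtain ⟨j₀, hj₀⟩ := hS (fun j => S.W (u (j + 1)) \ S.W (u j))
    (fun i => (S.clopen _).diff (S.clopen _)) (fun i h => S.o_mem _ h.1) (by
      intro i j t hij hi hj
      simp only [Set.mem_diff, S.P_mem] at hi hj
      rcases lt_or_gt_of_ne hij with h | h
      · exact hj.2 (hi.1.trans (hu.monotone h))
      · exact hi.2 (hj.1.trans (hu.monotone h)))
  obtain ⟨I, hI⟩ := exists_pow_lt_of_lt_one hε (by norm_num : (1 / 2 : ℝ) < 1)
  -- bounds
  obtain ⟨N1, hN1⟩ : ∃ N1 : ℕ, ∀ i ∈ range I, ∀ n ∈ (g i).support, n ≤ N1 := by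
    refine ⟨((range I).biUnion fun i => (g i).support).sup id, fun i hi n hn => ?_⟩
    exact Finset.le_sup (f := id) (Finset.mem_biUnion.2 ⟨i, hi, hn⟩)
  obtain ⟨N2, hN2⟩ : ∃ N2 : ℕ, ∀ n ∈ F, n ≤ N2 :=
    ⟨F.sup id, fun n hn => Finset.le_sup (f := id) hn⟩
  obtain ⟨m, hm, hDm⟩ := hJ D hD hDx (j₀ + N1 + N2 + 1)
  obtain ⟨k, rfl⟩ : ∃ k, m = k + 1 := ⟨m - 1, by omega⟩
  have hkj : j₀ ≤ k := by omega
  have hk1 : N1 ≤ k := by omega
  have hk2 : N2 ≤ k := by omega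
  -- the vector `xb`
  set γ : ℕ →₀ ℚ := (∑ i ∈ range I, ((1 / 2 : ℚ) ^ (i + 1)) • g i) +
    Finsupp.single (k + 1) ((1 / 2 : ℚ) ^ I) with hγ
  set xb := comb f γ with hxb
  have hxb' : xb = (∑ i ∈ range I, (1 / 2 : ℝ) ^ (i + 1) • comb f (g i)) +
      (1 / 2 : ℝ) ^ I • f (k + 1) := by
    rw [hxb, hγ, comb_add, comb_sum, comb_single]
    congr 1
    · refine Finset.sum_congr rfl fun i _ => ?_
      rw [comb_smul]; push_cast; rfl
    · push_cast; rfl
  have hdist : ‖x - xb‖ ≤ 2 * ε := by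
    rw [hxb', ← sub_sub]
    have h1 := hx I
    have h2 : ‖(1 / 2 : ℝ) ^ I • f (k + 1)‖ ≤ (1 / 2 : ℝ) ^ I := by
      rw [norm_smul, norm_pow]
      have := hf1 (k + 1)
      have h3 : ‖(1 / 2 : ℝ)‖ = 1 / 2 := by norm_num
      rw [h3]
      calc (1 / 2 : ℝ) ^ I * ‖f (k + 1)‖ ≤ (1 / 2 : ℝ) ^ I * 1 := by gcongr
        _ = _ := mul_one _
    calc _ ≤ ‖x - ∑ i ∈ range I, (1 / 2 : ℝ) ^ (i + 1) • comb f (g i)‖ +
        ‖(1 / 2 : ℝ) ^ I • f (k + 1)‖ := norm_sub_le _ _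
      _ ≤ _ := by linarith
  have hhalf : ∀ J : ℕ, (∑ i ∈ range J, (1 / 2 : ℚ) ^ (i + 1)) + (1 / 2 : ℚ) ^ J = 1 := by
    intro J
    induction J with
    | zero => simp
    | succ J ih =>
      rw [Finset.sum_range_succ]
      have h2 : (1 / 2 : ℚ) ^ (J + 1) + (1 / 2 : ℚ) ^ (J + 1) = (1 / 2) ^ J := by ring
      linarith
  have hsum_add : ∀ a b : ℕ →₀ ℚ, ((a + b).sum fun _ q => q) = (a.sum fun _ q => q) +
      (b.sum fun _ q => q) := fun a b =>
    Finsupp.sum_add_index' (fun _ => rfl) (fun _ _ _ => rfl)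
  have hγsum : (γ.sum fun _ q => q) = 1 := by
    have hgen : ∀ J : Finset ℕ, ((∑ i ∈ J, ((1 / 2 : ℚ) ^ (i + 1)) • g i).sum fun _ q => q) =
        ∑ i ∈ J, (1 / 2 : ℚ) ^ (i + 1) := by
      intro J
      induction J using Finset.induction_on with
      | empty => simp
      | insert i J hi ih =>
        rw [Finset.sum_insert hi, Finset.sum_insert hi, hsum_add, ih]
        congr 1
        rw [Finsupp.sum_smul_index (fun _ => rfl)]
        have := (hg i).2.1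
        unfold Finsupp.sum at this ⊢
        rw [← Finset.mul_sum, this, mul_one]
    rw [hγ, hsum_add, Finsupp.sum_single_index rfl, hgen]
    exact hhalf I
  have hγpos : ∀ n, 0 ≤ γ n := by
    intro n
    rw [hγ, Finsupp.add_apply, Finsupp.finsetSum_apply]
    refine add_nonneg (Finset.sum_nonneg fun i _ => ?_) ?_
    · rw [Finsupp.smul_apply, smul_eq_mul]
      exact mul_nonneg (by positivity) ((hg i).1 n)
    · rw [Finsupp.single_apply]; split_ifs <;> positivity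
  have hγsupp : ∀ n ∈ γ.support, n ≤ k + 1 := by
    intro n hn
    rw [hγ] at hn
    have h1 := Finsupp.support_add hn
    rw [Finset.mem_union] at h1
    rcases h1 with h1 | h1
    · have h2 := Finsupp.support_finsetSum h1
      rw [Finset.mem_biUnion] at h2
      obtain ⟨i, hi, h3⟩ := h2
      have h4 := Finsupp.support_smul h3
      have := hN1 i hi n h4
      omega
    · have := Finsupp.support_single_subset h1
      rw [Finset.mem_singleton] at this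
      exact this.le
  have hxbn : ‖xb‖ ≤ 1 := by
    rw [ContinuousMap.norm_le _ zero_le_one]
    intro y
    rw [hxb, comb_apply]
    have h3 : ((∑ n ∈ γ.support, γ n : ℚ) : ℝ) = 1 := by
      have := hγsum
      unfold Finsupp.sum at this
      rw [this]; simp
    push_cast at h3
    unfold Finsupp.sum
    calc ‖∑ n ∈ γ.support, (γ n : ℝ) * f n y‖ ≤ ∑ n ∈ γ.support, ‖(γ n : ℝ) * f n y‖ :=
          norm_sum_le _ _
      _ ≤ ∑ n ∈ γ.support, (γ n : ℝ) := by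
          refine Finset.sum_le_sum fun n _ => ?_
          have h4 : (0 : ℝ) ≤ γ n := by exact_mod_cast hγpos n
          rw [norm_mul, Real.norm_of_nonneg h4]
          have h5 := ((f n).norm_coe_le_norm y).trans (hf1 n)
          calc (γ n : ℝ) * ‖f n y‖ ≤ γ n * 1 := by gcongr
            _ = γ n := mul_one _
      _ = 1 := h3
  -- values of `xb` and `e`
  have hxbY : Y S w xb := comb_Y S u w γ
  have hxb1 : ∀ t, u (k + 1) < t → t ≤ w → xb (S.P t) = 1 := by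
    intro t h1 h2
    have := comb_one S u hu w γ k hγsupp t h1 h2
    rw [hxb, this, hγsum]; simp
  obtain ⟨a, ha1, ha2⟩ := comb_step S u hu w huw γ k
  have hen : ‖e‖ ≤ 1 := ind_norm_le _
  have heP0 : ∀ t, t ≤ v → e (S.P t) = 0 := fun t ht =>
    ind_notMem hecl (fun h => h.2 ((S.P_mem t v).2 ht))
  have heP1 : ∀ t, v < t → t ≤ w → e (S.P t) = 1 := fun t h1 h2 =>
    ind_mem hecl ⟨(S.P_mem t w).2 h2, fun h => absurd (((S.P_mem t v).1 h).trans_lt h1)
      (lt_irrefl _)⟩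
  have heY : Y S w e := ⟨ind_notMem hecl (fun h => S.o_mem w h.1), fun t ht =>
    ind_notMem hecl (fun h => ht ((S.P_mem t w).1 h.1))⟩
  have herat : ∀ y, ∃ q : ℚ, e y = q := by
    intro y
    by_cases h : y ∈ S.W w \ S.W v
    · exact ⟨1, by rw [he, ind_mem hecl h]; simp⟩
    · exact ⟨0, by rw [he, ind_notMem hecl h]; simp⟩
  -- the truncation of `e` to `F`
  have hFcl : IsClopen (S.N '' (F : Set ℕ)) := clopen_fin S _ F.finite_toSet
  set eF : C(K, ℝ) := e * ind (S.N '' (F : Set ℕ)) with heF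
  have heFn : ‖eF‖ ≤ 1 := (mul_ind_norm_le e _).trans hen
  have heFF : ∀ n ∈ F, eF (S.N n) = e (S.N n) := by
    intro n hn
    rw [heF, ContinuousMap.mul_apply, ind_mem hFcl ⟨n, hn, rfl⟩, mul_one]
  have heFP : ∀ t, eF (S.P t) = 0 := by
    intro t
    rw [heF, ContinuousMap.mul_apply, ind_notMem hFcl, mul_zero]
    rintro ⟨n, _, hn⟩
    exact S.N_ne_P n t hn
  have heFo : eF S.o = 0 := by
    rw [heF, ContinuousMap.mul_apply, ind_notMem hFcl, mul_zero]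
    rintro ⟨n, _, hn⟩
    exact S.N_ne_o n hn
  have hfF : ∀ n ∈ F, f (k + 1) (S.N n) = 0 := fun n hn =>
    ff_N S u w (k + 1) n (by have := hN2 n hn; omega)
  have hDxb : p x - 2 * C * ε ≤ D xb := by
    have h1 := (abs_le.1 (hDC (x - xb))).2
    rw [map_sub, hDx] at h1
    have h2 : C * ‖x - xb‖ ≤ C * (2 * ε) := by gcongr
    linarith
  have hpx : ∀ y : C(K, ℝ), p (xb + y) ≤ p (x + y) + 2 * C * ε := by
    intro y
    have h1 := hp.add (x + y) (xb - x)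
    have h2 : x + y + (xb - x) = xb + y := by abel
    rw [h2] at h1
    have h3 := hp.upper (xb - x)
    rw [norm_sub_rev] at h3
    have h4 : C * ‖x - xb‖ ≤ C * (2 * ε) := by gcongr
    linarith
  have hτe : ‖(τ : ℝ) • e‖ ≤ 1 := by
    rw [norm_smul, Real.norm_of_nonneg hτ0'.le]
    calc (τ : ℝ) * ‖e‖ ≤ 1 * 1 := by gcongr
      _ = 1 := one_mul _
  have hτeF : ‖(τ : ℝ) • eF‖ ≤ 1 := by
    rw [norm_smul, Real.norm_of_nonneg hτ0'.le]
    calc (τ : ℝ) * ‖eF‖ ≤ 1 * 1 := by gcongr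
      _ = 1 := one_mul _
  have hτf : ‖(τ : ℝ) • f (k + 1)‖ ≤ 1 := by
    rw [norm_smul, Real.norm_of_nonneg hτ0'.le]
    calc (τ : ℝ) * ‖f (k + 1)‖ ≤ 1 * 1 := by gcongr; exact hf1 _
      _ = 1 := one_mul _
  have huv' : u (k + 1) < v := huv _
  -- (A)
  have hA : D (xb + (τ : ℝ) • eF + (τ : ℝ) • f (k + 1)) ≤
      p (xb + (τ : ℝ) • e) + ε * (1 + 3 * ((2 * C + 1) / c + 3)) := by
    refine transfer S hp G D hD F ε hε hε1 hE hS k (hj₀ k hkj) (xb + (τ : ℝ) • e) (1 + τ)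
      ?_ ?_ ⟨a, ha1, ?_⟩ (Or.inl ?_) ?_ _ ?_ ?_ ?_ ?_ ?_
    · refine ⟨?_, fun t ht => ?_⟩
      · simp [hxbY.1, heY.1]
      · simp [hxbY.2 t ht, heY.2 t ht]
    · intro n _
      obtain ⟨q1, h1⟩ := comb_rat S u w γ (S.N n)
      obtain ⟨q2, h2⟩ := herat (S.N n)
      refine ⟨q1 + τ * q2, ?_⟩
      rw [ContinuousMap.add_apply, ContinuousMap.smul_apply, h2, smul_eq_mul]
      push_cast
      rw [hxb, ← h1]
    · intro t ht
      rw [ContinuousMap.add_apply, ContinuousMap.smul_apply, heP0 t (ht.trans (huv k).le),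
        smul_zero, add_zero, hxb, ha2 t ht]
    · intro t h1 h2
      rw [ContinuousMap.add_apply, ContinuousMap.smul_apply, heP1 t h1 h2,
        hxb1 t (huv'.trans h1) h2]
      push_cast; simp
    · calc ‖xb + (τ : ℝ) • e‖ ≤ ‖xb‖ + ‖(τ : ℝ) • e‖ := norm_add_le _ _
        _ ≤ 2 := by linarith
    · calc ‖xb + (τ : ℝ) • eF + (τ : ℝ) • f (k + 1)‖ ≤ ‖xb + (τ : ℝ) • eF‖ + ‖(τ : ℝ) • f (k + 1)‖ :=
            norm_add_le _ _
        _ ≤ ‖xb‖ + ‖(τ : ℝ) • eF‖ + ‖(τ : ℝ) • f (k + 1)‖ := by gcongr; exact norm_add_le _ _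
        _ ≤ 3 := by linarith
    · refine ⟨?_, fun t ht => ?_⟩
      · simp [hxbY.1, heFo, ff_o, hf]
      · simp [hxbY.2 t ht, heFP t, hf, ff_P_zero S u w (k + 1) t (Or.inl ht)]
    · intro n hn
      simp [heFF n hn, hfF n hn]
    · intro t ht
      simp [heFP t, heP0 t (ht.trans (huv k).le), hf,
        ff_P_zero S u w (k + 1) t (Or.inr (ht.trans (hu.monotone (Nat.le_succ k))))]
    · intro t h1 h2
      have h3 := ff_P_one S u w (k + 1) t h2 (fun h => absurd (h1.trans_le h) (lt_irrefl _))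
      simp [heFP t, hxb1 t h1 h2, hf, h3]
  -- (B)
  have hB : D (xb - (τ : ℝ) • eF) ≤
      p (xb + -((τ : ℝ) • e)) + ε * (1 + 3 * ((2 * C + 1) / c + 3)) := by
    refine transfer S hp G D hD F ε hε hε1 hE hS k (hj₀ k hkj) (xb + -((τ : ℝ) • e)) 1
      ?_ ?_ ⟨a, ha1, ?_⟩ (Or.inr ?_) ?_ _ ?_ ?_ ?_ ?_ ?_
    · refine ⟨?_, fun t ht => ?_⟩
      · simp [hxbY.1, heY.1]
      · simp [hxbY.2 t ht, heY.2 t ht]
    · intro n _
      obtain ⟨q1, h1⟩ := comb_rat S u w γ (S.N n)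
      obtain ⟨q2, h2⟩ := herat (S.N n)
      refine ⟨q1 - τ * q2, ?_⟩
      rw [ContinuousMap.add_apply, ContinuousMap.neg_apply, ContinuousMap.smul_apply, h2,
        smul_eq_mul]
      push_cast
      rw [hxb, ← h1]
      ring
    · intro t ht
      rw [ContinuousMap.add_apply, ContinuousMap.neg_apply, ContinuousMap.smul_apply,
        heP0 t (ht.trans (huv k).le), smul_zero, neg_zero, add_zero, hxb, ha2 t ht]
    · intro t h1 h2
      rw [ContinuousMap.add_apply, ContinuousMap.neg_apply, ContinuousMap.smul_apply, heP0 t h2,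
        hxb1 t h1 (h2.trans hvw.le)]
      simp
    · calc ‖xb + -((τ : ℝ) • e)‖ ≤ ‖xb‖ + ‖-((τ : ℝ) • e)‖ := norm_add_le _ _
        _ ≤ 2 := by rw [norm_neg]; linarith
    · calc ‖xb - (τ : ℝ) • eF‖ ≤ ‖xb‖ + ‖(τ : ℝ) • eF‖ := norm_sub_le _ _
        _ ≤ 3 := by linarith
    · refine ⟨?_, fun t ht => ?_⟩
      · simp [hxbY.1, heFo]
      · simp [hxbY.2 t ht, heFP t]
    · intro n hn
      simp [heFF n hn, sub_eq_add_neg]
    · intro t ht
      simp [heFP t, heP0 t (ht.trans (huv k).le)]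
    · intro t h1 h2
      simp [heFP t, hxb1 t h1 h2]
  have hA2 := hpx ((τ : ℝ) • e)
  have hB2 := hpx (-((τ : ℝ) • e))
  rw [← sub_eq_add_neg] at hB2
  rw [← sub_eq_add_neg] at hB hB2
  rw [map_add, map_add, map_smul, map_smul, smul_eq_mul, smul_eq_mul] at hA
  rw [map_sub, map_smul, smul_eq_mul] at hB
  have hlast : (τ : ℝ) * (c / 2) ≤ τ * D (f (k + 1)) := by gcongr
  rw [hM]
  nlinarith

end Pool.Agent.Helper50.GS
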