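import Pool.Agent.Helper50.GS.Final
set_option autoImplicit false
namespace Pool.Agent.Helper50.GS

variable {T : Type} [GTree T] {K : Type} [TopologicalSpace K] [CompactSpace K] [T2Space K]

open Finset

/-- GS-H with the explicit direction (the indicator of a clopen set) and the explicit size `c / 2`
of the corner. -/
theorem corner2 [Nonempty T] (S : Sp T K) {p : C(K, ℝ) → ℝ} {c C : ℝ} (hp : EN p c C) :
    ∃ (x : C(K, ℝ)) (A : Set K), IsClopen A ∧ c ≤ p x ∧ ∀ τ : ℚ, 0 < τ → τ ≤ 1 →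
      2 * p x + τ * (c / 2) ≤ p (x + (τ : ℝ) • ind A) + p (x - (τ : ℝ) • ind A) := by
  classical
  have hc := hp.cpos
  have hC := hp.Cpos
  obtain ⟨u, v, w, G⟩ := exists_good S hp
  have hu := G.mono
  have huv : ∀ n, u n < v := G.lt_v
  have hvw : v < w := G.v_lt
  have huw : ∀ n, u n ≤ w := fun n => ((huv n).trans hvw).le
  set f := ff S u w with hf
  have hf1 : ∀ n, ‖f n‖ ≤ 1 := fun n => ind_norm_le _
  have hfw : ∀ n, f n (S.P w) = 1 := fun n => ff_P_one S u w n w le_rfl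
    (fun h => absurd ((h.trans_lt (huv n)).trans hvw) (lt_irrefl _))
  have hκ : ∀ a, Pr 0 a → c ≤ p (comb f a) := by
    intro a ha
    have h1 : comb f a (S.P w) = 1 := by
      rw [comb_apply]
      have h2 := ha.2.1
      unfold Finsupp.sum at h2 ⊢
      have h3 : ((∑ n ∈ a.support, a n : ℚ) : ℝ) = 1 := by rw [h2]; simp
      push_cast at h3
      rw [← h3]
      exact Finset.sum_congr rfl fun n _ => by beta_reduce; rw [hfw, mul_one]
    have h2 : 1 ≤ ‖comb f a‖ := by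
      have := (comb f a).norm_coe_le_norm (S.P w)
      rwa [h1, norm_one] at this
    have h3 := hp.lower (comb f a)
    nlinarith
  obtain ⟨g, x, hg, hxp, hx, hJ⟩ := james hp f 1 hf1 c hc hκ
  set e : C(K, ℝ) := ind (S.W w \ S.W v) with he
  have hecl : IsClopen (S.W w \ S.W v) := (S.clopen w).diff (S.clopen v)
  obtain ⟨D, hD, hDx⟩ := exists_norming hp x
  have hDC := hp.neg_le D hD
  refine ⟨x, S.W w \ S.W v, hecl, hxp, ?_⟩
  rw [← he]
  intro τ hτ0 hτ1
  have hτ0' : (0 : ℝ) < τ := by exact_mod_cast hτ0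
  have hτ1' : (τ : ℝ) ≤ 1 := by exact_mod_cast hτ1
  set M : ℝ := 2 * (4 * C + (1 + 3 * ((2 * C + 1) / c + 3))) with hM
  have hMpos : 0 < M := by positivity
  suffices H : ∀ ε : ℝ, 0 < ε → ε ≤ 1 →
      2 * p x + τ * (c / 2) ≤ p (x + (τ : ℝ) • e) + p (x - (τ : ℝ) • e) + M * ε by
    by_contra hcon
    push Not at hcon
    set gap := 2 * p x + τ * (c / 2) - (p (x + (τ : ℝ) • e) + p (x - (τ : ℝ) • e)) with hgap
    have hgpos : 0 < gap := by linarith
    have := H (min 1 (gap / (2 * M))) (by positivity) (min_le_left _ _)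
    have h2 : M * min 1 (gap / (2 * M)) ≤ M * (gap / (2 * M)) := by
      gcongr; exact min_le_right _ _
    have h3 : M * (gap / (2 * M)) = gap / 2 := by field_simp
    linarith
  intro ε hε hε1
  obtain ⟨F, hE, hS⟩ := smallS S D C hDC ε hε
  obtain ⟨j₀, hj₀⟩ := hS (fun j => S.W (u (j + 1)) \ S.W (u j))
    (fun i => (S.clopen _).diff (S.clopen _)) (fun i h => S.o_mem _ h.1) (by
      intro i j t hij hi hj
      simp only [Set.mem_diff, S.P_mem] at hi hj
      rcases lt_or_gt_of_ne hij with h | h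
      · exact hj.2 (hi.1.trans (hu.monotone h))
      · exact hi.2 (hj.1.trans (hu.monotone h)))
  obtain ⟨I, hI⟩ := exists_pow_lt_of_lt_one hε (by norm_num : (1 / 2 : ℝ) < 1)
  -- bounds
  obtain ⟨N1, hN1⟩ : ∃ N1 : ℕ, ∀ i ∈ range I, ∀ n ∈ (g i).support, n ≤ N1 := by
    refine ⟨((range I).biUnion fun i => (g i).support).sup id, fun i hi n hn => ?_⟩
    exact Finset.le_sup (f := id) (Finset.mem_biUnion.2 ⟨i, hi, hn⟩)
  obtain ⟨N2, hN2⟩ : ∃ N2 : ℕ, ∀ n ∈ F, n ≤ N2 :=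
    ⟨F.sup id, fun n hn => Finset.le_sup (f := id) hn⟩
  obtain ⟨m, hm, hDm⟩ := hJ D hD hDx (j₀ + N1 + N2 + 1)
  obtain ⟨k, rfl⟩ : ∃ k, m = k + 1 := ⟨m - 1, by omega⟩
  have hkj : j₀ ≤ k := by omega
  have hk1 : N1 ≤ k := by omega
  have hk2 : N2 ≤ k := by omega
  -- the vector `xb`
  set γ : ℕ →₀ ℚ := (∑ i ∈ range I, ((1 / 2 : ℚ) ^ (i + 1)) • g i) +
    Finsupp.single (k + 1) ((1 / 2 : ℚ) ^ I) with hγ
  set xb := comb f γ with hxb
  have hxb' : xb = (∑ i ∈ range I, (1 / 2 : ℝ) ^ (i + 1) • comb f (g i)) +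
      (1 / 2 : ℝ) ^ I • f (k + 1) := by
    rw [hxb, hγ, comb_add, comb_sum, comb_single]
    congr 1
    · refine Finset.sum_congr rfl fun i _ => ?_
      rw [comb_smul]; push_cast; rfl
    · push_cast; rfl
  have hdist : ‖x - xb‖ ≤ 2 * ε := by
    rw [hxb', ← sub_sub]
    have h1 := hx I
    have h2 : ‖(1 / 2 : ℝ) ^ I • f (k + 1)‖ ≤ (1 / 2 : ℝ) ^ I := by
      rw [norm_smul, norm_pow]
      have := hf1 (k + 1)
      have h3 : ‖(1 / 2 : ℝ)‖ = 1 / 2 := by norm_num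
      rw [h3]
      calc (1 / 2 : ℝ) ^ I * ‖f (k + 1)‖ ≤ (1 / 2 : ℝ) ^ I * 1 := by gcongr
        _ = _ := mul_one _
    calc _ ≤ ‖x - ∑ i ∈ range I, (1 / 2 : ℝ) ^ (i + 1) • comb f (g i)‖ +
        ‖(1 / 2 : ℝ) ^ I • f (k + 1)‖ := norm_sub_le _ _
      _ ≤ _ := by linarith
  have hhalf : ∀ J : ℕ, (∑ i ∈ range J, (1 / 2 : ℚ) ^ (i + 1)) + (1 / 2 : ℚ) ^ J = 1 := by
    intro J
    induction J with
    | zero => simp
    | succ J ih =>
      rw [Finset.sum_range_succ]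
      have h2 : (1 / 2 : ℚ) ^ (J + 1) + (1 / 2 : ℚ) ^ (J + 1) = (1 / 2) ^ J := by ring
      linarith
  have hsum_add : ∀ a b : ℕ →₀ ℚ, ((a + b).sum fun _ q => q) = (a.sum fun _ q => q) +
      (b.sum fun _ q => q) := fun a b =>
    Finsupp.sum_add_index' (fun _ => rfl) (fun _ _ _ => rfl)
  have hγsum : (γ.sum fun _ q => q) = 1 := by
    have hgen : ∀ J : Finset ℕ, ((∑ i ∈ J, ((1 / 2 : ℚ) ^ (i + 1)) • g i).sum fun _ q => q) =
        ∑ i ∈ J, (1 / 2 : ℚ) ^ (i + 1) := by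
      intro J
      induction J using Finset.induction_on with
      | empty => simp
      | insert i J hi ih =>
        rw [Finset.sum_insert hi, Finset.sum_insert hi, hsum_add, ih]
        congr 1
        rw [Finsupp.sum_smul_index (fun _ => rfl)]
        have := (hg i).2.1
        unfold Finsupp.sum at this ⊢
        rw [← Finset.mul_sum, this, mul_one]
    rw [hγ, hsum_add, Finsupp.sum_single_index rfl, hgen]
    exact hhalf I
  have hγpos : ∀ n, 0 ≤ γ n := by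
    intro n
    rw [hγ, Finsupp.add_apply, Finsupp.finsetSum_apply]
    refine add_nonneg (Finset.sum_nonneg fun i _ => ?_) ?_
    · rw [Finsupp.smul_apply, smul_eq_mul]
      exact mul_nonneg (by positivity) ((hg i).1 n)
    · rw [Finsupp.single_apply]; split_ifs <;> positivity
  have hγsupp : ∀ n ∈ γ.support, n ≤ k + 1 := by
    intro n hn
    rw [hγ] at hn
    have h1 := Finsupp.support_add hn
    rw [Finset.mem_union] at h1
    rcases h1 with h1 | h1
    · have h2 := Finsupp.support_finsetSum h1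
      rw [Finset.mem_biUnion] at h2
      obtain ⟨i, hi, h3⟩ := h2
      have h4 := Finsupp.support_smul h3
      have := hN1 i hi n h4
      omega
    · have := Finsupp.support_single_subset h1
      rw [Finset.mem_singleton] at this
      exact this.le
  have hxbn : ‖xb‖ ≤ 1 := by
    rw [ContinuousMap.norm_le _ zero_le_one]
    intro y
    rw [hxb, comb_apply]
    have h3 : ((∑ n ∈ γ.support, γ n : ℚ) : ℝ) = 1 := by
      have := hγsum
      unfold Finsupp.sum at this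
      rw [this]; simp
    push_cast at h3
    unfold Finsupp.sum
    calc ‖∑ n ∈ γ.support, (γ n : ℝ) * f n y‖ ≤ ∑ n ∈ γ.support, ‖(γ n : ℝ) * f n y‖ :=
          norm_sum_le _ _
      _ ≤ ∑ n ∈ γ.support, (γ n : ℝ) := by
          refine Finset.sum_le_sum fun n _ => ?_
          have h4 : (0 : ℝ) ≤ γ n := by exact_mod_cast hγpos n
          rw [norm_mul, Real.norm_of_nonneg h4]
          have h5 := ((f n).norm_coe_le_norm y).trans (hf1 n)
          calc (γ n : ℝ) * ‖f n y‖ ≤ γ n * 1 := by gcongr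
            _ = γ n := mul_one _
      _ = 1 := h3
  -- values of `xb` and `e`
  have hxbY : Y S w xb := comb_Y S u w γ
  have hxb1 : ∀ t, u (k + 1) < t → t ≤ w → xb (S.P t) = 1 := by
    intro t h1 h2
    have := comb_one S u hu w γ k hγsupp t h1 h2
    rw [hxb, this, hγsum]; simp
  obtain ⟨a, ha1, ha2⟩ := comb_step S u hu w huw γ k
  have hen : ‖e‖ ≤ 1 := ind_norm_le _
  have heP0 : ∀ t, t ≤ v → e (S.P t) = 0 := fun t ht =>
    ind_notMem hecl (fun h => h.2 ((S.P_mem t v).2 ht))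
  have heP1 : ∀ t, v < t → t ≤ w → e (S.P t) = 1 := fun t h1 h2 =>
    ind_mem hecl ⟨(S.P_mem t w).2 h2, fun h => absurd (((S.P_mem t v).1 h).trans_lt h1)
      (lt_irrefl _)⟩
  have heY : Y S w e := ⟨ind_notMem hecl (fun h => S.o_mem w h.1), fun t ht =>
    ind_notMem hecl (fun h => ht ((S.P_mem t w).1 h.1))⟩
  have herat : ∀ y, ∃ q : ℚ, e y = q := by
    intro y
    by_cases h : y ∈ S.W w \ S.W v
    · exact ⟨1, by rw [he, ind_mem hecl h]; simp⟩
    · exact ⟨0, by rw [he, ind_notMem hecl h]; simp⟩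
  -- the truncation of `e` to `F`
  have hFcl : IsClopen (S.N '' (F : Set ℕ)) := clopen_fin S _ F.finite_toSet
  set eF : C(K, ℝ) := e * ind (S.N '' (F : Set ℕ)) with heF
  have heFn : ‖eF‖ ≤ 1 := (mul_ind_norm_le e _).trans hen
  have heFF : ∀ n ∈ F, eF (S.N n) = e (S.N n) := by
    intro n hn
    rw [heF, ContinuousMap.mul_apply, ind_mem hFcl ⟨n, hn, rfl⟩, mul_one]
  have heFP : ∀ t, eF (S.P t) = 0 := by
    intro t
    rw [heF, ContinuousMap.mul_apply, ind_notMem hFcl, mul_zero]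
    rintro ⟨n, _, hn⟩
    exact S.N_ne_P n t hn
  have heFo : eF S.o = 0 := by
    rw [heF, ContinuousMap.mul_apply, ind_notMem hFcl, mul_zero]
    rintro ⟨n, _, hn⟩
    exact S.N_ne_o n hn
  have hfF : ∀ n ∈ F, f (k + 1) (S.N n) = 0 := fun n hn =>
    ff_N S u w (k + 1) n (by have := hN2 n hn; omega)
  have hDxb : p x - 2 * C * ε ≤ D xb := by
    have h1 := (abs_le.1 (hDC (x - xb))).2
    rw [map_sub, hDx] at h1
    have h2 : C * ‖x - xb‖ ≤ C * (2 * ε) := by gcongr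
    linarith
  have hpx : ∀ y : C(K, ℝ), p (xb + y) ≤ p (x + y) + 2 * C * ε := by
    intro y
    have h1 := hp.add (x + y) (xb - x)
    have h2 : x + y + (xb - x) = xb + y := by abel
    rw [h2] at h1
    have h3 := hp.upper (xb - x)
    rw [norm_sub_rev] at h3
    have h4 : C * ‖x - xb‖ ≤ C * (2 * ε) := by gcongr
    linarith
  have hτe : ‖(τ : ℝ) • e‖ ≤ 1 := by
    rw [norm_smul, Real.norm_of_nonneg hτ0'.le]
    calc (τ : ℝ) * ‖e‖ ≤ 1 * 1 := by gcongr
      _ = 1 := one_mul _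
  have hτeF : ‖(τ : ℝ) • eF‖ ≤ 1 := by
    rw [norm_smul, Real.norm_of_nonneg hτ0'.le]
    calc (τ : ℝ) * ‖eF‖ ≤ 1 * 1 := by gcongr
      _ = 1 := one_mul _
  have hτf : ‖(τ : ℝ) • f (k + 1)‖ ≤ 1 := by
    rw [norm_smul, Real.norm_of_nonneg hτ0'.le]
    calc (τ : ℝ) * ‖f (k + 1)‖ ≤ 1 * 1 := by gcongr; exact hf1 _
      _ = 1 := one_mul _
  have huv' : u (k + 1) < v := huv _
  -- (A)
  have hA : D (xb + (τ : ℝ) • eF + (τ : ℝ) • f (k + 1)) ≤
      p (xb + (τ : ℝ) • e) + ε * (1 + 3 * ((2 * C + 1) / c + 3)) := by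
    refine transfer S hp G D hD F ε hε hε1 hE hS k (hj₀ k hkj) (xb + (τ : ℝ) • e) (1 + τ)
      ?_ ?_ ⟨a, ha1, ?_⟩ (Or.inl ?_) ?_ _ ?_ ?_ ?_ ?_ ?_
    · refine ⟨?_, fun t ht => ?_⟩
      · simp [hxbY.1, heY.1]
      · simp [hxbY.2 t ht, heY.2 t ht]
    · intro n _
      obtain ⟨q1, h1⟩ := comb_rat S u w γ (S.N n)
      obtain ⟨q2, h2⟩ := herat (S.N n)
      refine ⟨q1 + τ * q2, ?_⟩
      rw [ContinuousMap.add_apply, ContinuousMap.smul_apply, h2, smul_eq_mul]
      push_cast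
      rw [hxb, ← h1]
    · intro t ht
      rw [ContinuousMap.add_apply, ContinuousMap.smul_apply, heP0 t (ht.trans (huv k).le),
        smul_zero, add_zero, hxb, ha2 t ht]
    · intro t h1 h2
      rw [ContinuousMap.add_apply, ContinuousMap.smul_apply, heP1 t h1 h2,
        hxb1 t (huv'.trans h1) h2]
      push_cast; simp
    · calc ‖xb + (τ : ℝ) • e‖ ≤ ‖xb‖ + ‖(τ : ℝ) • e‖ := norm_add_le _ _
        _ ≤ 2 := by linarith
    · calc ‖xb + (τ : ℝ) • eF + (τ : ℝ) • f (k + 1)‖ ≤ ‖xb + (τ : ℝ) • eF‖ + ‖(τ : ℝ) • f (k + 1)‖ :=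
            norm_add_le _ _
        _ ≤ ‖xb‖ + ‖(τ : ℝ) • eF‖ + ‖(τ : ℝ) • f (k + 1)‖ := by gcongr; exact norm_add_le _ _
        _ ≤ 3 := by linarith
    · refine ⟨?_, fun t ht => ?_⟩
      · simp [hxbY.1, heFo, ff_o, hf]
      · simp [hxbY.2 t ht, heFP t, hf, ff_P_zero S u w (k + 1) t (Or.inl ht)]
    · intro n hn
      simp [heFF n hn, hfF n hn]
    · intro t ht
      simp [heFP t, heP0 t (ht.trans (huv k).le), hf,
        ff_P_zero S u w (k + 1) t (Or.inr (ht.trans (hu.monotone (Nat.le_succ k))))]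
    · intro t h1 h2
      have h3 := ff_P_one S u w (k + 1) t h2 (fun h => absurd (h1.trans_le h) (lt_irrefl _))
      simp [heFP t, hxb1 t h1 h2, hf, h3]
  -- (B)
  have hB : D (xb - (τ : ℝ) • eF) ≤
      p (xb + -((τ : ℝ) • e)) + ε * (1 + 3 * ((2 * C + 1) / c + 3)) := by
    refine transfer S hp G D hD F ε hε hε1 hE hS k (hj₀ k hkj) (xb + -((τ : ℝ) • e)) 1
      ?_ ?_ ⟨a, ha1, ?_⟩ (Or.inr ?_) ?_ _ ?_ ?_ ?_ ?_ ?_
    · refine ⟨?_, fun t ht => ?_⟩
      · simp [hxbY.1, heY.1]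
      · simp [hxbY.2 t ht, heY.2 t ht]
    · intro n _
      obtain ⟨q1, h1⟩ := comb_rat S u w γ (S.N n)
      obtain ⟨q2, h2⟩ := herat (S.N n)
      refine ⟨q1 - τ * q2, ?_⟩
      rw [ContinuousMap.add_apply, ContinuousMap.neg_apply, ContinuousMap.smul_apply, h2,
        smul_eq_mul]
      push_cast
      rw [hxb, ← h1]
      ring
    · intro t ht
      rw [ContinuousMap.add_apply, ContinuousMap.neg_apply, ContinuousMap.smul_apply,
        heP0 t (ht.trans (huv k).le), smul_zero, neg_zero, add_zero, hxb, ha2 t ht]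
    · intro t h1 h2
      rw [ContinuousMap.add_apply, ContinuousMap.neg_apply, ContinuousMap.smul_apply, heP0 t h2,
        hxb1 t h1 (h2.trans hvw.le)]
      simp
    · calc ‖xb + -((τ : ℝ) • e)‖ ≤ ‖xb‖ + ‖-((τ : ℝ) • e)‖ := norm_add_le _ _
        _ ≤ 2 := by rw [norm_neg]; linarith
    · calc ‖xb - (τ : ℝ) • eF‖ ≤ ‖xb‖ + ‖(τ : ℝ) • eF‖ := norm_sub_le _ _
        _ ≤ 3 := by linarith
    · refine ⟨?_, fun t ht => ?_⟩
      · simp [hxbY.1, heFo]
      · simp [hxbY.2 t ht, heFP t]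
    · intro n hn
      simp [heFF n hn, sub_eq_add_neg]
    · intro t ht
      simp [heFP t, heP0 t (ht.trans (huv k).le)]
    · intro t h1 h2
      simp [heFP t, hxb1 t h1 h2]
  have hA2 := hpx ((τ : ℝ) • e)
  have hB2 := hpx (-((τ : ℝ) • e))
  rw [← sub_eq_add_neg] at hB2
  rw [← sub_eq_add_neg] at hB hB2
  rw [map_add, map_add, map_smul, map_smul, smul_eq_mul, smul_eq_mul] at hA
  rw [map_sub, map_smul, smul_eq_mul] at hB
  have hlast : (τ : ℝ) * (c / 2) ≤ τ * D (f (k + 1)) := by gcongr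
  rw [hM]
  nlinarith

end Pool.Agent.Helper50.GS
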