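import Pool.Agent.Helper50.GS.Defs
set_option autoImplicit false
namespace Pool.Agent.Helper50.GS

variable {T : Type} [GTree T] {K : Type} [TopologicalSpace K] [CompactSpace K] [T2Space K]

open Finset

theorem ind_norm_le (A : Set K) : ‖ind A‖ ≤ 1 := by
  rw [ContinuousMap.norm_le _ zero_le_one]
  intro k
  by_cases h : IsClopen A
  · by_cases hk : k ∈ A
    · rw [ind_mem h hk]; simp
    · rw [ind_notMem h hk]; simp
  · simp [ind, h]

theorem mul_ind_norm_le (z : C(K, ℝ)) (A : Set K) : ‖z * ind A‖ ≤ ‖z‖ := by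
  calc ‖z * ind A‖ ≤ ‖z‖ * ‖ind A‖ := norm_mul_le _ _
    _ ≤ ‖z‖ * 1 := by gcongr; exact ind_norm_le A
    _ = ‖z‖ := mul_one _

theorem clopen_fin (S : Sp T K) (A : Set ℕ) (hA : A.Finite) : IsClopen (S.N '' A) := by
  constructor
  · exact (hA.image _).isClosed
  · rw [← Set.iUnion_of_singleton_coe (S.N '' A)]
    apply isOpen_iUnion
    rintro ⟨k, n, _, rfl⟩
    exact S.isoN n

theorem comb_add {E : Type*} [AddCommGroup E] [Module ℝ E] (f : ℕ → E) (a b : ℕ →₀ ℚ) :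
    comb f (a + b) = comb f a + comb f b := by
  unfold comb
  rw [Finsupp.sum_add_index']
  · intro n; simp
  · intro n q r; push_cast; rw [add_smul]

theorem comb_smul {E : Type*} [AddCommGroup E] [Module ℝ E] (f : ℕ → E) (a : ℕ →₀ ℚ) (q : ℚ) :
    comb f (q • a) = (q : ℝ) • comb f a := by
  unfold comb
  rw [Finsupp.sum_smul_index', Finsupp.smul_sum]
  · congr 1; ext n r; simp [mul_smul]
  · intro n; simp

theorem comb_single {E : Type*} [AddCommGroup E] [Module ℝ E] (f : ℕ → E) (n : ℕ) (q : ℚ) :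
    comb f (Finsupp.single n q) = (q : ℝ) • f n := by
  unfold comb
  rw [Finsupp.sum_single_index]; simp

theorem comb_sum {E : Type*} [AddCommGroup E] [Module ℝ E] (f : ℕ → E) {ι : Type*} (s : Finset ι)
    (g : ι → ℕ →₀ ℚ) : comb f (∑ i ∈ s, g i) = ∑ i ∈ s, comb f (g i) := by
  classical
  induction s using Finset.induction_on with
  | empty => simp [comb]
  | insert i s hi ih => rw [Finset.sum_insert hi, Finset.sum_insert hi, comb_add, ih]

theorem comb_apply (f : ℕ → C(K, ℝ)) (a : ℕ →₀ ℚ) (k : K) :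
    comb f a k = a.sum fun n q => (q : ℝ) * f n k := by
  unfold comb Finsupp.sum
  rw [ContinuousMap.sum_apply]
  simp

/-- the three pieces estimate -/
theorem piece (S : Sp T K) (D : C(K, ℝ) →ₗ[ℝ] ℝ) (F : Finset ℕ) (ε : ℝ) (hε : 0 ≤ ε)
    (hE : ∀ z : C(K, ℝ), (∀ n ∈ F, z (S.N n) = 0) → (∀ t, z (S.P t) = 0) →
        z S.o = 0 → |D z| ≤ ε * ‖z‖)
    (Z V : Set K) (hZ : IsClopen Z) (hV : IsClopen V)
    (hDZ : ∀ z : C(K, ℝ), (∀ n ∈ F, z (S.N n) = 0) → (∀ k, k ∉ Z → z k = 0) → |D z| ≤ ε * ‖z‖)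
    (hDV : ∀ z : C(K, ℝ), (∀ n ∈ F, z (S.N n) = 0) → (∀ k, k ∉ V → z k = 0) → |D z| ≤ ε * ‖z‖)
    (z : C(K, ℝ)) (h0 : ∀ n ∈ F, z (S.N n) = 0) (ho : z S.o = 0)
    (hP : ∀ t, S.P t ∉ Z → S.P t ∉ V → z (S.P t) = 0) : |D z| ≤ 3 * ε * ‖z‖ := by
  have hVZ : IsClopen (V \ Z) := hV.diff hZ
  have hR : IsClopen (Z ∪ V)ᶜ := (hZ.union hV).compl
  have hdec : z = z * ind Z + z * ind (V \ Z) + z * ind (Z ∪ V)ᶜ := by
    ext k
    simp only [ContinuousMap.add_apply, ContinuousMap.mul_apply]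
    by_cases h1 : k ∈ Z
    · rw [ind_mem hZ h1, ind_notMem hVZ (fun h => h.2 h1), ind_notMem hR (fun h => h (Or.inl h1))]
      ring
    · by_cases h2 : k ∈ V
      · rw [ind_notMem hZ h1, ind_mem hVZ ⟨h2, h1⟩, ind_notMem hR (fun h => h (Or.inr h2))]
        ring
      · rw [ind_notMem hZ h1, ind_notMem hVZ (fun h => h2 h.1),
          ind_mem hR (fun h => h.elim h1 h2)]
        ring
  have e1 : |D (z * ind Z)| ≤ ε * ‖z‖ := by
    refine (hDZ _ (fun n hn => by simp [h0 n hn]) (fun k hk => by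
      simp [ind_notMem hZ hk])).trans ?_
    gcongr; exact mul_ind_norm_le _ _
  have e2 : |D (z * ind (V \ Z))| ≤ ε * ‖z‖ := by
    refine (hDV _ (fun n hn => by simp [h0 n hn]) (fun k hk => by
      simp [ind_notMem hVZ (fun h => hk h.1)])).trans ?_
    gcongr; exact mul_ind_norm_le _ _
  have e3 : |D (z * ind (Z ∪ V)ᶜ)| ≤ ε * ‖z‖ := by
    refine (hE _ (fun n hn => by simp [h0 n hn]) (fun t => ?_) (by simp [ho])).trans ?_
    · by_cases h1 : S.P t ∈ Z
      · rw [ContinuousMap.mul_apply, ind_notMem hR (fun h => h (Or.inl h1)), mul_zero]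
      · by_cases h2 : S.P t ∈ V
        · rw [ContinuousMap.mul_apply, ind_notMem hR (fun h => h (Or.inr h2)), mul_zero]
        · rw [ContinuousMap.mul_apply, hP t h1 h2, zero_mul]
    · gcongr; exact mul_ind_norm_le _ _
  have h4 : D z = D (z * ind Z) + D (z * ind (V \ Z)) + D (z * ind (Z ∪ V)ᶜ) := by
    conv_lhs => rw [hdec]
    simp only [map_add]
  rw [h4]
  have := abs_add_three (D (z * ind Z)) (D (z * ind (V \ Z))) (D (z * ind (Z ∪ V)ᶜ))
  linarith

end Pool.Agent.Helper50.GS
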