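import Pool.Agent.Helper50.GS.Defs
set_option autoImplicit false
namespace Pool.Agent.Helper50.GS

variable {T : Type} [GTree T] {K : Type} [TopologicalSpace K]

/-- GS-D1. `K` is scattered. -/
theorem scattered (S : Sp T K) (A : Set K) (hA : A.Nonempty) :
    ∃ x ∈ A, ∃ U : Set K, IsOpen U ∧ U ∩ A = {x} := by
  by_cases h1 : ∃ n, S.N n ∈ A
  · obtain ⟨n, hn⟩ := h1
    exact ⟨S.N n, hn, {S.N n}, S.isoN n, by
      rw [Set.inter_eq_left]; rintro _ rfl; exact hn⟩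
  by_cases h2 : ∃ t, S.P t ∈ A
  · obtain ⟨s, hs, hmin⟩ := GTree.wf.has_min {t | S.P t ∈ A} h2
    refine ⟨S.P s, hs, S.W s, (S.clopen s).isOpen, ?_⟩
    apply Set.eq_singleton_iff_unique_mem.2
    refine ⟨⟨(S.P_mem s s).2 le_rfl, hs⟩, ?_⟩
    rintro k ⟨hk, hkA⟩
    rcases S.cover k with ⟨n, rfl⟩ | ⟨t, rfl⟩ | rfl
    · exact absurd ⟨n, hkA⟩ h1
    · have hts : t ≤ s := (S.P_mem t s).1 hk
      rcases hts.lt_or_eq with h | h
      · exact absurd h (hmin t hkA)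
      · rw [h]
    · exact absurd hk (S.o_mem s)
  · obtain ⟨k, hk⟩ := hA
    have hall : ∀ x ∈ A, x = S.o := by
      intro x hx
      rcases S.cover x with ⟨n, rfl⟩ | ⟨t, rfl⟩ | h
      · exact absurd ⟨n, hx⟩ h1
      · exact absurd ⟨t, hx⟩ h2
      · exact h
    refine ⟨k, hk, Set.univ, isOpen_univ, ?_⟩
    rw [Set.univ_inter]
    exact Set.eq_singleton_iff_unique_mem.2 ⟨hk, fun x hx => (hall x hx).trans (hall k hk).symm⟩

end Pool.Agent.Helper50.GS
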