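import Pool.Agent.Helper50.GS.Defs
set_option autoImplicit false
namespace Pool.Agent.Helper50.GS

section spex

variable {T : Type} [GTree T]

/-- the closed set of the product defining the space -/
def SpExSet (F : Fam T) : Set (T ⊕ ℕ → Bool) :=
  {p | (∀ m m', m' ≠ m → p (Sum.inr m) = true → p (Sum.inr m') = false) ∧
    (∀ m t, p (Sum.inr m) = true → (p (Sum.inl t) = true ↔ m ∈ F.B t)) ∧
    (∀ s t, s ≤ t → p (Sum.inl s) = true →
      p (Sum.inl t) = true ∨ ∃ m ∈ F.B s \ F.B t, p (Sum.inr m) = true) ∧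
    (∀ s t, ¬ s ≤ t → ¬ t ≤ s → p (Sum.inl s) = true → p (Sum.inl t) = true →
      p (Sum.inl (s ⊓ t)) = true ∨ ∃ m ∈ (F.B s ∩ F.B t) \ F.B (s ⊓ t), p (Sum.inr m) = true)}

lemma spex_isOpen (x : T ⊕ ℕ) (b : Bool) : IsOpen {p : T ⊕ ℕ → Bool | p x = b} :=
  have h : Continuous fun p : T ⊕ ℕ → Bool => p x := continuous_apply x
  (isOpen_discrete ({b} : Set Bool)).preimage h

lemma spex_isClosed (x : T ⊕ ℕ) (b : Bool) : IsClosed {p : T ⊕ ℕ → Bool | p x = b} :=
  have h : Continuous fun p : T ⊕ ℕ → Bool => p x := continuous_apply x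
  (isClosed_discrete ({b} : Set Bool)).preimage h

lemma spex_isClosed_ex {D : Set ℕ} (hD : D.Finite) :
    IsClosed {p : T ⊕ ℕ → Bool | ∃ m ∈ D, p (Sum.inr m) = true} := by
  have : {p : T ⊕ ℕ → Bool | ∃ m ∈ D, p (Sum.inr m) = true} =
      ⋃ m ∈ D, {p : T ⊕ ℕ → Bool | p (Sum.inr m) = true} := by
    ext p; simp
  rw [this]
  exact hD.isClosed_biUnion fun m _ => spex_isClosed _ _

lemma spex_isClosed_imp {A : Set (T ⊕ ℕ → Bool)} (x : T ⊕ ℕ) (hA : IsClosed A) :
    IsClosed {p : T ⊕ ℕ → Bool | p x = true → p ∈ A} := by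
  have : {p : T ⊕ ℕ → Bool | p x = true → p ∈ A} = {p | p x = false} ∪ A := by
    ext p
    simp only [Set.mem_ofPred_eq, Set.mem_union]
    cases p x <;> simp
  rw [this]
  exact (spex_isClosed x false).union hA

lemma spex_closed (F : Fam T) : IsClosed (SpExSet F) := by
  have h1 : IsClosed {p : T ⊕ ℕ → Bool | ∀ m m', m' ≠ m → p (Sum.inr m) = true → p (Sum.inr m') = false} := by
    simp only [Set.ofPred_forall]
    refine isClosed_iInter fun m => isClosed_iInter fun m' => isClosed_iInter fun _ => ?_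
    exact spex_isClosed_imp _ (spex_isClosed (Sum.inr m') false)
  have h2 : IsClosed {p : T ⊕ ℕ → Bool | ∀ m t, p (Sum.inr m) = true → (p (Sum.inl t) = true ↔ m ∈ F.B t)} := by
    simp only [Set.ofPred_forall]
    refine isClosed_iInter fun m => isClosed_iInter fun t => ?_
    refine spex_isClosed_imp (A := {p : T ⊕ ℕ → Bool | (p (Sum.inl t) = true ↔ m ∈ F.B t)}) _ ?_
    by_cases h : m ∈ F.B t
    · simp only [h, iff_true]
      exact spex_isClosed _ _
    · simp only [h, iff_false, Bool.not_eq_true]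
      exact spex_isClosed _ _
  have h3 : IsClosed {p : T ⊕ ℕ → Bool | ∀ s t, s ≤ t → p (Sum.inl s) = true →
      p (Sum.inl t) = true ∨ ∃ m ∈ F.B s \ F.B t, p (Sum.inr m) = true} := by
    simp only [Set.ofPred_forall]
    refine isClosed_iInter fun s => isClosed_iInter fun t => isClosed_iInter fun hst => ?_
    exact spex_isClosed_imp (A := {p | p (Sum.inl t) = true ∨ ∃ m ∈ F.B s \ F.B t, p (Sum.inr m) = true}) _
      ((spex_isClosed _ _).union (spex_isClosed_ex (F.sub s t hst)))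
  have h4 : IsClosed {p : T ⊕ ℕ → Bool | ∀ s t, ¬ s ≤ t → ¬ t ≤ s → p (Sum.inl s) = true → p (Sum.inl t) = true →
      p (Sum.inl (s ⊓ t)) = true ∨ ∃ m ∈ (F.B s ∩ F.B t) \ F.B (s ⊓ t), p (Sum.inr m) = true} := by
    simp only [Set.ofPred_forall]
    refine isClosed_iInter fun s => isClosed_iInter fun t => isClosed_iInter fun hst =>
      isClosed_iInter fun hts => ?_
    exact spex_isClosed_imp (A := {p | p (Sum.inl t) = true → (p (Sum.inl (s ⊓ t)) = true ∨
        ∃ m ∈ (F.B s ∩ F.B t) \ F.B (s ⊓ t), p (Sum.inr m) = true)}) _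
      (spex_isClosed_imp (A := {p | p (Sum.inl (s ⊓ t)) = true ∨
        ∃ m ∈ (F.B s ∩ F.B t) \ F.B (s ⊓ t), p (Sum.inr m) = true}) _
      ((spex_isClosed _ _).union (spex_isClosed_ex (F.meet s t hst hts))))
  have : SpExSet F = {p : T ⊕ ℕ → Bool | ∀ m m', m' ≠ m → p (Sum.inr m) = true → p (Sum.inr m') = false} ∩
    ({p : T ⊕ ℕ → Bool | ∀ m t, p (Sum.inr m) = true → (p (Sum.inl t) = true ↔ m ∈ F.B t)} ∩
    ({p : T ⊕ ℕ → Bool | ∀ s t, s ≤ t → p (Sum.inl s) = true →
      p (Sum.inl t) = true ∨ ∃ m ∈ F.B s \ F.B t, p (Sum.inr m) = true} ∩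
    {p : T ⊕ ℕ → Bool | ∀ s t, ¬ s ≤ t → ¬ t ≤ s → p (Sum.inl s) = true → p (Sum.inl t) = true →
      p (Sum.inl (s ⊓ t)) = true ∨ ∃ m ∈ (F.B s ∩ F.B t) \ F.B (s ⊓ t), p (Sum.inr m) = true})) := rfl
  rw [this]
  exact h1.inter (h2.inter (h3.inter h4))

open Classical in
/-- isolated points -/
noncomputable def spexN (F : Fam T) (n : ℕ) : T ⊕ ℕ → Bool :=
  Sum.elim (fun t => decide (n ∈ F.B t)) (fun m => decide (m = n))

open Classical in
/-- tree points -/
noncomputable def spexP (s : T) : T ⊕ ℕ → Bool :=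
  Sum.elim (fun t => decide (s ≤ t)) (fun _ => false)

lemma spexN_mem (F : Fam T) (n : ℕ) : spexN F n ∈ SpExSet F := by
  refine ⟨?_, ?_, ?_, ?_⟩
  · intro m m' h h1
    simp only [spexN, Sum.elim_inr, decide_eq_true_eq, decide_eq_false_iff_not] at h1 ⊢
    rw [← h1]; exact h
  · intro m t h1
    simp only [spexN, Sum.elim_inr, Sum.elim_inl, decide_eq_true_eq] at h1 ⊢
    rw [h1]
  · intro s t _ h1
    simp only [spexN, Sum.elim_inr, Sum.elim_inl, decide_eq_true_eq] at h1 ⊢
    by_cases h2 : n ∈ F.B t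
    · exact Or.inl h2
    · exact Or.inr ⟨n, ⟨h1, h2⟩, rfl⟩
  · intro s t _ _ h1 h2
    simp only [spexN, Sum.elim_inr, Sum.elim_inl, decide_eq_true_eq] at h1 h2 ⊢
    by_cases h3 : n ∈ F.B (s ⊓ t)
    · exact Or.inl h3
    · exact Or.inr ⟨n, ⟨⟨h1, h2⟩, h3⟩, rfl⟩

lemma spexP_mem (F : Fam T) (s : T) : spexP s ∈ SpExSet F := by
  refine ⟨?_, ?_, ?_, ?_⟩
  · intro m m' h h1
    simp [spexP] at h1
  · intro m t h1
    simp [spexP] at h1
  · intro s' t h h1
    simp only [spexP, Sum.elim_inl, decide_eq_true_eq] at h1 ⊢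
    exact Or.inl (h1.trans h)
  · intro s' t _ _ h1 h2
    simp only [spexP, Sum.elim_inl, decide_eq_true_eq] at h1 h2 ⊢
    exact Or.inl (le_inf h1 h2)

lemma spexo_mem (F : Fam T) : (fun _ => false : T ⊕ ℕ → Bool) ∈ SpExSet F := by
  refine ⟨?_, ?_, ?_, ?_⟩
  · intro m m' h h1; simp at h1
  · intro m t h1; simp at h1
  · intro s t _ h1; simp at h1
  · intro s t _ _ h1; simp at h1

lemma spex_eq_N (F : Fam T) {p : T ⊕ ℕ → Bool} (hp : p ∈ SpExSet F) {n : ℕ}
    (h : p (Sum.inr n) = true) : p = spexN F n := by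
  funext x
  rcases x with t | m
  · have := hp.2.1 n t h
    simp only [spexN, Sum.elim_inl]
    by_cases h2 : n ∈ F.B t
    · rw [this.2 h2]; simp [h2]
    · have h3 : ¬ p (Sum.inl t) = true := fun h3 => h2 (this.1 h3)
      rw [Bool.not_eq_true] at h3
      rw [h3]; simp [h2]
  · simp only [spexN, Sum.elim_inr]
    by_cases h2 : m = n
    · rw [h2, h]; simp
    · rw [hp.1 n m h2 h]; simp [h2]

lemma spex_cover (F : Fam T) {p : T ⊕ ℕ → Bool} (hp : p ∈ SpExSet F) :
    (∃ n, p = spexN F n) ∨ (∃ t, p = spexP t) ∨ p = fun _ => false := by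
  by_cases h : ∃ n, p (Sum.inr n) = true
  · obtain ⟨n, hn⟩ := h
    exact Or.inl ⟨n, spex_eq_N F hp hn⟩
  right
  have h' : ∀ n, p (Sum.inr n) = false := by
    intro n
    rw [← Bool.not_eq_true]
    exact fun hn => h ⟨n, hn⟩
  by_cases hS : ∃ t, p (Sum.inl t) = true
  · left
    let S : Set T := {t | p (Sum.inl t) = true}
    obtain ⟨t, htS, hmin⟩ := GTree.wf.has_min S hS
    refine ⟨t, ?_⟩
    have hup : ∀ t', t ≤ t' → p (Sum.inl t') = true := by
      intro t' ht'
      rcases hp.2.2.1 t t' ht' htS with h1 | ⟨m, -, h1⟩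
      · exact h1
      · rw [h'] at h1; simp at h1
    have hdn : ∀ t', p (Sum.inl t') = true → t ≤ t' := by
      intro t' ht'
      by_contra hc
      by_cases hc' : t' ≤ t
      · have : t' < t := lt_of_le_not_ge hc' hc
        exact hmin t' ht' this
      · rcases hp.2.2.2 t t' hc hc' htS ht' with h1 | ⟨m, -, h1⟩
        · have : t ⊓ t' < t := lt_of_le_not_ge inf_le_left fun h2 => hc (h2.trans inf_le_right)
          exact hmin _ h1 this
        · rw [h'] at h1; simp at h1
    funext x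
    rcases x with t' | m
    · simp only [spexP, Sum.elim_inl]
      by_cases h2 : t ≤ t'
      · rw [hup t' h2]; simp [h2]
      · have h3 : ¬ p (Sum.inl t') = true := fun h3 => h2 (hdn _ h3)
        rw [Bool.not_eq_true] at h3
        rw [h3]; simp [h2]
    · simp only [spexP, Sum.elim_inr]
      exact h' m
  · right
    funext x
    rcases x with t | m
    · rw [← Bool.not_eq_true]
      exact fun h1 => hS ⟨t, h1⟩
    · exact h' m

/-- infinite subset of `B s` almost disjoint from finitely many `B r`, `r < s` -/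
lemma spex_avoid (F : Fam T) (s : T) (R : Finset T) (hR : ∀ r ∈ R, r < s) :
    ∃ D : Set ℕ, D ⊆ F.B s ∧ D.Infinite ∧ ∀ r ∈ R, (D ∩ F.B r).Finite := by
  rcases R.eq_empty_or_nonempty with rfl | hne
  · exact ⟨F.B s, subset_rfl, F.inf s, fun r hr => by simp at hr⟩
  · obtain ⟨r₀, hr₀, hmax⟩ := R.exists_maximal hne
    refine ⟨F.B s \ F.B r₀, Set.sdiff_subset, F.grow r₀ s (hR _ hr₀), fun r hr => ?_⟩
    have hle : r ≤ r₀ := by
      rcases GTree.chain s r r₀ (hR r hr).le (hR r₀ hr₀).le with h | h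
      · exact h
      · exact hmax hr h
    refine (F.sub r r₀ hle).subset ?_
    rintro n ⟨⟨-, h1⟩, h2⟩
    exact ⟨h2, h1⟩

/-- approximation of tree points by isolated points -/
lemma spex_approx (F : Fam T) (s : T) (I : Finset (T ⊕ ℕ)) :
    ∃ n, ∀ x ∈ I, spexN F n x = spexP s x := by
  classical
  let I1 : Finset T := I.preimage Sum.inl Sum.inl_injective.injOn
  let I2 : Finset ℕ := I.preimage Sum.inr Sum.inr_injective.injOn
  let R : Finset T := (I1.filter fun t => ¬ s ≤ t).image fun t => s ⊓ t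
  obtain ⟨D, hDs, hDinf, hD⟩ := spex_avoid F s R (by
    intro r hr
    simp only [R, Finset.mem_image, Finset.mem_filter] at hr
    obtain ⟨t, ⟨-, ht⟩, rfl⟩ := hr
    exact lt_of_le_not_ge inf_le_left fun h2 => ht (h2.trans inf_le_right))
  have hfin : ∀ t ∈ I1, (if s ≤ t then F.B s \ F.B t else D ∩ F.B t).Finite := by
    intro t ht
    split_ifs with hst
    · exact F.sub s t hst
    · have hr : s ⊓ t ∈ R := by
        simp only [R, Finset.mem_image, Finset.mem_filter]
        exact ⟨t, ⟨ht, hst⟩, rfl⟩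
      by_cases hts : t ≤ s
      · have e : s ⊓ t = t := inf_eq_right.2 hts
        rw [e] at hr
        exact hD t hr
      · refine ((F.meet s t hst hts).union (hD _ hr)).subset ?_
        rintro n ⟨h1, h2⟩
        by_cases h3 : n ∈ F.B (s ⊓ t)
        · exact Or.inr ⟨h1, h3⟩
        · exact Or.inl ⟨⟨hDs h1, h2⟩, h3⟩
  have hbad : ((⋃ t ∈ I1, (if s ≤ t then F.B s \ F.B t else D ∩ F.B t)) ∪ (I2 : Set ℕ)).Finite :=
    (I1.finite_toSet.biUnion hfin).union I2.finite_toSet
  obtain ⟨n, hnD, hn⟩ := (hDinf.sdiff hbad).nonempty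
  refine ⟨n, fun x hx => ?_⟩
  simp only [Set.mem_union, not_or] at hn
  rcases x with t | m
  · have ht : t ∈ I1 := by simpa [I1] using hx
    have h1 : n ∉ (if s ≤ t then F.B s \ F.B t else D ∩ F.B t) := fun h =>
      hn.1 (Set.mem_biUnion ht h)
    simp only [spexN, spexP, Sum.elim_inl]
    by_cases hst : s ≤ t
    · rw [if_pos hst] at h1
      have h2 : n ∈ F.B t := by
        by_contra h3
        exact h1 ⟨hDs hnD, h3⟩
      simp [hst, h2]
    · rw [if_neg hst] at h1
      have h2 : n ∉ F.B t := fun h3 => h1 ⟨hnD, h3⟩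
      simp [hst, h2]
  · have hm : m ∈ I2 := by simpa [I2] using hx
    simp only [spexN, spexP, Sum.elim_inr]
    have : m ≠ n := by
      rintro rfl
      exact hn.2 hm
    simp [this]

/-- approximation of the point at infinity by tree points -/
lemma spex_approx_o [Nonempty T] (I : Finset (T ⊕ ℕ)) :
    ∃ s : T, ∀ x ∈ I, spexP s x = false := by
  classical
  obtain ⟨t₀⟩ := ‹Nonempty T›
  let I1 : Finset T := I.preimage Sum.inl Sum.inl_injective.injOn
  have : ∃ i : ℕ, ∀ t ∈ I1, ¬ GTree.suc t₀ i ≤ t := by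
    by_contra hc
    push Not at hc
    choose f hf hle using hc
    let g : ℕ → I1 := fun i => ⟨f i, hf i⟩
    obtain ⟨i, j, hij, hg⟩ := Finite.exists_ne_map_eq_of_infinite g
    have he : f i = f j := congrArg Subtype.val hg
    apply hij
    rw [← GTree.lab_suc t₀ i, ← GTree.lab_suc t₀ j,
      GTree.lab_coh t₀ _ _ (GTree.lt_suc t₀ i) (hle i),
      GTree.lab_coh t₀ _ _ (GTree.lt_suc t₀ j) (hle j), he]
  obtain ⟨i, hi⟩ := this
  refine ⟨GTree.suc t₀ i, fun x hx => ?_⟩
  rcases x with t | m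
  · have ht : t ∈ I1 := by simpa [I1] using hx
    simp [spexP, hi t ht]
  · simp [spexP]

end spex

/-- GS-C. The compact space. -/
theorem exists_space (T : Type) [GTree T] [Nonempty T] (F : Fam T) :
    ∃ (K : Type) (_ : TopologicalSpace K) (_ : CompactSpace K) (_ : T2Space K),
      Nonempty (Sp T K) := by
  classical
  have hcomp : IsCompact (SpExSet F) := (spex_closed F).isCompact
  refine ⟨SpExSet F, inferInstance, isCompact_iff_compactSpace.1 hcomp, inferInstance, ⟨?_⟩⟩
  refine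
    { N := fun n => ⟨spexN F n, spexN_mem F n⟩
      P := fun t => ⟨spexP t, spexP_mem F t⟩
      o := ⟨fun _ => false, spexo_mem F⟩
      W := fun t => {p | p.1 (Sum.inl t) = true}
      clopen := fun t => ⟨(spex_isClosed (Sum.inl t) true).preimage continuous_subtype_val,
        (spex_isOpen (Sum.inl t) true).preimage continuous_subtype_val⟩
      isoN := ?_
      N_inj := ?_
      cover := ?_
      P_mem := ?_
      o_mem := ?_
      N_ne_P := ?_
      N_ne_o := ?_
      dense := ?_ }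
  · intro n
    have : ({⟨spexN F n, spexN_mem F n⟩} : Set (SpExSet F)) = {p | p.1 (Sum.inr n) = true} := by
      ext p
      simp only [Set.mem_singleton_iff, Set.mem_ofPred_eq]
      constructor
      · rintro rfl
        simp [spexN]
      · intro h
        exact Subtype.ext (spex_eq_N F p.2 h)
    rw [this]
    exact (spex_isOpen (Sum.inr n) true).preimage continuous_subtype_val
  · intro n m h
    have h0 : spexN F n = spexN F m := congrArg Subtype.val h
    have h1 : spexN F n (Sum.inr n) = spexN F m (Sum.inr n) := by rw [h0]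
    simpa [spexN] using h1
  · rintro ⟨p, hp⟩
    rcases spex_cover F hp with ⟨n, h⟩ | ⟨t, h⟩ | h
    · exact Or.inl ⟨n, Subtype.ext h⟩
    · exact Or.inr (Or.inl ⟨t, Subtype.ext h⟩)
    · exact Or.inr (Or.inr (Subtype.ext h))
  · intro s t
    simp [spexP]
  · intro t
    simp
  · intro n t h
    have h0 : spexN F n = spexP t := congrArg Subtype.val h
    have h1 : spexN F n (Sum.inr n) = spexP t (Sum.inr n) := by rw [h0]
    simp [spexN, spexP] at h1
  · intro n h
    have h1 : spexN F n (Sum.inr n) = false := congrFun (congrArg Subtype.val h) (Sum.inr n)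
    simp [spexN] at h1
  · have key : ∀ (k : SpExSet F) (I : Finset (T ⊕ ℕ)), ∃ n, ∀ x ∈ I, spexN F n x = k.1 x := by
      rintro ⟨p, hp⟩ I
      rcases spex_cover F hp with ⟨n, h⟩ | ⟨t, h⟩ | h
      · exact ⟨n, fun x _ => by simp only [h]⟩
      · obtain ⟨n, hn⟩ := spex_approx F t I
        exact ⟨n, fun x hx => by simp only [h]; exact hn x hx⟩
      · obtain ⟨s, hs⟩ := spex_approx_o I
        obtain ⟨n, hn⟩ := spex_approx F s I
        exact ⟨n, fun x hx => by simp only [h]; rw [hn x hx, hs x hx]⟩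
    rw [dense_iff_inter_open]
    rintro U hU ⟨k, hk⟩
    obtain ⟨V, hV, rfl⟩ := isOpen_induced_iff.1 hU
    obtain ⟨I, u, hu, hsub⟩ := isOpen_pi_iff.1 hV k.1 hk
    obtain ⟨n, hn⟩ := key k I
    refine ⟨⟨spexN F n, spexN_mem F n⟩, ?_, ⟨n, rfl⟩⟩
    apply hsub
    intro x hx
    rw [Finset.mem_coe] at hx
    simp only
    rw [hn x hx]
    exact (hu x hx).2

end Pool.Agent.Helper50.GS
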