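import Pool.Agent.Helper50.GS.Defs
set_option autoImplicit false
namespace Pool.Agent.Helper50.GS

variable {T : Type} [GTree T] {K : Type} [TopologicalSpace K]

private theorem strict_mem [CompactSpace K] (S : Sp T K) (f : C(K, ℝ)) :
    Memℓp (fun n : ℕ => (1 / 2 : ℝ) ^ n * f (S.N n)) 2 := by
  apply memℓp_gen
  have h1 : Summable (fun n : ℕ => ‖f‖ ^ 2 * (1 / 4 : ℝ) ^ n) :=
    (summable_geometric_of_lt_one (by norm_num) (by norm_num)).mul_left _
  refine Summable.of_nonneg_of_le (fun n => by positivity) (fun n => ?_) h1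
  have h2 : ‖f (S.N n)‖ ≤ ‖f‖ := f.norm_coe_le_norm _
  have h3 : ((2 : ENNReal).toReal) = ((2 : ℕ) : ℝ) := by norm_num
  rw [h3, Real.rpow_natCast, norm_mul, mul_pow, norm_pow, ← pow_mul, mul_comm n 2, pow_mul]
  have h4 : ‖(1 / 2 : ℝ)‖ ^ 2 = 1 / 4 := by norm_num
  rw [h4, mul_comm]
  gcongr

private noncomputable def strictS [CompactSpace K] (S : Sp T K) (f : C(K, ℝ)) :
    lp (fun _ : ℕ => ℝ) 2 := ⟨fun n : ℕ => (1 / 2 : ℝ) ^ n * f (S.N n), strict_mem S f⟩

private theorem strictS_apply [CompactSpace K] (S : Sp T K) (f : C(K, ℝ)) (n : ℕ) :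
    strictS S f n = (1 / 2 : ℝ) ^ n * f (S.N n) := rfl

private theorem strictS_add [CompactSpace K] (S : Sp T K) (f g : C(K, ℝ)) :
    strictS S (f + g) = strictS S f + strictS S g := by
  ext n
  simp [strictS_apply, mul_add]

private theorem strictS_smul [CompactSpace K] (S : Sp T K) (a : ℝ) (f : C(K, ℝ)) :
    strictS S (a • f) = a • strictS S f := by
  ext n
  simp [strictS_apply, mul_left_comm]

private theorem strictS_inj [CompactSpace K] (S : Sp T K) {f g : C(K, ℝ)}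
    (h : strictS S f = strictS S g) : f = g := by
  have h1 : Set.EqOn f g (Set.range S.N) := by
    rintro _ ⟨n, rfl⟩
    have := congrArg (fun x : lp (fun _ : ℕ => ℝ) 2 => x n) h
    simp only [strictS_apply] at this
    exact mul_left_cancel₀ (by positivity) this
  have h2 := Continuous.ext_on S.dense f.continuous g.continuous h1
  exact DFunLike.coe_injective h2

private theorem strictS_norm [CompactSpace K] (S : Sp T K) (f : C(K, ℝ)) :
    ‖strictS S f‖ ≤ 2 * ‖f‖ := by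
  apply lp.norm_le_of_tsum_le (by norm_num) (by positivity)
  have h3 : ((2 : ENNReal).toReal) = ((2 : ℕ) : ℝ) := by norm_num
  simp only [h3, Real.rpow_natCast]
  have h1 : HasSum (fun n : ℕ => ‖f‖ ^ 2 * (1 / 4 : ℝ) ^ n) (‖f‖ ^ 2 * (1 - 1 / 4)⁻¹) :=
    (hasSum_geometric_of_lt_one (by norm_num) (by norm_num)).mul_left _
  have h5 : ∀ n, ‖strictS S f n‖ ^ 2 ≤ ‖f‖ ^ 2 * (1 / 4 : ℝ) ^ n := by
    intro n
    have h2 : ‖f (S.N n)‖ ≤ ‖f‖ := f.norm_coe_le_norm _
    rw [strictS_apply, norm_mul, mul_pow, norm_pow, ← pow_mul, mul_comm n 2, pow_mul]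
    have h4 : ‖(1 / 2 : ℝ)‖ ^ 2 = 1 / 4 := by norm_num
    rw [h4, mul_comm]
    gcongr
  have h6 : Summable (fun n => ‖strictS S f n‖ ^ 2) :=
    Summable.of_nonneg_of_le (fun n => by positivity) h5 h1.summable
  have h7 := h6.tsum_le_tsum h5 h1.summable
  rw [h1.tsum_eq] at h7
  refine h7.trans ?_
  nlinarith [sq_nonneg ‖f‖]

/-- GS-D2. `C(K)` has an equivalent strictly convex norm because `K` is separable. -/
theorem strict [CompactSpace K] (S : Sp T K) :
    ∃ N : C(K, ℝ) → ℝ,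
      (∀ f g : C(K, ℝ), N (f + g) ≤ N f + N g) ∧
      (∀ (a : ℝ) (f : C(K, ℝ)), N (a • f) = |a| * N f) ∧
      (∃ c C : ℝ, 0 < c ∧ 0 < C ∧ ∀ f : C(K, ℝ), c * ‖f‖ ≤ N f ∧ N f ≤ C * ‖f‖) ∧
      (∀ f g : C(K, ℝ), N f = 1 → N g = 1 → f ≠ g → N (f + g) < 2) := by
  have hadd : ∀ f g : C(K, ℝ), ‖f + g‖ + ‖strictS S (f + g)‖ ≤
      (‖f‖ + ‖strictS S f‖) + (‖g‖ + ‖strictS S g‖) := by
    intro f g
    have h1 := norm_add_le f g
    have h2 := norm_add_le (strictS S f) (strictS S g)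
    rw [← strictS_add] at h2
    linarith
  have hsm : ∀ (a : ℝ) (f : C(K, ℝ)), ‖a • f‖ + ‖strictS S (a • f)‖ =
      |a| * (‖f‖ + ‖strictS S f‖) := by
    intro a f
    rw [strictS_smul, norm_smul, norm_smul, Real.norm_eq_abs, mul_add]
  refine ⟨fun f => ‖f‖ + ‖strictS S f‖, hadd, hsm, ⟨1, 3, one_pos, by norm_num, fun f => ?_⟩, ?_⟩
  · have h1 := strictS_norm S f
    have h2 := norm_nonneg (strictS S f)
    constructor <;> simp only <;> linarith
  · intro f g hf hg hfg
    simp only at hf hg ⊢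
    refine lt_of_le_of_ne (by have := hadd f g; linarith) fun h2 => hfg ?_
    have h3 := norm_add_le f g
    have h4 := norm_add_le (strictS S f) (strictS S g)
    rw [← strictS_add] at h4
    have h5 : ‖strictS S f + strictS S g‖ = ‖strictS S f‖ + ‖strictS S g‖ := by
      rw [← strictS_add]; linarith
    have hne : ∀ k : C(K, ℝ), ‖k‖ + ‖strictS S k‖ = 1 → strictS S k ≠ 0 := by
      intro k hk h0
      have h6 : strictS S (0 : C(K, ℝ)) = 0 := by
        have := strictS_smul S 0 (0 : C(K, ℝ))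
        simpa using this
      have h7 : k = 0 := strictS_inj S (h0.trans h6.symm)
      rw [h7, h6] at hk
      simp at hk
    obtain ⟨r, hr, hr2⟩ := (sameRay_iff_norm_add.mpr h5).exists_pos_left (hne f hf) (hne g hg)
    rw [← strictS_smul] at hr2
    have h8 := strictS_inj S hr2
    have h9 := hsm r f
    rw [h8, hf, hg, abs_of_pos hr, mul_one] at h9
    rw [← h9, one_smul] at h8
    exact h8

end Pool.Agent.Helper50.GS
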