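import Pool.Agent.Helper50.GS.Tree
import Pool.Agent.Helper50.GS.FamEx
import Pool.Agent.Helper50.GS.SpEx
import Pool.Agent.Helper50.GS.Scat
import Pool.Agent.Helper50.GS.Strict
import Pool.Agent.Helper50.GS.Final
set_option autoImplicit false
namespace Pool.Agent.Helper50.GS

theorem no_gateaux {T : Type} [GTree T] [Nonempty T] {K : Type} [TopologicalSpace K]
    [CompactSpace K] [T2Space K] (S : Sp T K) {p : C(K, ℝ) → ℝ} {c C : ℝ} (hp : EN p c C)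
    (hG : ∀ f : C(K, ℝ), f ≠ 0 →
      ∃ L : C(K, ℝ) →L[ℝ] ℝ, ∀ v : C(K, ℝ), HasLineDerivAt ℝ p (L v) f v) : False := by
  obtain ⟨x, e, hx, θ, hθ, H⟩ := corner S hp
  obtain ⟨L, hL⟩ := hG x hx
  have h1 := (hL e)
  have h2 := (hL (-e))
  rw [HasLineDerivAt, hasDerivAt_iff_tendsto_slope_zero] at h1 h2
  simp only [zero_add, zero_smul, add_zero, map_neg] at h1 h2
  have hs : Filter.Tendsto (fun n : ℕ => (1 / ((n : ℝ) + 1))) Filter.atTop (nhdsWithin 0 {0}ᶜ) := by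
    rw [tendsto_nhdsWithin_iff]
    refine ⟨tendsto_one_div_add_atTop_nhds_zero_nat, Filter.Eventually.of_forall fun n => ?_⟩
    have : (0 : ℝ) < 1 / ((n : ℝ) + 1) := by positivity
    simpa using this.ne'
  have h3 := (h1.comp hs).add (h2.comp hs)
  rw [add_neg_cancel] at h3
  have h4 : ∀ n : ℕ, θ ≤ ((fun t : ℝ => t⁻¹ • (p (x + t • e) - p x)) ∘
      fun n : ℕ => (1 / ((n : ℝ) + 1))) n + ((fun t : ℝ => t⁻¹ • (p (x + t • -e) - p x)) ∘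
      fun n : ℕ => (1 / ((n : ℝ) + 1))) n := by
    intro n
    have hpos : (0 : ℝ) < 1 / ((n : ℝ) + 1) := by positivity
    have := H (1 / ((n : ℚ) + 1)) (by positivity) (by
      rw [div_le_one (by positivity)]; linarith [(Nat.cast_nonneg n : (0 : ℚ) ≤ n)])
    push_cast at this
    simp only [Function.comp, smul_eq_mul, smul_neg]
    rw [← sub_eq_add_neg, ← mul_add, inv_mul_eq_div, le_div_iff₀ hpos]
    nlinarith [this]
  have h5 := ge_of_tendsto' h3 h4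
  linarith

theorem main_result :
    ¬ (∀ (K : Type) [TopologicalSpace K] [CompactSpace K] [T2Space K],
      (∀ S : Set K, S.Nonempty → ∃ x ∈ S, ∃ U : Set K, IsOpen U ∧ U ∩ S = {x}) →
      (∃ N : C(K, ℝ) → ℝ,
          (∀ f g : C(K, ℝ), N (f + g) ≤ N f + N g) ∧
          (∀ (a : ℝ) (f : C(K, ℝ)), N (a • f) = |a| * N f) ∧
          (∃ c C : ℝ, 0 < c ∧ 0 < C ∧ ∀ f : C(K, ℝ), c * ‖f‖ ≤ N f ∧ N f ≤ C * ‖f‖) ∧
          (∀ f g : C(K, ℝ), N f = 1 → N g = 1 → f ≠ g → N (f + g) < 2)) →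
      (∃ N : C(K, ℝ) → ℝ,
          (∀ f g : C(K, ℝ), N (f + g) ≤ N f + N g) ∧
          (∀ (a : ℝ) (f : C(K, ℝ)), N (a • f) = |a| * N f) ∧
          (∃ c C : ℝ, 0 < c ∧ 0 < C ∧ ∀ f : C(K, ℝ), c * ‖f‖ ≤ N f ∧ N f ≤ C * ‖f‖) ∧
          (∀ f : C(K, ℝ), f ≠ 0 →
            ∃ L : C(K, ℝ) →L[ℝ] ℝ, ∀ v : C(K, ℝ), HasLineDerivAt ℝ N (L v) f v))) := by
  intro H
  obtain ⟨T, hT, hne⟩ := exists_tree
  obtain ⟨Fm⟩ := exists_fam T
  obtain ⟨K, i1, i2, i3, ⟨S⟩⟩ := exists_space T Fm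
  obtain ⟨p, h1, h2, ⟨c, C, hc, hC, hcC⟩, h4⟩ := H K (scattered S) (strict S)
  exact no_gateaux S (p := p) (c := c) (C := C)
    ⟨h1, h2, hc, hC, fun f => (hcC f).1, fun f => (hcC f).2⟩ h4

end Pool.Agent.Helper50.GS
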