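import Pool.Agent.Helper50.GS.Defs
set_option autoImplicit false
namespace Pool.Agent.Helper50.GS

variable {T : Type} [GTree T]

private lemma mono_step (t₀ : T) (φ : T → ℝ) (hb : ∃ C, ∀ a, t₀ < a → φ a ≤ C) (t : T)
    (ht : t₀ < t) (δ : ℝ) (hδ : 0 < δ) :
    ∃ t', t ≤ t' ∧ ∀ s, t ≤ s → φ s ≤ φ t' + δ := by
  obtain ⟨C, hC⟩ := hb
  set S : Set ℝ := {y | ∃ s, t ≤ s ∧ φ s = y} with hS
  have hne : S.Nonempty := ⟨φ t, t, le_rfl, rfl⟩
  have hbd : BddAbove S := by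
    refine ⟨C, ?_⟩
    rintro y ⟨s, hs, rfl⟩
    exact hC s (ht.trans_le hs)
  obtain ⟨y, ⟨t', ht', rfl⟩, hy⟩ := exists_lt_of_lt_csSup hne
    (sub_lt_self (sSup S) hδ)
  refine ⟨t', ht', fun s hs => ?_⟩
  have := le_csSup hbd ⟨s, hs, rfl⟩
  linarith

/-- GS-E1. Countably many bounded increasing real functions are constant above some node. -/
theorem mono_const (t₀ : T) {ι : Type} [Countable ι] (φ : ι → T → ℝ)
    (hm : ∀ i a b, t₀ < a → a ≤ b → φ i a ≤ φ i b) (hb : ∀ i, ∃ C, ∀ a, t₀ < a → φ i a ≤ C) :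
    ∃ b, t₀ < b ∧ ∀ i b', b ≤ b' → φ i b' = φ i b := by
  classical
  rcases isEmpty_or_nonempty ι with hι | hι
  · exact ⟨GTree.suc t₀ 0, GTree.lt_suc _ _, fun i => (hι.false i).elim⟩
  obtain ⟨g, hg⟩ := exists_surjective_nat ι
  have hstep : ∀ (k : ℕ) (t : {t : T // t₀ < t}), ∃ t' : {t : T // t₀ < t}, t.1 ≤ t'.1 ∧
      ∀ s, t.1 ≤ s → φ (g k.unpair.1) s ≤ φ (g k.unpair.1) t'.1 + 1 / ((k : ℝ) + 1) := by
    intro k t
    obtain ⟨t', h1, h2⟩ := mono_step t₀ (φ (g k.unpair.1)) (hb _) t.1 t.2 (1 / ((k : ℝ) + 1))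
      (by positivity)
    exact ⟨⟨t', t.2.trans_le h1⟩, h1, h2⟩
  choose nx hnx1 hnx2 using hstep
  let u : ℕ → {t : T // t₀ < t} := fun n =>
    Nat.rec ⟨GTree.suc t₀ 0, GTree.lt_suc _ _⟩ (fun k t => nx k t) n
  have hu : ∀ k, u (k + 1) = nx k (u k) := fun _ => rfl
  have hmono : Monotone (fun n => (u n).1) := by
    refine monotone_nat_of_le_succ fun n => ?_
    rw [hu n]
    exact hnx1 n (u n)
  obtain ⟨b, hbu⟩ := GTree.ub (fun n => (u n).1) hmono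
  have htb : t₀ < b := (u 0).2.trans_le (hbu 0)
  refine ⟨b, htb, fun i b' hb' => le_antisymm ?_ (hm i b b' htb hb')⟩
  obtain ⟨j, rfl⟩ := hg i
  refine le_of_forall_pos_le_add fun ε hε => ?_
  obtain ⟨n, hn⟩ := exists_nat_one_div_lt hε
  set k := Nat.pair j n with hk
  have hkn : n ≤ k := Nat.right_le_pair j n
  have hkj : k.unpair.1 = j := by rw [hk, Nat.unpair_pair]
  have h1 := hnx2 k (u k) b' ((hbu k).trans hb')
  rw [hkj, ← hu k] at h1
  have h2 := hm (g j) (u (k + 1)).1 b (u (k + 1)).2 (hbu (k + 1))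
  have h3 : 1 / ((k : ℝ) + 1) ≤ 1 / ((n : ℝ) + 1) := by
    apply one_div_le_one_div_of_le (by positivity)
    have : (n : ℝ) ≤ k := by exact_mod_cast hkn
    linarith
  linarith

end Pool.Agent.Helper50.GS
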