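import Pool.Agent.Helper50.GS.Mono
set_option autoImplicit false
namespace Pool.Agent.Helper50.GS

variable {T : Type} [GTree T] {K : Type} [TopologicalSpace K] [CompactSpace K]

/-- admissible functions -/
def StabAdm (S : Sp T K) (v a b : T) (F : Finset ℕ) (r : ℕ → ℝ) (f : T → ℝ) (s : ℝ)
    (x : C(K, ℝ)) : Prop :=
  (∃ w', b ≤ w' ∧ Y S w' x) ∧ (∀ n ∈ F, x (S.N n) = r n) ∧ (∀ t, t ≤ v → x (S.P t) = f t) ∧
    ∀ t, a < t → t ≤ b → x (S.P t) = s

/-- countable set of data -/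
abbrev StabData (T : Type) [GTree T] (v : T) : Type :=
  Finset ℕ × (ℕ →₀ ℚ) × {a : T →₀ ℚ // ∀ r ∈ a.support, r ≤ v} × ℚ × ℕ

theorem stab_countable (v : T) : Countable (StabData T v) := by
  have h1 : Countable {t : T // t ≤ v} := (GTree.cble v).to_subtype
  have h2 : Countable {a : T →₀ ℚ // ∀ r ∈ a.support, r ≤ v} := by
    refine Function.Injective.countable
      (f := fun a : {a : T →₀ ℚ // ∀ r ∈ a.support, r ≤ v} =>
        (a.1.subtypeDomain (fun t => t ≤ v) : {t : T // t ≤ v} →₀ ℚ)) ?_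
    rintro ⟨a, ha⟩ ⟨b, hb⟩ h
    simp only [Subtype.mk.injEq]
    ext t
    by_cases ht : t ≤ v
    · exact DFunLike.congr_fun h ⟨t, ht⟩
    · have h1 : a t = 0 := by
        by_contra h0
        exact ht (ha t (Finsupp.mem_support_iff.2 h0))
      have h2 : b t = 0 := by
        by_contra h0
        exact ht (hb t (Finsupp.mem_support_iff.2 h0))
      rw [h1, h2]
  infer_instance

/-- the set of values, with a cap -/
def StabSet (S : Sp T K) (p : C(K, ℝ) → ℝ) (v a b : T) (d : StabData T v) : Set ℝ :=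
  insert ((d.2.2.2.2 : ℕ) : ℝ)
    (p '' {x | StabAdm S v a b d.1 (fun n => ((d.2.1 n : ℚ) : ℝ)) (stepQ d.2.2.1.1)
      ((d.2.2.2.1 : ℚ) : ℝ) x})

noncomputable def StabL (S : Sp T K) (p : C(K, ℝ) → ℝ) (v a b : T) (d : StabData T v) : ℝ :=
  sInf (StabSet S p v a b d)

theorem stab_nonneg {p : C(K, ℝ) → ℝ} {c C : ℝ} (hp : EN p c C) (x : C(K, ℝ)) : 0 ≤ p x :=
  le_trans (mul_nonneg hp.cpos.le (norm_nonneg x)) (hp.lower x)

theorem stabSet_bdd (S : Sp T K) {p : C(K, ℝ) → ℝ} {c C : ℝ} (hp : EN p c C) (v a b : T)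
    (d : StabData T v) : BddBelow (StabSet S p v a b d) := by
  refine ⟨0, ?_⟩
  rintro y (rfl | ⟨x, -, rfl⟩)
  · exact Nat.cast_nonneg _
  · exact stab_nonneg hp x

theorem stabL_le_cap (S : Sp T K) {p : C(K, ℝ) → ℝ} {c C : ℝ} (hp : EN p c C) (v a b : T)
    (d : StabData T v) : StabL S p v a b d ≤ ((d.2.2.2.2 : ℕ) : ℝ) :=
  csInf_le (stabSet_bdd S hp v a b d) (Set.mem_insert _ _)

theorem stabL_le (S : Sp T K) {p : C(K, ℝ) → ℝ} {c C : ℝ} (hp : EN p c C) (v a b : T)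
    (d : StabData T v) (x : C(K, ℝ))
    (hx : StabAdm S v a b d.1 (fun n => ((d.2.1 n : ℚ) : ℝ)) (stepQ d.2.2.1.1)
      ((d.2.2.2.1 : ℚ) : ℝ) x) : StabL S p v a b d ≤ p x :=
  csInf_le (stabSet_bdd S hp v a b d) (Set.mem_insert_of_mem _ ⟨x, hx, rfl⟩)

theorem stabL_mono (S : Sp T K) {p : C(K, ℝ) → ℝ} {c C : ℝ} (hp : EN p c C) (v : T)
    (d : StabData T v) {a a' b b' : T} (ha : a ≤ a') (hb : b' ≤ b) :
    StabL S p v a' b' d ≤ StabL S p v a b d := by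
  refine csInf_le_csInf (stabSet_bdd S hp v a' b' d) ⟨_, Set.mem_insert _ _⟩ ?_
  refine Set.insert_subset_insert (Set.image_mono ?_)
  rintro x ⟨⟨w', hw', hY⟩, h2, h3, h4⟩
  exact ⟨⟨w', hb.trans hw', hY⟩, h2, h3, fun t ht ht' => h4 t (lt_of_le_of_lt ha ht) (ht'.trans hb)⟩

noncomputable def StabM (S : Sp T K) (p : C(K, ℝ) → ℝ) (v a : T) (d : StabData T v) : ℝ :=
  sSup ((fun b => StabL S p v a b d) '' {b | a < b})

theorem stabM_bdd (S : Sp T K) {p : C(K, ℝ) → ℝ} {c C : ℝ} (hp : EN p c C) (v a : T)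
    (d : StabData T v) : BddAbove ((fun b => StabL S p v a b d) '' {b | a < b}) := by
  refine ⟨((d.2.2.2.2 : ℕ) : ℝ), ?_⟩
  rintro y ⟨b, -, rfl⟩
  exact stabL_le_cap S hp v a b d

theorem stabL_nonneg (S : Sp T K) {p : C(K, ℝ) → ℝ} {c C : ℝ} (hp : EN p c C) (v a b : T)
    (d : StabData T v) : 0 ≤ StabL S p v a b d := by
  refine le_csInf ⟨_, Set.mem_insert _ _⟩ ?_
  rintro y (rfl | ⟨x, -, rfl⟩)
  · exact Nat.cast_nonneg _
  · exact stab_nonneg hp x

theorem stabL_le_M (S : Sp T K) {p : C(K, ℝ) → ℝ} {c C : ℝ} (hp : EN p c C) (v : T) {a b : T}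
    (d : StabData T v) (hab : a < b) : StabL S p v a b d ≤ StabM S p v a d :=
  le_csSup (stabM_bdd S hp v a d) ⟨b, hab, rfl⟩

theorem stabM_le (S : Sp T K) {p : C(K, ℝ) → ℝ} (v a : T)
    (d : StabData T v) (y : ℝ) (h : ∀ b, a < b → StabL S p v a b d ≤ y) :
    StabM S p v a d ≤ y := by
  refine csSup_le ⟨_, GTree.suc a 0, GTree.lt_suc a 0, rfl⟩ ?_
  rintro z ⟨b, hb, rfl⟩
  exact h b hb

theorem stabM_anti (S : Sp T K) {p : C(K, ℝ) → ℝ} {c C : ℝ} (hp : EN p c C) (v : T)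
    (d : StabData T v) {a a' : T} (ha : a ≤ a') : StabM S p v a' d ≤ StabM S p v a d :=
  stabM_le S v a' d _ fun b hb =>
    (stabL_mono S hp v d ha le_rfl).trans (stabL_le_M S hp v d (lt_of_le_of_lt ha hb))

theorem stabM_nonneg (S : Sp T K) {p : C(K, ℝ) → ℝ} {c C : ℝ} (hp : EN p c C) (v a : T)
    (d : StabData T v) : 0 ≤ StabM S p v a d :=
  (stabL_nonneg S hp v a _ d).trans (stabL_le_M S hp v d (GTree.lt_suc a 0))

/-- `M` is constant above `a` -/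
def StabP (S : Sp T K) (p : C(K, ℝ) → ℝ) (v a : T) : Prop :=
  ∀ (d : StabData T v) (a' : T), a ≤ a' → StabM S p v a' d = StabM S p v a d

/-- `L` is constant above `b` -/
def StabQ (S : Sp T K) (p : C(K, ℝ) → ℝ) (v a b : T) : Prop :=
  ∀ (d : StabData T v) (b' : T), b ≤ b' → StabL S p v a b' d = StabL S p v a b d

theorem stabP_up (S : Sp T K) {p : C(K, ℝ) → ℝ} {v a a' : T} (h : StabP S p v a) (ha : a ≤ a') :
    StabP S p v a' := fun d a'' ha' => by rw [h d a'' (ha.trans ha'), h d a' ha]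

theorem stab_exP (S : Sp T K) {p : C(K, ℝ) → ℝ} {c C : ℝ} (hp : EN p c C) (v t₀ : T) :
    ∃ a, t₀ < a ∧ StabP S p v a := by
  have := stab_countable v
  obtain ⟨b, hb, h⟩ := mono_const t₀ (fun (d : StabData T v) a => - StabM S p v a d)
    (fun d a b _ hab => neg_le_neg (stabM_anti S hp v d hab))
    (fun d => ⟨0, fun a _ => neg_nonpos.2 (stabM_nonneg S hp v a d)⟩)
  exact ⟨b, hb, fun d a' ha' => neg_injective (h d a' ha')⟩

theorem stab_exQ (S : Sp T K) {p : C(K, ℝ) → ℝ} {c C : ℝ} (hp : EN p c C) (v a t₀ : T) :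
    ∃ b, t₀ < b ∧ StabQ S p v a b := by
  have := stab_countable v
  obtain ⟨b, hb, h⟩ := mono_const t₀ (fun (d : StabData T v) b => StabL S p v a b d)
    (fun d b b' _ hab => stabL_mono S hp v d le_rfl hab)
    (fun d => ⟨_, fun b _ => stabL_le_cap S hp v a b d⟩)
  exact ⟨b, hb, fun d a' ha' => h d a' ha'⟩

theorem stab_exQs (S : Sp T K) {p : C(K, ℝ) → ℝ} {c C : ℝ} (hp : EN p c C) (u : ℕ → T) (v : T) :
    ∃ b, v < b ∧ ∀ k, StabQ S p (u k) v b := by
  have : ∀ v : T, Countable (StabData T v) := fun v => stab_countable v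
  obtain ⟨b, hb, h⟩ := mono_const v
    (fun (d : Σ k, StabData T (u k)) b => StabL S p (u d.1) v b d.2)
    (fun d b b' _ hab => stabL_mono S hp _ d.2 le_rfl hab)
    (fun d => ⟨_, fun b _ => stabL_le_cap S hp _ v b d.2⟩)
  exact ⟨b, hb, fun k d a' ha' => h ⟨k, d⟩ a' ha'⟩

theorem stab_step (S : Sp T K) {p : C(K, ℝ) → ℝ} {c C : ℝ} (hp : EN p c C) (v a : T) :
    ∃ b, a < b ∧ StabP S p a b ∧ StabQ S p v a b := by
  obtain ⟨b₁, hb₁, h₁⟩ := stab_exP S hp a a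
  obtain ⟨b₂, hb₂, h₂⟩ := stab_exQ S hp v a b₁
  exact ⟨b₂, hb₁.trans hb₂, stabP_up S h₁ hb₂.le, h₂⟩

theorem stab_chain [Nonempty T] (S : Sp T K) {p : C(K, ℝ) → ℝ} {c C : ℝ} (hp : EN p c C) :
    ∃ u : ℕ → T, ∀ k, u k < u (k + 1) ∧ StabP S p (u k) (u (k + 1)) ∧
      StabQ S p (u k) (u (k + 1)) (u (k + 2)) := by
  choose f hf1 hf2 hf3 using stab_step (T := T) S hp
  obtain ⟨u0⟩ := (inferInstance : Nonempty T)
  obtain ⟨a0, ha0, hP0⟩ := stab_exP S hp u0 u0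
  let st : ℕ → T × T := fun n => Nat.rec (u0, a0) (fun _ q => (q.2, f q.1 q.2)) n
  have hst : ∀ n, st (n + 1) = ((st n).2, f (st n).1 (st n).2) := fun n => rfl
  have key : ∀ n, (st n).1 < (st n).2 ∧ StabP S p (st n).1 (st n).2 := by
    intro n
    induction n with
    | zero => exact ⟨ha0, hP0⟩
    | succ n ih =>
      rw [hst]
      exact ⟨hf1 _ _, hf2 _ _⟩
  refine ⟨fun n => (st n).1, fun k => ⟨(key k).1, (key k).2, ?_⟩⟩
  exact hf3 (st k).1 (st k).2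

/-- GS-E2. Existence of the chain. -/
theorem exists_good [Nonempty T] (S : Sp T K) {p : C(K, ℝ) → ℝ} {c C : ℝ} (hp : EN p c C) :
    ∃ (u : ℕ → T) (v w : T), Good S p u v w := by
  obtain ⟨u, hu⟩ := stab_chain S hp
  have hmono : StrictMono u := strictMono_nat_of_lt_succ fun k => (hu k).1
  obtain ⟨v0, hv0⟩ := GTree.ub u hmono.monotone
  obtain ⟨w, hvw, hw⟩ := stab_exQs S hp u (GTree.suc v0 0)
  set v := GTree.suc v0 0 with hv
  have huv : ∀ n, u n < v := fun n => lt_of_le_of_lt (hv0 n) (GTree.lt_suc v0 0)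
  refine ⟨u, v, w, hmono, huv, hvw, ?_⟩
  intro k F ξ s hY hF ⟨a, ha, haξ⟩ hs i ε hε
  obtain ⟨q, hq⟩ : ∃ q : ℕ → ℚ, ∀ n ∈ F, ξ (S.N n) = q n := by
    classical
    choose! q hq using hF
    exact ⟨q, hq⟩
  obtain ⟨B, hB⟩ := exists_nat_ge (p ξ + ε)
  classical
  let r : ℕ →₀ ℚ := Finsupp.indicator F (fun n _ => q n)
  have hr : ∀ n ∈ F, ((r n : ℚ) : ℝ) = ξ (S.N n) := by
    intro n hn
    rw [hq n hn, Finsupp.indicator_of_mem hn]
  let d : StabData T (u k) := (F, r, ⟨a, ha⟩, s, B)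
  have hw' : w < GTree.suc w i := GTree.lt_suc w i
  have main : StabL S p (u k) (u (k + 1)) (GTree.suc w i) d ≤ p ξ := by
    rcases hs with hs | hs
    · have h1 : StabL S p (u k) v w d ≤ p ξ := by
        refine stabL_le S hp (u k) v w d ξ ⟨⟨w, le_rfl, hY⟩, ?_, ?_, hs⟩
        · intro n hn; exact (hr n hn).symm
        · exact haξ
      have h2 : StabL S p (u k) (u (k + 1)) (GTree.suc w i) d ≤ StabM S p (u k) (u (k + 1)) d :=
        stabL_le_M S hp (u k) d (((huv (k + 1)).trans hvw).trans hw')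
      have h3 : StabM S p (u k) w d = StabM S p (u k) (u (k + 1)) d :=
        (hu k).2.1 d w ((huv (k + 1)).trans hvw).le
      have h4 : StabM S p (u k) w d ≤ StabL S p (u k) v w d := by
        refine stabM_le S (u k) w d _ fun b hb => ?_
        rw [← hw k d b hb.le]
        exact stabL_mono S hp (u k) d hvw.le le_rfl
      linarith
    · have h1 : StabL S p (u k) (u (k + 1)) v d ≤ p ξ := by
        refine stabL_le S hp (u k) (u (k + 1)) v d ξ ⟨⟨w, hvw.le, hY⟩, ?_, ?_, hs⟩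
        · intro n hn; exact (hr n hn).symm
        · exact haξ
      have h2 := (hu k).2.2 d v (huv (k + 2)).le
      have h3 := (hu k).2.2 d (GTree.suc w i) (((huv (k + 2)).trans hvw).trans hw').le
      linarith
  obtain ⟨y, hy, hlt⟩ := exists_lt_of_csInf_lt (s := StabSet S p (u k) (u (k + 1)) (GTree.suc w i) d)
    ⟨_, Set.mem_insert _ _⟩ (lt_of_le_of_lt main (lt_add_of_pos_right _ hε))
  rcases hy with rfl | ⟨x, ⟨⟨w', hw'', hYx⟩, hx2, hx3, hx4⟩, rfl⟩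
  · exact absurd hlt (not_lt.2 hB)
  · refine ⟨x, w', hw'', hYx, ?_, ?_, hx4, hlt.le⟩
    · intro n hn
      rw [hx2 n hn]
      exact hr n hn
    · intro t ht
      rw [hx3 t ht, haξ t ht]

end Pool.Agent.Helper50.GS
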