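import Pool.Agent.Helper50.GS.Final2
set_option autoImplicit false
namespace Pool.Agent.Helper50.GS

variable {K : Type} [TopologicalSpace K]

theorem strict2_mem [CompactSpace K] (N : ℕ → K) (f : C(K, ℝ)) :
    Memℓp (fun n : ℕ => (1 / 2 : ℝ) ^ n * f (N n)) 2 := by
  apply memℓp_gen
  have h1 : Summable (fun n : ℕ => ‖f‖ ^ 2 * (1 / 4 : ℝ) ^ n) :=
    (summable_geometric_of_lt_one (by norm_num) (by norm_num)).mul_left _
  refine Summable.of_nonneg_of_le (fun n => by positivity) (fun n => ?_) h1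
  have h2 : ‖f (N n)‖ ≤ ‖f‖ := f.norm_coe_le_norm _
  have h3 : ((2 : ENNReal).toReal) = ((2 : ℕ) : ℝ) := by norm_num
  rw [h3, Real.rpow_natCast, norm_mul, mul_pow, norm_pow, ← pow_mul, mul_comm n 2, pow_mul]
  have h4 : ‖(1 / 2 : ℝ)‖ ^ 2 = 1 / 4 := by norm_num
  rw [h4, mul_comm]
  gcongr

noncomputable def strict2S [CompactSpace K] (N : ℕ → K) (f : C(K, ℝ)) :
    lp (fun _ : ℕ => ℝ) 2 := ⟨fun n : ℕ => (1 / 2 : ℝ) ^ n * f (N n), strict2_mem N f⟩

theorem strict2S_apply [CompactSpace K] (N : ℕ → K) (f : C(K, ℝ)) (n : ℕ) :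
    strict2S N f n = (1 / 2 : ℝ) ^ n * f (N n) := rfl

theorem strict2S_add [CompactSpace K] (N : ℕ → K) (f g : C(K, ℝ)) :
    strict2S N (f + g) = strict2S N f + strict2S N g := by
  ext n
  simp [strict2S_apply, mul_add]

theorem strict2S_smul [CompactSpace K] (N : ℕ → K) (a : ℝ) (f : C(K, ℝ)) :
    strict2S N (a • f) = a • strict2S N f := by
  ext n
  simp [strict2S_apply, mul_left_comm]

theorem strict2S_inj [CompactSpace K] {N : ℕ → K} (hN : DenseRange N) {f g : C(K, ℝ)}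
    (h : strict2S N f = strict2S N g) : f = g := by
  have h1 : Set.EqOn f g (Set.range N) := by
    rintro _ ⟨n, rfl⟩
    have := congrArg (fun x : lp (fun _ : ℕ => ℝ) 2 => x n) h
    simp only [strict2S_apply] at this
    exact mul_left_cancel₀ (by positivity) this
  have h2 := Continuous.ext_on hN f.continuous g.continuous h1
  exact DFunLike.coe_injective h2

theorem strict2S_norm [CompactSpace K] (N : ℕ → K) (f : C(K, ℝ)) :
    ‖strict2S N f‖ ≤ 2 * ‖f‖ := by
  apply lp.norm_le_of_tsum_le (by norm_num) (by positivity)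
  have h3 : ((2 : ENNReal).toReal) = ((2 : ℕ) : ℝ) := by norm_num
  simp only [h3, Real.rpow_natCast]
  have h1 : HasSum (fun n : ℕ => ‖f‖ ^ 2 * (1 / 4 : ℝ) ^ n) (‖f‖ ^ 2 * (1 - 1 / 4)⁻¹) :=
    (hasSum_geometric_of_lt_one (by norm_num) (by norm_num)).mul_left _
  have h5 : ∀ n, ‖strict2S N f n‖ ^ 2 ≤ ‖f‖ ^ 2 * (1 / 4 : ℝ) ^ n := by
    intro n
    have h2 : ‖f (N n)‖ ≤ ‖f‖ := f.norm_coe_le_norm _
    rw [strict2S_apply, norm_mul, mul_pow, norm_pow, ← pow_mul, mul_comm n 2, pow_mul]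
    have h4 : ‖(1 / 2 : ℝ)‖ ^ 2 = 1 / 4 := by norm_num
    rw [h4, mul_comm]
    gcongr
  have h6 : Summable (fun n => ‖strict2S N f n‖ ^ 2) :=
    Summable.of_nonneg_of_le (fun n => by positivity) h5 h1.summable
  have h7 := h6.tsum_le_tsum h5 h1.summable
  rw [h1.tsum_eq] at h7
  refine h7.trans ?_
  nlinarith [sq_nonneg ‖f‖]

theorem strict2S_mono [CompactSpace K] (N : ℕ → K) (f g : C(K, ℝ))
    (h : ∀ k, |f k| ≤ |g k|) : ‖strict2S N f‖ ≤ ‖strict2S N g‖ := by
  have hp : (0 : ℝ) < (2 : ENNReal).toReal := by norm_num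
  have h1 := lp.norm_rpow_eq_tsum hp (strict2S N f)
  have h2 := lp.norm_rpow_eq_tsum hp (strict2S N g)
  have h3 : ‖strict2S N f‖ ^ (2 : ENNReal).toReal ≤ ‖strict2S N g‖ ^ (2 : ENNReal).toReal := by
    rw [h1, h2]
    refine Summable.tsum_le_tsum (fun n => ?_) ?_ ?_
    · refine Real.rpow_le_rpow (norm_nonneg _) ?_ hp.le
      rw [strict2S_apply, strict2S_apply, norm_mul, norm_mul]
      exact mul_le_mul_of_nonneg_left (h _) (norm_nonneg _)
    · exact (lp.memℓp (strict2S N f)).summable hp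
    · exact (lp.memℓp (strict2S N g)).summable hp
  exact (Real.rpow_le_rpow_iff (norm_nonneg _) (norm_nonneg _) hp).1 h3

/-- A separable compact space: equivalent strictly convex lattice norms arbitrarily close to
the supremum norm. -/
theorem strict2 [CompactSpace K] (N : ℕ → K) (hN : DenseRange N) (ε : ℝ) (hε : 0 < ε) :
    ∃ p : C(K, ℝ) → ℝ,
      (∀ f g : C(K, ℝ), p (f + g) ≤ p f + p g) ∧
      (∀ (a : ℝ) (f : C(K, ℝ)), p (a • f) = |a| * p f) ∧
      (∀ f : C(K, ℝ), ‖f‖ ≤ p f ∧ p f ≤ (1 + ε) * ‖f‖) ∧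
      (∀ f g : C(K, ℝ), p f = 1 → p g = 1 → f ≠ g → p ((1 / 2 : ℝ) • (f + g)) < 1) ∧
      (∀ f g : C(K, ℝ), (∀ k, |f k| ≤ |g k|) → p f ≤ p g) := by
  set δ : ℝ := ε / 2 with hδ
  have hδ0 : 0 < δ := by positivity
  have hadd : ∀ f g : C(K, ℝ), ‖f + g‖ + δ * ‖strict2S N (f + g)‖ ≤
      (‖f‖ + δ * ‖strict2S N f‖) + (‖g‖ + δ * ‖strict2S N g‖) := by
    intro f g
    have h1 := norm_add_le f g
    have h2 := norm_add_le (strict2S N f) (strict2S N g)
    rw [← strict2S_add] at h2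
    nlinarith
  have hsm : ∀ (a : ℝ) (f : C(K, ℝ)), ‖a • f‖ + δ * ‖strict2S N (a • f)‖ =
      |a| * (‖f‖ + δ * ‖strict2S N f‖) := by
    intro a f
    rw [strict2S_smul, norm_smul, norm_smul, Real.norm_eq_abs]
    ring
  refine ⟨fun f => ‖f‖ + δ * ‖strict2S N f‖, hadd, hsm, fun f => ?_, ?_, ?_⟩
  · have h1 := strict2S_norm N f
    have h2 := norm_nonneg (strict2S N f)
    constructor
    · simp only
      nlinarith
    · simp only
      rw [hδ]
      nlinarith
  · intro f g hf hg hfg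
    have hle : ‖f + g‖ + δ * ‖strict2S N (f + g)‖ < 2 := by
      simp only at hf hg
      refine lt_of_le_of_ne (by have := hadd f g; linarith) fun h2 => hfg ?_
      have h3 := norm_add_le f g
      have h4 := norm_add_le (strict2S N f) (strict2S N g)
      rw [← strict2S_add] at h4
      have h5 : ‖strict2S N f + strict2S N g‖ = ‖strict2S N f‖ + ‖strict2S N g‖ := by
        rw [← strict2S_add]
        refine le_antisymm h4 ?_
        nlinarith
      have hne : ∀ k : C(K, ℝ), ‖k‖ + δ * ‖strict2S N k‖ = 1 → strict2S N k ≠ 0 := by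
        intro k hk h0
        have h6 : strict2S N (0 : C(K, ℝ)) = 0 := by
          have := strict2S_smul N 0 (0 : C(K, ℝ))
          simpa using this
        have h7 : k = 0 := strict2S_inj hN (h0.trans h6.symm)
        rw [h7, h6] at hk
        simp at hk
      obtain ⟨r, hr, hr2⟩ := (sameRay_iff_norm_add.mpr h5).exists_pos_left (hne f hf) (hne g hg)
      rw [← strict2S_smul] at hr2
      have h8 := strict2S_inj hN hr2
      have h9 := hsm r f
      rw [h8, hf, hg, abs_of_pos hr, mul_one] at h9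
      rw [← h9, one_smul] at h8
      exact h8
    have h10 := hsm (1 / 2) (f + g)
    simp only
    rw [h10, abs_of_pos (by norm_num : (0 : ℝ) < 1 / 2)]
    linarith
  · intro f g h
    have h1 := strict2S_mono N f g h
    have h2 : ‖f‖ ≤ ‖g‖ := by
      rw [ContinuousMap.norm_le _ (norm_nonneg _)]
      intro k
      have := g.norm_coe_le_norm k
      exact (h k).trans this
    simp only
    nlinarith

end Pool.Agent.Helper50.GS
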