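import Pool.Agent.Helper50.GS.Defs
set_option autoImplicit false
namespace Pool.Agent.Helper50.GS

namespace TreeA

/-- a well-ordered set of type omega one -/
abbrev I : Type := (Cardinal.aleph 1).ord.ToType

theorem cIio (a : I) : (Set.Iio a).Countable := by
  have h := Cardinal.mk_Iio_toType_ord_lt a
  rw [← Cardinal.le_aleph0_iff_set_countable]
  have h2 : Order.succ Cardinal.aleph0 = Cardinal.aleph 1 := Cardinal.succ_aleph0
  exact Order.lt_succ_iff.1 (h.trans_eq h2.symm)

theorem cIic (a : I) : (Set.Iic a).Countable := by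
  have : Set.Iic a ⊆ Set.Iio a ∪ {a} := by
    intro x hx
    rcases lt_or_eq_of_le (Set.mem_Iic.1 hx) with h | h
    · exact Or.inl h
    · exact Or.inr h
  exact ((cIio a).union (Set.countable_singleton a)).mono this

theorem exists_ub (u : ℕ → I) : ∃ b : I, ∀ n, u n < b := by
  by_contra hcon
  push Not at hcon
  have hc : (Set.univ : Set I).Countable := by
    have : (Set.univ : Set I) ⊆ ⋃ n, Set.Iic (u n) := by
      intro x _
      obtain ⟨n, hn⟩ := hcon x
      exact Set.mem_iUnion.2 ⟨n, hn⟩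
    exact (Set.countable_iUnion fun n => cIic (u n)).mono this
  have h1 : Cardinal.mk I ≤ Cardinal.aleph0 := by
    rw [← Cardinal.mk_univ]
    exact Cardinal.le_aleph0_iff_set_countable.2 hc
  rw [Cardinal.mk_ord_toType, ← Cardinal.succ_aleph0] at h1
  exact absurd (Order.lt_succ Cardinal.aleph0) (not_lt.2 h1)

theorem exists_gt' (a : I) : ∃ b : I, a < b := by
  obtain ⟨b, hb⟩ := exists_ub (fun _ => a)
  exact ⟨b, hb 0⟩

/-- nodes: a length and a function vanishing beyond the length -/
def TT : Type := { x : I × (I → ℕ) // ∀ β, x.1 ≤ β → x.2 β = 0 }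

/-- length of a node -/
def len (s : TT) : I := s.1.1

/-- values of a node -/
def vl (s : TT) : I → ℕ := s.1.2

theorem vl_zero (s : TT) {β : I} (h : len s ≤ β) : vl s β = 0 := s.2 β h

theorem TT.ext' {s t : TT} (h1 : len s = len t) (h2 : ∀ β < len s, vl s β = vl t β) : s = t := by
  apply Subtype.ext
  apply Prod.ext h1
  funext β
  by_cases hb : β < len s
  · exact h2 β hb
  · have h3 : vl s β = 0 := vl_zero s (not_lt.1 hb)
    have h4 : vl t β = 0 := vl_zero t (h1 ▸ not_lt.1 hb)
    show vl s β = vl t β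
    rw [h3, h4]

/-- initial segment relation -/
def Le (s t : TT) : Prop := len s ≤ len t ∧ ∀ β < len s, vl s β = vl t β

open Classical in
/-- restriction of a node -/
noncomputable def restr (s : TT) (γ : I) : TT :=
  ⟨(γ, fun β => if β < γ then vl s β else 0), fun β hβ => by
    simp only
    rw [if_neg (not_lt.2 hβ)]⟩

theorem len_restr (s : TT) (γ : I) : len (restr s γ) = γ := rfl

theorem vl_restr (s : TT) (γ : I) {β : I} (h : β < γ) : vl (restr s γ) β = vl s β := by
  classical
  show (if β < γ then vl s β else 0) = vl s β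
  rw [if_pos h]

/-- separating set -/
def sepSet (s t : TT) : Set I := {β | β = len s ∨ β = len t ∨ vl s β ≠ vl t β}

theorem sepSet_ne (s t : TT) : (sepSet s t).Nonempty := ⟨len s, Or.inl rfl⟩

/-- meeting point -/
noncomputable def gam (s t : TT) : I := (wellFounded_lt : WellFounded ((· < ·) : I → I → Prop)).min
  (sepSet s t) (sepSet_ne s t)

theorem gam_mem (s t : TT) : gam s t = len s ∨ gam s t = len t ∨ vl s (gam s t) ≠ vl t (gam s t) :=
  WellFounded.min_mem _ _ (sepSet_ne s t)

theorem gam_le {s t : TT} {β : I} (h : β ∈ sepSet s t) : gam s t ≤ β :=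
  not_lt.1 (WellFounded.not_lt_min _ _ h)

theorem gam_le_left (s t : TT) : gam s t ≤ len s := gam_le (Or.inl rfl)

theorem gam_le_right (s t : TT) : gam s t ≤ len t := gam_le (Or.inr (Or.inl rfl))

theorem eq_of_lt_gam {s t : TT} {β : I} (h : β < gam s t) : vl s β = vl t β := by
  by_contra hne
  exact absurd h (not_lt.2 (gam_le (Or.inr (Or.inr hne))))

noncomputable instance : SemilatticeInf TT where
  le := Le
  lt := fun s t => Le s t ∧ ¬ Le t s
  le_refl := fun s => ⟨le_rfl, fun _ _ => rfl⟩
  le_trans := fun r s t h1 h2 => ⟨h1.1.trans h2.1, fun β hβ =>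
    (h1.2 β hβ).trans (h2.2 β (lt_of_lt_of_le hβ h1.1))⟩
  lt_iff_le_not_ge := fun _ _ => Iff.rfl
  le_antisymm := fun s t h1 h2 => TT.ext' (le_antisymm h1.1 h2.1) h1.2
  inf := fun s t => restr s (gam s t)
  inf_le_left := fun s t => ⟨gam_le_left s t, fun β hβ => vl_restr s _ hβ⟩
  inf_le_right := fun s t => ⟨gam_le_right s t, fun β hβ =>
    (vl_restr s _ hβ).trans (eq_of_lt_gam hβ)⟩
  le_inf := fun r s t h1 h2 => by
    have hle : len r ≤ gam s t := by
      by_contra hlt
      rw [not_le] at hlt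
      rcases gam_mem s t with h | h | h
      · exact absurd (h ▸ hlt) (not_lt.2 h1.1)
      · exact absurd (h ▸ hlt) (not_lt.2 h2.1)
      · exact h ((h1.2 _ hlt).symm.trans (h2.2 _ hlt))
    exact ⟨hle, fun β hβ => (h1.2 β hβ).trans (vl_restr s _ (lt_of_lt_of_le hβ hle)).symm⟩

theorem le_def {s t : TT} : s ≤ t ↔ len s ≤ len t ∧ ∀ β < len s, vl s β = vl t β := Iff.rfl

theorem len_lt {s t : TT} (h : s < t) : len s < len t := by
  rcases lt_or_eq_of_le (le_def.1 h.le).1 with h1 | h1
  · exact h1
  · exact absurd (TT.ext' h1 (le_def.1 h.le).2) h.ne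

theorem len_inf (s t : TT) : len (s ⊓ t) = gam s t := rfl

/-- an element above -/
noncomputable def up (a : I) : I := Classical.choose (exists_gt' a)

theorem lt_up (a : I) : a < up a := Classical.choose_spec (exists_gt' a)

open Classical in
/-- successor node -/
noncomputable def sc (w : TT) (i : ℕ) : TT :=
  ⟨(up (len w), fun β => if β = len w then i else vl w β), fun β hβ => by
    simp only at hβ ⊢
    have h1 : len w < β := lt_of_lt_of_le (lt_up _) hβ
    rw [if_neg h1.ne']
    exact vl_zero w h1.le⟩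

theorem vl_sc (w : TT) (i : ℕ) : vl (sc w i) (len w) = i := by
  classical
  show (if len w = len w then i else vl w (len w)) = i
  rw [if_pos rfl]

theorem vl_sc_ne (w : TT) (i : ℕ) {β : I} (h : β ≠ len w) : vl (sc w i) β = vl w β := by
  classical
  show (if β = len w then i else vl w β) = vl w β
  rw [if_neg h]

theorem lt_sc (w : TT) (i : ℕ) : w < sc w i := by
  have h1 : w ≤ sc w i := le_def.2 ⟨(lt_up (len w)).le, fun β hβ => (vl_sc_ne w i hβ.ne).symm⟩
  refine lt_of_le_of_ne h1 fun h => ?_
  have h2 : len w = up (len w) := congrArg len h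
  exact absurd h2 (lt_up (len w)).ne

theorem exists_bound (u : ℕ → TT) (hu : Monotone u) : ∃ a, ∀ n, u n ≤ a := by
  classical
  obtain ⟨γ, hγ⟩ := exists_ub (fun n => len (u n))
  let f : I → ℕ := fun β => if h : ∃ n, β < len (u n) then vl (u (Nat.find h)) β else 0
  have hf : ∀ β, γ ≤ β → f β = 0 := by
    intro β hβ
    have hn : ¬ ∃ n, β < len (u n) := by
      rintro ⟨n, hn⟩
      exact absurd (hn.trans (hγ n)) (not_lt.2 hβ)
    simp only [f, dif_neg hn]
  refine ⟨⟨(γ, f), hf⟩, fun n => le_def.2 ⟨(hγ n).le, fun β hβ => ?_⟩⟩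
  have hex : ∃ n, β < len (u n) := ⟨n, hβ⟩
  show vl (u n) β = f β
  simp only [f, dif_pos hex]
  have h1 : u (Nat.find hex) ≤ u n := hu (Nat.find_min' hex hβ)
  exact ((le_def.1 h1).2 β (Nat.find_spec hex)).symm

noncomputable instance : GTree TT where
  chain := by
    intro t a b ha hb
    rcases le_total (len a) (len b) with h | h
    · left
      exact le_def.2 ⟨h, fun β hβ => ((le_def.1 ha).2 β hβ).trans
        ((le_def.1 hb).2 β (lt_of_lt_of_le hβ h)).symm⟩
    · right
      exact le_def.2 ⟨h, fun β hβ => ((le_def.1 hb).2 β hβ).trans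
        ((le_def.1 ha).2 β (lt_of_lt_of_le hβ h)).symm⟩
  cble := by
    intro t
    have hinj : Set.InjOn len (Set.Iic t) := by
      intro a ha b hb hab
      refine TT.ext' hab fun β hβ => ?_
      exact ((le_def.1 ha).2 β hβ).trans ((le_def.1 hb).2 β (hab ▸ hβ)).symm
    have hmaps : Set.MapsTo len (Set.Iic t) (Set.Iic (len t)) := fun a ha => (le_def.1 ha).1
    exact hmaps.countable_of_injOn hinj (cIic _)
  wf := by
    have h := InvImage.wf len (wellFounded_lt : WellFounded ((· < ·) : I → I → Prop))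
    exact Subrelation.wf (fun {a b} hab => len_lt hab) h
  ub := exists_bound
  lab := fun s t => vl t (len s)
  lab_coh := fun s t t' h1 h2 => (le_def.1 h2).2 _ (len_lt h1)
  lab_sep := by
    intro t t' h1 h2
    show vl t (len (t ⊓ t')) ≠ vl t' (len (t ⊓ t'))
    rw [len_inf]
    rcases gam_mem t t' with h | h | h
    · exfalso
      apply h1
      refine le_def.2 ⟨h ▸ gam_le_right t t', fun β hβ => eq_of_lt_gam (h.symm ▸ hβ)⟩
    · exfalso
      apply h2
      refine le_def.2 ⟨h ▸ gam_le_left t t', fun β hβ => (eq_of_lt_gam (h.symm ▸ hβ)).symm⟩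
    · exact h
  suc := sc
  lt_suc := lt_sc
  lab_suc := vl_sc

end TreeA

/-- GS-A. `T = ω^{<ω₁}`. -/
theorem exists_tree : ∃ (T : Type) (_ : GTree T), Nonempty T := by
  refine ⟨TreeA.TT, inferInstance, ?_⟩
  obtain ⟨b, -⟩ := TreeA.exists_ub (fun _ => by
    have : Nonempty TreeA.I := by
      rw [← Cardinal.mk_ne_zero_iff, Cardinal.mk_ord_toType]
      exact (Cardinal.aleph_pos 1).ne'
    exact Classical.choice this)
  exact ⟨⟨(b, fun _ => 0), fun _ _ => rfl⟩⟩

end Pool.Agent.Helper50.GS
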